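import Pool.Statements.S00249
import Pool.Agent.Helper16.Chudnovsky

set_option autoImplicit false
open Pool Pool.MP_70675a_ag

namespace Pool.Agent.S00249

/-- Over an algebraically closed field of char 0, for n≥1, any nonempty finite set W of points in P^n and r≥1, every nonzero degree-d form vanishing to order rn at all points of W has d ≥ r·α(W) + r(n−1). -/
theorem result :
    ∀ (k : Type) [Field k] [IsAlgClosed k] [CharZero k] (n : ℕ), 1 ≤ n →
    ∀ (W : Finset (Projectivization k (Fin (n+1) → k))), W.Nonempty →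
    ∀ (r : ℕ), 1 ≤ r →
    ∀ (d : ℕ) (f : MvPolynomial (Fin (n+1)) k), f ≠ 0 → f.IsHomogeneous d →
      (∀ P ∈ W, f ∈ (Ideal.span {g : MvPolynomial (Fin (n+1)) k |
          g.IsHomogeneous 1 ∧ MvPolynomial.eval P.rep g = 0}) ^ (r * n)) →
      ∃ (e : ℕ) (g : MvPolynomial (Fin (n+1)) k), g ≠ 0 ∧ g.IsHomogeneous e ∧
        (∀ P ∈ W, g ∈ Ideal.span {h : MvPolynomial (Fin (n+1)) k |
          h.IsHomogeneous 1 ∧ MvPolynomial.eval P.rep h = 0}) ∧
        r * e + r * (n - 1) ≤ d := by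
  intro k _ _ _ n hn W hWne r hr d f hf0 hf hfW
  -- the smallest degree of a nonzero form vanishing on `W`
  let Q : ℕ → Prop := fun e => ∃ g : MvPolynomial (Fin (n+1)) k, g ≠ 0 ∧ g.IsHomogeneous e ∧
    ∀ P ∈ W, g ∈ Ideal.span {h : MvPolynomial (Fin (n+1)) k |
      h.IsHomogeneous 1 ∧ MvPolynomial.eval P.rep h = 0}
  have hrn : 0 < r * n := Nat.mul_pos hr hn
  have hQ : ∃ e, Q e := ⟨d, f, hf0, hf, fun P hP =>
    Ideal.pow_le_self (Nat.pos_iff_ne_zero.mp hrn) (hfW P hP)⟩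
  obtain ⟨α, ⟨g, hg0, hg, hgW⟩, hmin⟩ : ∃ α, Q α ∧ ∀ e < α, ¬ Q e := by
    classical
    exact ⟨Nat.find hQ, Nat.find_spec hQ, fun e he => Nat.find_min hQ he⟩
  refine ⟨α, g, hg0, hg, hgW, ?_⟩
  -- normalised coordinates of the points
  have hi : ∀ P : W, ∃ i, (P : Projectivization k (Fin (n+1) → k)).rep i ≠ 0 := by
    intro P
    exact Function.ne_iff.mp (Projectivization.rep_nonzero (P : Projectivization k (Fin (n+1) → k)))
  choose i0 hi0 using hi
  let v : W → Fin (n+1) → k := fun P =>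
    ((P : Projectivization k (Fin (n+1) → k)).rep (i0 P))⁻¹ •
      (P : Projectivization k (Fin (n+1) → k)).rep
  have hv : ∀ P, v P (i0 P) = 1 := by
    intro P
    simp only [v, Pi.smul_apply, smul_eq_mul]
    exact inv_mul_cancel₀ (hi0 P)
  have hv' : ∀ P : W, (P : Projectivization k (Fin (n+1) → k)).rep =
      ((P : Projectivization k (Fin (n+1) → k)).rep (i0 P)) • v P := by
    intro P
    simp only [v, smul_smul]
    rw [mul_inv_cancel₀ (hi0 P), one_smul]
  obtain ⟨P0, hP0⟩ := hWne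
  have : Nonempty W := ⟨⟨P0, hP0⟩⟩
  have hpos : 0 < α := by
    rcases Nat.eq_zero_or_pos α with h | h
    · exfalso
      subst h
      have h1 := Pool.Agent.Helper16.mem_W_of_mem_ptIdeal_pow (w := P0.rep) (v := v ⟨P0, hP0⟩)
        (i0 := i0 ⟨P0, hP0⟩) rfl (hv _) (m := 1) (F := g)
        (by rw [pow_one]; exact hgW P0 hP0)
      have h2 := Pool.Agent.Helper16.eval_of_mem (hv _) h1
      rw [← MvPolynomial.totalDegree_zero_iff_isHomogeneous,
        MvPolynomial.totalDegree_eq_zero_iff_eq_C] at hg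
      rw [hg, MvPolynomial.eval_C] at h2
      apply hg0
      rw [hg, h2, map_zero]
    · exact h
  have hα : ∀ G : MvPolynomial (Fin (n+1)) k, G.IsHomogeneous (α - 1) →
      (∀ P, MvPolynomial.eval (v P) G = 0) → G = 0 := by
    intro G hG hGW
    by_contra hG0
    have h1 : Q (α - 1) := ⟨G, hG0, hG, fun P hP =>
      Pool.Agent.Helper16.mem_ptIdeal_of_eval (hv' ⟨P, hP⟩) (hv ⟨P, hP⟩) hG (hGW ⟨P, hP⟩)⟩
    exact hmin _ (by omega) h1
  have hfT : ∀ P : W, Pool.Agent.Helper16.T (i0 P) (v P) f ∈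
      Pool.Agent.Helper16.W k (i0 P) (r * n) := by
    intro P
    have hPP := hfW P.1 P.2
    have hvP : v P = ((P.1).rep (i0 P))⁻¹ • (P.1).rep := rfl
    exact Pool.Agent.Helper16.mem_W_of_mem_ptIdeal_pow hvP (hv P) hPP
  have hcard : Fintype.card (Fin (n+1)) = n + 1 := Fintype.card_fin _
  have hmain : r * (α + n) ≤ d + r := by
    refine @Pool.Agent.Helper16.main_bound (Fin (n+1)) _ _ k _ _ n r hn hr hcard W _ _ i0 v hv α
      hpos hα f d hf hf0 hfT
  have h1 : r * (α + n) = r * α + r * (n - 1) + r := by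
    obtain ⟨m, rfl⟩ : ∃ m, n = m + 1 := ⟨n - 1, by omega⟩
    simp only [Nat.add_sub_cancel]
    ring
  omega

end Pool.Agent.S00249
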