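import Pool.Statements.S00905
-- import your own Pool.Agent.* helpers here

set_option autoImplicit false
open Pool Pool.MP_207b86_al

namespace Pool.Agent.S00905

/-- The full symmetric group on three letters (a finite group with trivial centre). -/
abbrev F : Type := Equiv.Perm (Fin 3)

/-- A countably infinite power of `S_3`. -/
abbrev GG : Type := ℕ → F

/-- The evaluation homomorphism `G * ⟨x⟩ → G` at `g`. -/
abbrev ev (g : GG) : Monoid.Coprod GG (FreeGroup Unit) →* GG :=
  Monoid.Coprod.lift (MonoidHom.id GG) (FreeGroup.lift (fun _ => g))

/-- The Zariski topology, generated by the complements of solution sets. -/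
abbrev zar : TopologicalSpace GG :=
  TopologicalSpace.generateFrom
        {U : Set GG | ∃ w : Monoid.Coprod GG (FreeGroup Unit),
          U = {g : GG | ev g w = 1}ᶜ}

/-- The product topology with discrete factors. -/
abbrev prodTop : TopologicalSpace GG :=
  @Pi.topologicalSpace ℕ (fun _ => F) (fun _ => ⊥)

/-- The commutator word `[g⁻¹ x, c]`. -/
noncomputable def wd (g c : GG) : Monoid.Coprod GG (FreeGroup Unit) :=
  (Monoid.Coprod.inl g⁻¹ * Monoid.Coprod.inr (FreeGroup.of ())) * Monoid.Coprod.inl c *
    (Monoid.Coprod.inl g⁻¹ * Monoid.Coprod.inr (FreeGroup.of ()))⁻¹ * Monoid.Coprod.inl c⁻¹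

lemma ev_wd (g c a : GG) : ev a (wd g c) = (g⁻¹ * a) * c * (g⁻¹ * a)⁻¹ * c⁻¹ := by
  simp [wd, ev]

/-- Each Zariski-subbasic set is open for the product topology. -/
lemma cont_ev (w : Monoid.Coprod GG (FreeGroup Unit)) :
    @Continuous GG GG prodTop prodTop (fun a => ev a w) := by
  let _ : TopologicalSpace F := ⊥
  have : DiscreteTopology F := ⟨rfl⟩
  have : IsTopologicalGroup F := inferInstance
  have : IsTopologicalGroup GG := inferInstance
  induction w using Monoid.Coprod.induction_on with
  | inl m => simpa [ev] using continuous_const
  | inr n =>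
    induction n using FreeGroup.induction_on with
    | C1 => simpa [ev] using continuous_const
    | of x =>
      have : (fun a => ev a (Monoid.Coprod.inr (FreeGroup.of x))) = id := by
        funext a; simp [ev]
      rw [this]; exact continuous_id
    | inv_of x ih =>
      have : (fun a => ev a (Monoid.Coprod.inr (FreeGroup.of x)⁻¹)) = fun a : GG => a⁻¹ := by
        funext a; simp [ev]
      rw [this]; exact continuous_inv
    | mul x y hx hy =>
      have : (fun a => ev a (Monoid.Coprod.inr (x * y))) =
          fun a : GG => ev a (Monoid.Coprod.inr x) * ev a (Monoid.Coprod.inr y) := by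
        funext a; simp [ev]
      rw [this]; exact hx.mul hy
  | mul x y hx hy =>
    have : (fun a => ev a (x * y)) = fun a : GG => ev a x * ev a y := by
      funext a; simp [ev]
    rw [this]; exact hx.mul hy

lemma center_F (a : F) (h : ∀ c : F, a * c * a⁻¹ * c⁻¹ = 1) : a = 1 := by
  revert a; decide

lemma isClosed_coord (n : ℕ) (b : F) : @IsClosed GG zar {a : GG | a n = b} := by
  let _ := zar
  have key : {a : GG | a n = b} =
      ⋂ c : F, {a : GG | ev a (wd (Pi.mulSingle n b) (Pi.mulSingle n c)) = 1} := by
    ext a
    simp only [Set.mem_ofPred_eq, Set.mem_iInter, ev_wd]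
    constructor
    · intro h c
      funext k
      by_cases hk : k = n
      · subst hk
        simp [h]
      · simp [Pi.mulSingle_eq_of_ne hk]
    · intro h
      have : b⁻¹ * a n = 1 := by
        apply center_F
        intro c
        have := congrFun (h c) n
        simpa using this
      exact (inv_mul_eq_one.mp this).symm
  rw [key]
  apply isClosed_iInter
  intro c
  rw [← isOpen_compl_iff]
  exact TopologicalSpace.isOpen_generateFrom_of_mem ⟨_, rfl⟩

lemma isOpen_coord (n : ℕ) (b : F) : @IsOpen GG zar {a : GG | a n = b} := by
  let _ := zar
  have key : {a : GG | a n = b} = (⋃ c ∈ {c : F | c ≠ b}, {a : GG | a n = c})ᶜ := by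
    ext a
    simp only [Set.mem_ofPred_eq, Set.mem_compl_iff, Set.mem_iUnion, not_exists]
    constructor
    · intro h c hc h2
      exact hc (h2.symm.trans h)
    · intro h
      by_contra h2
      exact h (a n) h2 rfl
  rw [key, isOpen_compl_iff]
  apply Set.Finite.isClosed_biUnion (Set.toFinite _)
  intro c _
  exact isClosed_coord n c

lemma zar_eq : zar = prodTop := by
  apply le_antisymm
  · -- every coordinate is Zariski-continuous
    have : ∀ n : ℕ, @Continuous GG F zar ⊥ (fun a => a n) := by
      intro n
      let _ := zar
      let _ : TopologicalSpace F := ⊥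
      have : DiscreteTopology F := ⟨rfl⟩
      rw [continuous_discrete_rng]
      intro b
      exact isOpen_coord n b
    have h2 : @Continuous GG GG zar prodTop id :=
      @continuous_pi GG ℕ (fun _ => F) zar (fun _ => ⊥) id this
    exact continuous_id_iff_le.mp h2
  · apply le_generateFrom
    rintro U ⟨w, rfl⟩
    let _ : TopologicalSpace F := ⊥
    have : DiscreteTopology F := ⟨rfl⟩
    have : IsClosed {g : GG | ev g w = 1} :=
      isClosed_eq (cont_ev w) continuous_const
    exact this.isOpen_compl

/-- There is an infinite group whose Zariski topology is both compact and Hausdorff. The closed sets of that topology are generated by solution sets of one-variable equations with constants from the group. -/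
theorem result :
    ∃ (G : Type) (_ : Group G) (T : TopologicalSpace G),
      Infinite G ∧
      T = TopologicalSpace.generateFrom
        {U : Set G | ∃ w : Monoid.Coprod G (FreeGroup Unit),
          U = {g : G | Monoid.Coprod.lift (MonoidHom.id G) (FreeGroup.lift (fun _ => g)) w = 1}ᶜ} ∧
      @CompactSpace G T ∧ @T2Space G T := by
  refine ⟨GG, inferInstance, prodTop, inferInstance, zar_eq.symm, ?_, ?_⟩
  · let _ : TopologicalSpace F := ⊥
    have : DiscreteTopology F := ⟨rfl⟩
    have : CompactSpace F := inferInstance
    exact inferInstance
  · let _ : TopologicalSpace F := ⊥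
    have : DiscreteTopology F := ⟨rfl⟩
    exact inferInstance

end Pool.Agent.S00905
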