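import Pool.Statements.S00960
import Mathlib

set_option autoImplicit false
set_option linter.unusedSectionVars false
open Pool Pool.MP_2475ca_al

namespace Pool.Agent.S00960

open Subgroup MulAction

/-- Abstract step. -/
lemma step {Y Ω : Type*} [Group Y] [Finite Y] [MulAction Y Ω] [Finite Ω] {p r : ℕ}
    [Fact p.Prime] [Fact r.Prime] (hpΩ : ¬ p ∣ Nat.card Ω)
    (N E1 : Subgroup Y) [N.Normal] (hE1 : IsPGroup p E1) (hsup : E1 ⊔ N = ⊤) (γ : Ω)
    (hγ : ∀ γ' : Ω, (∀ e ∈ E1, e • γ' = γ') → γ' = γ) (P : Sylow r N) :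
    ∃ E2 : Subgroup Y, IsPGroup p E2 ∧ E2 ⊔ N = ⊤ ∧
      E2 ≤ normalizer (((P : Subgroup N).map N.subtype : Subgroup Y) : Set Y) ∧
      ∃ x ∈ N, ∀ e ∈ E2, e • (x • γ) = x • γ := by
  set S : Subgroup Y := (P : Subgroup N).map N.subtype with hS
  have hfrat : normalizer (S : Set Y) ⊔ N = ⊤ := Sylow.normalizer_sup_eq_top P
  set X : Subgroup Y := normalizer (S : Set Y) with hX
  -- the quotient map restricted to the normalizer
  let ψ : X →* Y ⧸ N := (QuotientGroup.mk' N).comp X.subtype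
  have hψ : Function.Surjective ψ := by
    intro q
    obtain ⟨y, rfl⟩ := QuotientGroup.mk'_surjective N q
    have hy : y ∈ X ⊔ N := by rw [hfrat]; exact mem_top y
    rw [← SetLike.mem_coe, mul_normal] at hy
    obtain ⟨a, ha, b, hb, rfl⟩ := Set.mem_mul.mp hy
    refine ⟨⟨a, ha⟩, ?_⟩
    change (QuotientGroup.mk' N) a = (QuotientGroup.mk' N) (a * b)
    rw [map_mul]
    have : (QuotientGroup.mk' N) b = 1 := by
      rw [← MonoidHom.mem_ker, QuotientGroup.ker_mk']
      exact hb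
    rw [this, mul_one]
  -- the quotient is a p-group
  have hQ : IsPGroup p (Y ⧸ N) := by
    have h1 : Function.Surjective ((QuotientGroup.mk' N).comp E1.subtype) := by
      intro q
      obtain ⟨y, rfl⟩ := QuotientGroup.mk'_surjective N q
      have hy : y ∈ E1 ⊔ N := by rw [hsup]; exact mem_top y
      rw [← SetLike.mem_coe, mul_normal] at hy
      obtain ⟨a, ha, b, hb, rfl⟩ := Set.mem_mul.mp hy
      refine ⟨⟨a, ha⟩, ?_⟩
      change (QuotientGroup.mk' N) a = (QuotientGroup.mk' N) (a * b)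
      rw [map_mul]
      have : (QuotientGroup.mk' N) b = 1 := by
        rw [← MonoidHom.mem_ker, QuotientGroup.ker_mk']
        exact hb
      rw [this, mul_one]
    exact hE1.of_surjective _ h1
  let Q : Sylow p X := Classical.arbitrary _
  let E2 : Subgroup Y := (Q : Subgroup X).map X.subtype
  have hE2 : IsPGroup p E2 := Q.isPGroup'.map _
  have hE2X : E2 ≤ X := map_subtype_le _
  have hE2N : E2 ⊔ N = ⊤ := by
    have h1 : ((Q.mapSurjective hψ : Sylow p (Y ⧸ N)) : Subgroup (Y ⧸ N)) = ⊤ := by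
      have h2 := (Q.mapSurjective hψ).3 (Q := ⊤) (hQ.to_subgroup ⊤) le_top
      exact h2.symm
    rw [Sylow.coe_mapSurjective] at h1
    rw [eq_top_iff]
    intro y _
    have hy : (QuotientGroup.mk' N) y ∈ (Q : Subgroup X).map ψ := by rw [h1]; exact mem_top _
    obtain ⟨q, hq, hqy⟩ := mem_map.mp hy
    have h3 : (q : Y)⁻¹ * y ∈ N := by
      rw [← QuotientGroup.eq]
      exact hqy
    have h4 : y = (q : Y) * ((q : Y)⁻¹ * y) := by group
    rw [h4]
    exact mul_mem_sup (mem_map_of_mem _ hq) h3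
  refine ⟨E2, hE2, hE2N, hE2X, ?_⟩
  -- Sylow p-subgroups of Y
  obtain ⟨F, hF⟩ := hE1.exists_le_sylow
  obtain ⟨F2, hF2⟩ := hE2.exists_le_sylow
  -- F fixes γ
  have hFγ : ∀ f ∈ F, f • γ = γ := by
    obtain ⟨δ, hδ⟩ := F.isPGroup'.nonempty_fixed_point_of_prime_not_dvd_card (α := Ω) hpΩ
    have hδ' : ∀ f ∈ F, f • δ = δ := by
      intro f hf
      exact hδ ⟨f, hf⟩
    have : δ = γ := hγ δ (fun e he => hδ' e (hF he))
    rw [← this]
    exact hδ'
  obtain ⟨y, hy⟩ := MulAction.exists_smul_eq Y F F2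
  have hyF : y ∈ E1 ⊔ N := by rw [hsup]; exact mem_top y
  rw [sup_comm, ← SetLike.mem_coe, normal_mul] at hyF
  obtain ⟨x, hx, f, hf, rfl⟩ := Set.mem_mul.mp hyF
  refine ⟨x, hx, ?_⟩
  intro e he
  have he2 : e ∈ (F2 : Subgroup Y) := hF2 he
  rw [← hy, Sylow.coe_subgroup_smul] at he2
  rw [mem_smul_pointwise_iff_exists] at he2
  obtain ⟨s, hs, rfl⟩ := he2
  have hfF : f ∈ F := hF hf
  have h5 : (MulAut.conj (x * f)) • s = x * (f * s * f⁻¹) * x⁻¹ := by
    simp [MulAut.smul_def, mul_assoc]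
  rw [h5]
  have h6 : (f * s * f⁻¹) • γ = γ := hFγ _ (F.mul_mem (F.mul_mem hfF hs) (F.inv_mem hfF))
  rw [mul_smul, mul_smul, inv_smul_smul, h6]


/-- The step inside `G`. -/
lemma stepG {G Ω : Type*} [Group G] [Finite G] [MulAction G Ω] [Finite Ω] {p r : ℕ}
    [Fact p.Prime] [Fact r.Prime] (hpΩ : ¬ p ∣ Nat.card Ω)
    (N E1 T : Subgroup G) (hTN : T ≤ N) (hT : IsPGroup r T)
    (hE1 : IsPGroup p E1) (hE1N : E1 ≤ normalizer (N : Set G)) (γ : Ω)
    (hγ : ∀ γ' : Ω, (∀ e ∈ E1, e • γ' = γ') → γ' = γ) :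
    ∃ E2 S : Subgroup G, T ≤ S ∧ S ≤ N ∧ IsPGroup r S ∧
      Nat.card S = r ^ (Nat.card N).factorization r ∧ IsPGroup p E2 ∧ E2 ⊔ N = E1 ⊔ N ∧
      E2 ≤ normalizer (S : Set G) ∧ ∃ x ∈ N, ∀ e ∈ E2, e • (x • γ) = x • γ := by
  set Y : Subgroup G := E1 ⊔ N with hY
  have hNY : N ≤ Y := le_sup_right
  have hEY : E1 ≤ Y := le_sup_left
  set N' : Subgroup Y := N.subgroupOf Y with hN'
  set E1' : Subgroup Y := E1.subgroupOf Y with hE1'
  have hnorm : N'.Normal :=
    (normal_subgroupOf_iff_le_normalizer hNY).mpr (sup_le hE1N le_normalizer)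
  have hsup : E1' ⊔ N' = ⊤ := by
    rw [hE1', hN', ← subgroupOf_sup hEY hNY, ← hY, subgroupOf_self]
  have hE1'p : IsPGroup p E1' := hE1.of_equiv (subgroupOfEquivOfLe hEY).symm
  have hγ' : ∀ γ' : Ω, (∀ e ∈ E1', e • γ' = γ') → γ' = γ := by
    intro γ' h
    apply hγ
    intro e he
    exact h ⟨e, hEY he⟩ (by rw [hE1', mem_subgroupOf]; exact he)
  set T'' : Subgroup N' := (T.subgroupOf Y).subgroupOf N' with hT''
  have hTY : T.subgroupOf Y ≤ N' := by
    intro t ht
    rw [hN', mem_subgroupOf]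
    rw [mem_subgroupOf] at ht
    exact hTN ht
  have hT''r : IsPGroup r T'' :=
    (hT.of_equiv (subgroupOfEquivOfLe (hTN.trans hNY)).symm).of_equiv
      (subgroupOfEquivOfLe hTY).symm
  obtain ⟨P, hP⟩ := hT''r.exists_le_sylow
  obtain ⟨E2, hE2p, hE2N, hE2n, x, hx, hfix⟩ :=
    step hpΩ N' E1' hE1'p hsup γ hγ' P
  set S' : Subgroup Y := (P : Subgroup N').map N'.subtype with hS'
  have hcardN : Nat.card N' = Nat.card N := Nat.card_congr (subgroupOfEquivOfLe hNY).toEquiv
  refine ⟨E2.map Y.subtype, S'.map Y.subtype, ?_, ?_, ?_, ?_, hE2p.map _, ?_, ?_, ?_⟩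
  · intro t ht
    have h1 : t ∈ Y := hNY (hTN ht)
    refine mem_map.mpr ⟨⟨t, h1⟩, ?_, rfl⟩
    have h2 : (⟨t, h1⟩ : Y) ∈ N' := hTY (by rw [mem_subgroupOf]; exact ht)
    refine mem_map.mpr ⟨⟨⟨t, h1⟩, h2⟩, ?_, rfl⟩
    apply hP
    rw [hT'', mem_subgroupOf, mem_subgroupOf]
    exact ht
  · rintro _ ⟨s, hs, rfl⟩
    have : s ∈ N' := (map_subtype_le (P : Subgroup N')) hs
    rw [hN', mem_subgroupOf] at this
    exact this
  · exact (P.isPGroup'.map _).map _
  · have h1 : Nat.card (S'.map Y.subtype : Subgroup G) = Nat.card S' :=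
      Nat.card_congr (S'.equivMapOfInjective _ Y.subtype_injective).symm.toEquiv
    have h2 : Nat.card S' = Nat.card P :=
      Nat.card_congr ((P : Subgroup N').equivMapOfInjective _ N'.subtype_injective).symm.toEquiv
    rw [h1, h2, Sylow.card_eq_multiplicity, hcardN]
  · have h1 : (N'.map Y.subtype) = N := by
      rw [hN', subgroupOf_map_subtype, inf_of_le_left hNY]
    calc E2.map Y.subtype ⊔ N = E2.map Y.subtype ⊔ N'.map Y.subtype := by rw [h1]
      _ = (E2 ⊔ N').map Y.subtype := (Subgroup.map_sup _ _ _).symm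
      _ = Y := by rw [hE2N, ← MonoidHom.range_eq_map, range_subtype]
  · exact (map_mono hE2n).trans (le_normalizer_map _)
  · refine ⟨x, ?_, ?_⟩
    · have := hx
      rw [hN', mem_subgroupOf] at this
      exact this
    · rintro _ ⟨e, he, rfl⟩
      exact hfix e he


/-- If every orbit in the target has size divisible by `q`, so has the source of an equivariant
map. -/
lemma dvd_card_of_orbits {H X ι : Type*} [Group H] [MulAction H X] [Finite X]
    (ρ : H →* Equiv.Perm ι) (f : X → ι) (hf : ∀ (h : H) (x : X), f (h • x) = ρ h (f x)) (q : ℕ)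
    (hq : ∀ i : ι, q ∣ (Set.range fun h : H => ρ h i).ncard) : q ∣ Nat.card X := by
  let _ : MulAction H ι := MulAction.compHom ι ρ
  have hsm : ∀ (h : H) (i : ι), h • i = ρ h i := fun h i => rfl
  have : Fintype (orbitRel.Quotient H X) := Fintype.ofFinite _
  rw [Nat.card_congr (MulAction.selfEquivSigmaOrbits' H X), Nat.card_sigma]
  apply Finset.dvd_sum
  intro ω _
  induction ω using Quotient.inductionOn' with
  | h x =>
    have h1 : (orbitRel.Quotient.orbit (Quotient.mk'' x : orbitRel.Quotient H X)) = orbit H x :=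
      orbitRel.Quotient.orbit_mk x
    rw [h1, Nat.card_coe_set_eq, ← index_stabilizer]
    have h2 : q ∣ (stabilizer H (f x)).index := by
      rw [index_stabilizer]
      exact hq (f x)
    refine h2.trans (index_dvd_of_le ?_)
    intro h hh
    rw [mem_stabilizer_iff] at hh ⊢
    rw [hsm, ← hf, hh]

section Main

variable {G Ω ι : Type*} [Group G] [Finite G] [MulAction G Ω] [Finite Ω] [Finite ι]
  (φ : G →* Equiv.Perm ι) (c : Ω → Ω → ι)

include φ c in
/-- Counting in an invariant set. -/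
lemma dvd_ncard_sub_one (hc : ∀ (g : G) (a b : Ω), a ≠ b → c (g • a) (g • b) = φ g (c a b))
    (H : Subgroup G) (a : Ω) (ha : ∀ h ∈ H, h • a = a) (Δ : Set Ω) (haΔ : a ∈ Δ)
    (hΔ : ∀ h ∈ H, ∀ b ∈ Δ, h • b ∈ Δ) (q : ℕ)
    (hq : ∀ i : ι, q ∣ (Set.range fun h : H => φ h i).ncard) : q ∣ Δ.ncard - 1 := by
  let X : SubMulAction H Ω :=
    { carrier := Δ \ {a}
      smul_mem' := by
        rintro ⟨h, hh⟩ b ⟨hb, hba⟩
        refine ⟨hΔ h hh b hb, ?_⟩
        intro h1
        apply hba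
        have h2 : h • b = a := h1
        rw [Set.mem_singleton_iff, ← inv_smul_smul h b, h2, inv_smul_eq_iff, ha h hh] }
  have h1 : Nat.card X = Δ.ncard - 1 := by
    have : Nat.card X = (Δ \ {a}).ncard := Nat.card_coe_set_eq _
    rw [this, Set.ncard_sdiff_singleton_of_mem haΔ]
  rw [← h1]
  refine dvd_card_of_orbits (φ.comp H.subtype) (fun b : X => c a b) ?_ q hq
  rintro ⟨h, hh⟩ ⟨b, hb, hba⟩
  have h2 := hc h a b (fun h => hba h.symm)
  rw [ha h hh] at h2
  exact h2

/-- Orbits of covering `p`-subgroups on the parts. -/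
lemma dvd_orbit_of_cov (htr : ∀ i j, ∃ g, φ g i = j) {p e : ℕ} (hp : p.Prime)
    (hpe : p ^ e ∣ Nat.card ι) (E : Subgroup G) (hE : ¬ p ∣ (E ⊔ φ.ker).index) (i : ι) :
    p ^ e ∣ (Set.range fun h : E => φ h i).ncard := by
  let _ : MulAction G ι := MulAction.compHom ι φ
  have hsm : ∀ (h : G) (i : ι), h • i = φ h i := fun h i => rfl
  have : MulAction.IsPretransitive G ι := ⟨fun x y => htr x y⟩
  set L := E ⊔ φ.ker with hL
  set Gi := stabilizer G i with hGi
  have h1 : Gi.index = Nat.card ι := index_stabilizer_of_transitive G i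
  have h2 : Gi.relIndex L * L.index = (Gi ⊓ L).index := by
    rw [← inf_relIndex_right, relIndex_mul_index inf_le_right]
  have h3 : Gi.index ∣ (Gi ⊓ L).index := index_dvd_of_le inf_le_left
  have h4 : p ^ e ∣ Gi.relIndex L * L.index := by
    rw [h2]
    rw [h1] at h3
    exact hpe.trans h3
  have h5 : p ^ e ∣ Gi.relIndex L := by
    refine Nat.Coprime.dvd_of_dvd_mul_right ?_ h4
    exact Nat.Coprime.pow_left _ ((Nat.Prime.coprime_iff_not_dvd hp).mpr hE)
  have h6 : Gi.relIndex L = (orbit L i).ncard := by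
    rw [← index_stabilizer]
    rfl
  rw [h6] at h5
  have h7 : orbit L i = Set.range fun h : E => φ h i := by
    ext j
    constructor
    · rintro ⟨⟨l, hl⟩, rfl⟩
      rw [hL, ← SetLike.mem_coe, mul_normal] at hl
      obtain ⟨a, ha, b, hb, rfl⟩ := Set.mem_mul.mp hl
      refine ⟨⟨a, ha⟩, ?_⟩
      change φ a i = φ (a * b) i
      have hb' : φ b = 1 := hb
      rw [map_mul, hb', mul_one]
    · rintro ⟨⟨h, hh⟩, rfl⟩
      exact ⟨⟨h, (le_sup_left : E ≤ L) hh⟩, rfl⟩
  rw [h7] at h5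
  exact h5


/-- The size of the intersection of the stabiliser with the kernel. -/
lemma card_inf_stabilizer (hK : ∀ a b : Ω, ∃ g ∈ φ.ker, g • a = b) (γ : Ω) :
    Nat.card (φ.ker ⊓ stabilizer G γ : Subgroup G) * Nat.card Ω = Nat.card φ.ker := by
  have : MulAction.IsPretransitive φ.ker Ω :=
    ⟨fun x y => by obtain ⟨g, hg, h⟩ := hK x y; exact ⟨⟨g, hg⟩, h⟩⟩
  rw [← index_stabilizer_of_transitive φ.ker γ]
  have h1 : Nat.card (φ.ker ⊓ stabilizer G γ : Subgroup G) = Nat.card (stabilizer φ.ker γ) := by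
    apply Nat.card_congr
    refine ⟨fun g => ⟨⟨g.1, g.2.1⟩, g.2.2⟩, fun g => ⟨g.1.1, g.1.2, g.2⟩, fun g => rfl, fun g => rfl⟩
  rw [h1, card_mul_index]

theorem main (hc : ∀ (g : G) (a b : Ω), a ≠ b → c (g • a) (g • b) = φ g (c a b))
    (htr : ∀ i j, ∃ g, φ g i = j) (hK : ∀ a b : Ω, ∃ g ∈ φ.ker, g • a = b)
    (hΩ : Nonempty Ω) (r : ℕ) (hr : r.Prime) :
    Nat.ModEq (Nat.card ι) (r ^ (Nat.card Ω).factorization r) 1 := by
  have hrF : Fact r.Prime := ⟨hr⟩
  have hrpos : 1 ≤ r ^ (Nat.card Ω).factorization r := Nat.one_le_pow _ _ hr.pos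
  refine Nat.ModEq.symm ((Nat.modEq_iff_dvd' hrpos).mpr ?_)
  rw [Nat.dvd_iff_prime_pow_dvd_dvd]
  intro p e hp hpe
  rcases Nat.eq_zero_or_pos e with he | he
  · subst he; simp
  have hpF : Fact p.Prime := ⟨hp⟩
  have hpk : p ∣ Nat.card ι := (dvd_pow_self p he.ne').trans hpe
  -- `n = 1` modulo `k`
  obtain ⟨a0⟩ := hΩ
  have hnk : Nat.card ι ∣ Nat.card Ω - 1 := by
    have h1 := dvd_ncard_sub_one φ c hc (stabilizer G a0) a0 (fun h hh => hh) Set.univ
      (Set.mem_univ _) (fun _ _ _ _ => Set.mem_univ _) (Nat.card ι) ?_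
    · rwa [Set.ncard_univ] at h1
    · intro i
      have h2 : (Set.range fun h : stabilizer G a0 => φ h i) = Set.univ := by
        rw [Set.eq_univ_iff_forall]
        intro j
        obtain ⟨g, hg⟩ := htr i j
        obtain ⟨x, hx, hxa⟩ := hK (g • a0) a0
        refine ⟨⟨x * g, ?_⟩, ?_⟩
        · rw [mem_stabilizer_iff, mul_smul, hxa]
        · change φ (x * g) i = j
          have hx' : φ x = 1 := hx
          rw [map_mul, hx', one_mul, hg]
      rw [h2, Set.ncard_univ]
  have hn1 : 1 ≤ Nat.card Ω := Nat.card_pos_iff.mpr ⟨⟨a0⟩, inferInstance⟩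
  have hpn : ¬ p ∣ Nat.card Ω := by
    intro h
    have h1 : p ∣ Nat.card Ω - 1 := hpk.trans hnk
    have h2 : p ∣ 1 := by
      have := Nat.dvd_sub h h1
      rwa [Nat.sub_sub_self hn1] at this
    exact hp.one_lt.ne' (Nat.dvd_one.mp h2)
  -- uniqueness of fixed points of covering subgroups
  have huniq : ∀ E : Subgroup G, ¬ p ∣ (E ⊔ φ.ker).index → ∀ a b : Ω, (∀ e ∈ E, e • a = a) →
      (∀ e ∈ E, e • b = b) → a = b := by
    intro E hE a b ha hb
    by_contra hab
    have h1 := dvd_orbit_of_cov φ htr hp (e := 1) (by rwa [pow_one]) E hE (c a b)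
    have h2 : (Set.range fun h : E => φ h (c a b)) = {c a b} := by
      ext j
      rw [Set.mem_singleton_iff]
      constructor
      · rintro ⟨⟨h, hh⟩, rfl⟩
        change φ h (c a b) = c a b
        rw [← hc h a b hab, ha h hh, hb h hh]
      · rintro rfl
        exact ⟨1, by simp⟩
    rw [h2, Set.ncard_singleton, pow_one] at h1
    exact hp.one_lt.ne' (Nat.dvd_one.mp h1)
  have hcovmono : ∀ E F : Subgroup G, E ⊔ φ.ker ≤ F ⊔ φ.ker → ¬ p ∣ (E ⊔ φ.ker).index →
      ¬ p ∣ (F ⊔ φ.ker).index := by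
    intro E F hEF hE hF
    exact hE (hF.trans (index_dvd_of_le hEF))
  set K := φ.ker with hKdef
  set t := (Nat.card K / Nat.card Ω).factorization r with ht
  have hκ : ∀ γ : Ω, (Nat.card (K ⊓ stabilizer G γ : Subgroup G)).factorization r = t := by
    intro γ
    rw [ht, ← card_inf_stabilizer φ hK γ, Nat.mul_div_cancel _ hn1]
  -- the good triples
  let Good : Subgroup G → Prop := fun S => S ≤ K ∧ IsPGroup r S ∧ ∃ (E : Subgroup G) (γ : Ω),
    IsPGroup p E ∧ ¬ p ∣ (E ⊔ K).index ∧ E ≤ normalizer (S : Set G) ∧ (∀ e ∈ E, e • γ = γ) ∧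
    Nat.card (S ⊓ stabilizer G γ : Subgroup G) = r ^ t
  have hgood0 : ∃ S, Good S := by
    let F : Sylow p G := Classical.arbitrary _
    have hFcov : ¬ p ∣ ((F : Subgroup G) ⊔ K).index := by
      intro h
      exact F.not_dvd_index (h.trans (index_dvd_of_le le_sup_left))
    obtain ⟨γ, hγ⟩ := F.isPGroup'.nonempty_fixed_point_of_prime_not_dvd_card (α := Ω) hpn
    have hγ' : ∀ f ∈ (F : Subgroup G), f • γ = γ := fun f hf => hγ ⟨f, hf⟩
    have hFn : (F : Subgroup G) ≤ normalizer ((K ⊓ stabilizer G γ : Subgroup G) : Set G) := by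
      intro f hf
      have h1 : f ∈ normalizer (K : Set G) := by
        rw [normalizer_eq_top]
        exact mem_top f
      have h2 : f ∈ normalizer ((stabilizer G γ : Subgroup G) : Set G) :=
        le_normalizer (hγ' f hf)
      exact inf_normalizer_le_normalizer_inf ⟨h1, h2⟩
    obtain ⟨E2, S, -, hSN, hSr, hScard, hE2p, hE2N, hE2n, x, hx, hfix⟩ :=
      stepG (r := r) hpn (K ⊓ stabilizer G γ) (F : Subgroup G) ⊥ bot_le IsPGroup.of_bot
        F.isPGroup' hFn γ (fun γ' h => huniq _ hFcov γ' γ h hγ')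
    have hxγ : x • γ = γ := hx.2
    refine ⟨S, hSN.trans inf_le_left, hSr, E2, γ, hE2p, ?_, hE2n, ?_, ?_⟩
    · apply hcovmono (F : Subgroup G) E2 _ hFcov
      have h1 : (F : Subgroup G) ≤ E2 ⊔ (K ⊓ stabilizer G γ) := by
        rw [hE2N]; exact le_sup_left
      exact sup_le (h1.trans (sup_le_sup_left inf_le_left _)) le_sup_right
    · intro e he
      have := hfix e he
      rwa [hxγ] at this
    · rw [inf_of_le_left (hSN.trans inf_le_right), hScard, hκ]
  obtain ⟨S, ⟨hSK, hSr, E, γ, hEp, hEcov, hES, hEγ, hSt⟩, hmax⟩ :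
      ∃ S, Good S ∧ ∀ S', Good S' → Nat.card S' ≤ Nat.card S := by
    obtain ⟨S, hS, hS'⟩ := Set.exists_max_image {S | Good S} (fun S => Nat.card S)
      (Set.toFinite _) hgood0
    exact ⟨S, hS, hS'⟩
  obtain ⟨s, hs⟩ := IsPGroup.iff_card.mp hSr
  have hcardK : Nat.card K ≠ 0 := Nat.card_pos.ne'
  have hsK : s ≤ (Nat.card K).factorization r := by
    rw [← hr.pow_dvd_iff_le_factorization hcardK, ← hs]
    exact card_dvd_of_le hSK
  -- maximality gives a Sylow subgroup
  have hsK' : s = (Nat.card K).factorization r := by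
    by_contra hne
    have hlt : s + 1 ≤ (Nat.card K).factorization r := lt_of_le_of_ne hsK hne
    have hdvd : r ^ (s + 1) ∣ Nat.card K := (hr.pow_dvd_iff_le_factorization hcardK).mpr hlt
    set N : Subgroup G := normalizer (S : Set G) ⊓ K with hN
    have hcN : r ^ (s + 1) ∣ Nat.card N := by
      have h1 : Nat.card (S.subgroupOf K) = r ^ s := by
        rw [Nat.card_congr (subgroupOfEquivOfLe hSK).toEquiv, hs]
      have h2 := Sylow.prime_pow_dvd_card_normalizer hdvd h1
      rw [← subgroupOf_normalizer_eq hSK] at h2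
      have h3 : Nat.card ((normalizer (S : Set G)).subgroupOf K) = Nat.card N := by
        rw [hN, ← subgroupOf_map_subtype]
        exact Nat.card_congr
          (((normalizer (S : Set G)).subgroupOf K).equivMapOfInjective _
            K.subtype_injective).toEquiv
      rwa [h3] at h2
    have hSN : S ≤ N := le_inf le_normalizer hSK
    have hEN : E ≤ normalizer (N : Set G) := by
      intro f hf
      have h1 : f ∈ normalizer (K : Set G) := by
        rw [normalizer_eq_top]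
        exact mem_top f
      have h2 : f ∈ normalizer ((normalizer (S : Set G) : Subgroup G) : Set G) :=
        le_normalizer (hES hf)
      exact inf_normalizer_le_normalizer_inf ⟨h2, h1⟩
    obtain ⟨E2, S2, hSS2, hS2N, hS2r, hS2card, hE2p, hE2N, hE2n, x, hx, hfix⟩ :=
      stepG (r := r) hpn N E S hSN hSr hEp hEN γ (fun γ' h => huniq _ hEcov γ' γ h hEγ)
    have hgood2 : Good S2 := by
      refine ⟨hS2N.trans inf_le_right, hS2r, E2, x • γ, hE2p, ?_, hE2n, hfix, ?_⟩
      · apply hcovmono E E2 _ hEcov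
        have h1 : E ≤ E2 ⊔ N := by
          rw [hE2N]; exact le_sup_left
        exact sup_le (h1.trans (sup_le_sup_left inf_le_right _)) le_sup_right
      · apply le_antisymm
        · have h1 : IsPGroup r (S2 ⊓ stabilizer G (x • γ) : Subgroup G) :=
            hS2r.to_le inf_le_left
          obtain ⟨j, hj⟩ := IsPGroup.iff_card.mp h1
          rw [hj]
          apply Nat.pow_le_pow_right hr.pos
          rw [← hκ (x • γ), ← hr.pow_dvd_iff_le_factorization Nat.card_pos.ne', ← hj]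
          exact card_dvd_of_le (inf_le_inf_right _ (hS2N.trans inf_le_right))
        · rw [← hSt]
          apply Nat.card_le_card_of_injective
            (fun g : (S ⊓ stabilizer G γ : Subgroup G) =>
              (⟨x * g * x⁻¹, by
                obtain ⟨g, hg1, hg2⟩ := g
                refine ⟨hSS2 ((mem_normalizer_iff.mp hx.1 g).mp hg1), ?_⟩
                have hg2' : g • γ = γ := hg2
                change (x * g * x⁻¹) • x • γ = x • γ
                rw [mul_smul, inv_smul_smul, mul_smul, hg2']⟩ :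
                (S2 ⊓ stabilizer G (x • γ) : Subgroup G)))
          intro g g' hgg'
          have := congrArg Subtype.val hgg'
          simpa using this
    have h1 := hmax S2 hgood2
    rw [hs, hS2card] at h1
    have h2 : s + 1 ≤ (Nat.card N).factorization r :=
      (hr.pow_dvd_iff_le_factorization Nat.card_pos.ne').mp hcN
    have h3 := (Nat.pow_le_pow_iff_right hr.one_lt).mp h1
    omega
  -- the orbit
  have hΔ : (orbit S γ).ncard = r ^ (Nat.card Ω).factorization r := by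
    rw [← index_stabilizer]
    have h1 := card_mul_index (stabilizer S γ)
    have h2 : Nat.card (stabilizer S γ) = Nat.card (S ⊓ stabilizer G γ : Subgroup G) := by
      apply Nat.card_congr
      refine ⟨fun g => ⟨g.1.1, g.1.2, g.2⟩, fun g => ⟨⟨g.1, g.2.1⟩, g.2.2⟩, fun g => rfl, fun g => rfl⟩
    rw [h2, hSt, hs, hsK'] at h1
    have h3 : (Nat.card K).factorization r = t + (Nat.card Ω).factorization r := by
      rw [← hκ γ, ← card_inf_stabilizer φ hK γ, Nat.factorization_mul Nat.card_pos.ne' (by omega)]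
      rfl
    rw [h3, pow_add] at h1
    exact Nat.eq_of_mul_eq_mul_left (pow_pos hr.pos t) h1
  have hfinal := dvd_ncard_sub_one φ c hc E γ hEγ (orbit S γ) (mem_orbit_self γ) ?_ (p ^ e)
    (fun i => dvd_orbit_of_cov φ htr hp hpe E hEcov i)
  · rwa [hΔ] at hfinal
  · rintro f hf _ ⟨⟨g, hg⟩, rfl⟩
    refine ⟨⟨f * g * f⁻¹, (mem_normalizer_iff.mp (hES hf) g).mp hg⟩, ?_⟩
    change (f * g * f⁻¹) • γ = f • g • γ
    rw [mul_smul, mul_smul]
    have : f⁻¹ • γ = γ := by rw [inv_smul_eq_iff, hEγ f hf]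
    rw [this]

end Main


/-- The negation of the preceding statement: There exist M < G acting on n points with M transitive, and a partition of ordered distinct pairs into k ≥ 2 classes, G-invariant, G-transitive, each fixed by M, with G inducing a non-cyclic group on the classes and some prime part of n not ≡ 1 mod k. -/
theorem result :
    ¬ (∃ (n k : ℕ) (M G : Subgroup (Equiv.Perm (Fin n))) (c : Fin n → Fin n → Fin k),
    2 ≤ k ∧ M < G ∧
    (∀ a b : Fin n, ∃ m ∈ M, m a = b) ∧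
    (∀ i : Fin k, ∃ a b : Fin n, a ≠ b ∧ c a b = i) ∧
    (∀ g ∈ G, ∃ σ : Equiv.Perm (Fin k),
      ∀ a b : Fin n, a ≠ b → c (g a) (g b) = σ (c a b)) ∧
    (∀ i j : Fin k, ∃ g ∈ G,
      ∀ a b : Fin n, a ≠ b → c a b = i → c (g a) (g b) = j) ∧
    (∀ m ∈ M, ∀ a b : Fin n, a ≠ b → c (m a) (m b) = c a b) ∧
    (¬ ∃ τ : Equiv.Perm (Fin k), ∀ g ∈ G, ∃ z : ℤ,
      ∀ a b : Fin n, a ≠ b → c (g a) (g b) = (τ ^ z) (c a b)) ∧
    (∃ r : ℕ, r.Prime ∧ r ∣ n ∧ ¬ Nat.ModEq k (r ^ (n.factorization r)) 1)) := by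
  rintro ⟨n, k, M, G, c, -, hMG, hM, hsurj, hσ, htr, hMc, -, r, hr, hrn, hnot⟩
  apply hnot
  choose! σ hσ' using hσ
  have hdet : ∀ g ∈ G, ∀ τ : Equiv.Perm (Fin k),
      (∀ a b : Fin n, a ≠ b → c (g a) (g b) = τ (c a b)) → τ = σ g := by
    intro g hg τ hτ
    ext i
    obtain ⟨a, b, hab, rfl⟩ := hsurj i
    rw [← hτ a b hab, hσ' g hg a b hab]
  let φ : G →* Equiv.Perm (Fin k) :=
    { toFun := fun g => σ g
      map_one' := by
        refine (hdet 1 G.one_mem 1 ?_).symm
        intro a b _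
        rfl
      map_mul' := by
        rintro ⟨g, hg⟩ ⟨h, hh⟩
        refine (hdet (g * h) (G.mul_mem hg hh) (σ g * σ h) ?_).symm
        intro a b hab
        rw [Equiv.Perm.mul_apply, Equiv.Perm.mul_apply, Equiv.Perm.mul_apply,
          hσ' g hg _ _ (fun h1 => hab (h.injective h1)), hσ' h hh a b hab] }
  have hφ : ∀ g : G, φ g = σ g := fun g => rfl
  have hn : 0 < n := by
    rcases Nat.eq_zero_or_pos n with h | h
    · subst h
      exfalso
      apply hMG.ne
      ext g
      have : ∀ g : Equiv.Perm (Fin 0), g = 1 := fun g => Subsingleton.elim _ _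
      rw [this g]
      exact ⟨fun _ => G.one_mem, fun _ => M.one_mem⟩
    · exact h
  have h1 := main (G := G) (Ω := Fin n) φ c
    (by
      rintro ⟨g, hg⟩ a b hab
      exact hσ' g hg a b hab)
    (by
      intro i j
      obtain ⟨g, hg, hgi⟩ := htr i j
      refine ⟨⟨g, hg⟩, ?_⟩
      obtain ⟨a, b, hab, rfl⟩ := hsurj i
      rw [hφ, ← hσ' g hg a b hab]
      exact hgi a b hab rfl)
    (by
      intro a b
      obtain ⟨m, hm, hmab⟩ := hM a b
      refine ⟨⟨m, hMG.le hm⟩, ?_, hmab⟩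
      rw [MonoidHom.mem_ker, hφ]
      refine (hdet m (hMG.le hm) 1 ?_).symm
      intro a b hab
      exact hMc m hm a b hab)
    ⟨⟨0, hn⟩⟩ r hr
  rwa [Nat.card_eq_fintype_card, Nat.card_eq_fintype_card, Fintype.card_fin, Fintype.card_fin] at h1

end Pool.Agent.S00960
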