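import Pool.Statements.S00975
import Pool.Agent.Helper9.Hopf.Final

set_option autoImplicit false
open Pool Pool.MP_258808_al

namespace Pool.Agent.S00975

/-- For every finite n > 1, if F is a free lattice-ordered group on n generators (given by its universal property), then every surjective lattice-group homomorphism from F to itself is injective. -/
theorem result :
    ∀ n : ℕ, 1 < n →
      ∀ (F : Type) [Group F] [Lattice F] [MulLeftMono F] [MulRightMono F] (x : Fin n → F),
        (∀ (G : Type) [Group G] [Lattice G] [MulLeftMono G] [MulRightMono G] (g : Fin n → G),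
          ∃! φ : F →* G, (∀ a b : F, φ (a ⊔ b) = φ a ⊔ φ b) ∧
            (∀ a b : F, φ (a ⊓ b) = φ a ⊓ φ b) ∧ ∀ i, φ (x i) = g i) →
        ∀ ψ : F →* F, (∀ a b : F, ψ (a ⊔ b) = ψ a ⊔ ψ b) →
          (∀ a b : F, ψ (a ⊓ b) = ψ a ⊓ ψ b) →
          Function.Surjective ψ → Function.Injective ψ := by
  intro n hn F _ _ _ _ x hF ψ hsup hinf hsurj
  exact Pool.Agent.Helper9.Hopf.hopfian_of_isFreeL hn hF ψ hsup hinf hsurj

end Pool.Agent.S00975
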