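import Pool.Statements.S01406

set_option autoImplicit false
open Pool Pool.MP_4d7bfe_al

namespace Pool.Agent.S01406

section Core

lemma perm_apply_inv_self {α : Type*} (f : Equiv.Perm α) (x : α) : f (f⁻¹ x) = x :=
  Equiv.apply_symm_apply f x

lemma perm_inv_apply_self {α : Type*} (f : Equiv.Perm α) (x : α) : f⁻¹ (f x) = x :=
  Equiv.symm_apply_apply f x

variable {G : Type*} [Group G]

/-- Automorphisms of the Cayley graph of `(G,S)`, as a subgroup of `Equiv.Perm G`. -/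
def cayAut (S : Set G) : Subgroup (Equiv.Perm G) where
  carrier := {f | ∀ x y : G, x⁻¹ * y ∈ S ↔ (f x)⁻¹ * f y ∈ S}
  mul_mem' := by
    intro f g hf hg x y
    rw [Equiv.Perm.mul_apply, Equiv.Perm.mul_apply, hg x y, hf (g x) (g y)]
  one_mem' := by
    intro x y
    simp
  inv_mem' := by
    intro f hf x y
    have h := hf (f⁻¹ x) (f⁻¹ y)
    simp only [perm_apply_inv_self] at h
    exact h.symm

lemma mem_cayAut {S : Set G} {f : Equiv.Perm G} :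
    f ∈ cayAut S ↔ ∀ x y : G, x⁻¹ * y ∈ S ↔ (f x)⁻¹ * f y ∈ S := Iff.rfl

lemma mulLeft_mem (S : Set G) (g : G) : Equiv.mulLeft g ∈ cayAut S := by
  intro x y
  simp only [Equiv.coe_mulLeft]
  have : (g * x)⁻¹ * (g * y) = x⁻¹ * y := by group
  rw [this]

/-- Local finiteness: the orbit of a point under the stabiliser of `1` is finite. -/
lemma orbit_finite {S : Set G} (hfin : S.Finite) (hsymm : ∀ x ∈ S, x⁻¹ ∈ S)
    (hgen : Subgroup.closure S = ⊤) (y : G) :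
    {z : G | ∃ f ∈ cayAut S, f 1 = 1 ∧ f y = z}.Finite := by
  have hy : y ∈ Subgroup.closure S := by rw [hgen]; trivial
  induction hy using Subgroup.closure_induction_right with
  | one =>
    refine (Set.finite_singleton (1 : G)).subset ?_
    rintro z ⟨f, -, h1, hz⟩
    rw [Set.mem_singleton_iff, ← hz, h1]
  | mul_right x hx s hs ih =>
    refine (Set.Finite.image2 (fun a b => a * b) ih hfin).subset ?_
    rintro z ⟨f, hf, h1, hz⟩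
    refine ⟨f x, ⟨f, hf, h1, rfl⟩, (f x)⁻¹ * f (x * s), ?_, ?_⟩
    · rw [← hf x (x * s)]
      simpa using hs
    · simp [hz]
  | mul_inv_cancel x hx s hs ih =>
    refine (Set.Finite.image2 (fun a b => a * b) ih hfin).subset ?_
    rintro z ⟨f, hf, h1, hz⟩
    refine ⟨f x, ⟨f, hf, h1, rfl⟩, (f x)⁻¹ * f (x * s⁻¹), ?_, ?_⟩
    · rw [← hf x (x * s⁻¹)]
      simpa using hsymm s hs
    · simp [hz]

/-- `K(a,b)`: automorphisms fixing `τ^j 1` for all `a ≤ j ≤ b`. -/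
def seg (S : Set G) (τ : Equiv.Perm G) (a b : ℤ) : Subgroup (Equiv.Perm G) where
  carrier := {f | f ∈ cayAut S ∧ ∀ j : ℤ, a ≤ j → j ≤ b → f ((τ ^ j) 1) = (τ ^ j) 1}
  mul_mem' := by
    rintro f g ⟨hf, hf'⟩ ⟨hg, hg'⟩
    refine ⟨mul_mem hf hg, fun j h1 h2 => ?_⟩
    rw [Equiv.Perm.mul_apply, hg' j h1 h2, hf' j h1 h2]
  one_mem' := ⟨one_mem _, fun j _ _ => rfl⟩
  inv_mem' := by
    rintro f ⟨hf, hf'⟩
    refine ⟨inv_mem hf, fun j h1 h2 => ?_⟩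
    rw [Equiv.Perm.inv_eq_iff_eq, hf' j h1 h2]

lemma mem_seg {S : Set G} {τ f : Equiv.Perm G} {a b : ℤ} :
    f ∈ seg S τ a b ↔ f ∈ cayAut S ∧ ∀ j : ℤ, a ≤ j → j ≤ b → f ((τ ^ j) 1) = (τ ^ j) 1 := Iff.rfl

lemma seg_mono {S : Set G} {τ : Equiv.Perm G} {a b c d : ℤ} (h1 : a ≤ c) (h2 : d ≤ b) :
    seg S τ a b ≤ seg S τ c d := by
  rintro f ⟨hf, hf'⟩
  exact ⟨hf, fun j h3 h4 => hf' j (h1.trans h3) (h4.trans h2)⟩

lemma seg_conj {S : Set G} {τ : Equiv.Perm G} (hτ : τ ∈ cayAut S) {a b : ℤ} (s : ℤ)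
    {f : Equiv.Perm G} (hf : f ∈ seg S τ a b) :
    τ ^ s * f * (τ ^ s)⁻¹ ∈ seg S τ (a + s) (b + s) := by
  obtain ⟨hf, hf'⟩ := hf
  have hs : τ ^ s ∈ cayAut S := zpow_mem hτ s
  refine ⟨mul_mem (mul_mem hs hf) (inv_mem hs), fun j h1 h2 => ?_⟩
  have h := hf' (j - s) (by linarith) (by linarith)
  have e1 : ((τ ^ s)⁻¹) ((τ ^ j) 1) = (τ ^ (j - s)) 1 := by
    rw [← Equiv.Perm.mul_apply, ← zpow_neg, ← zpow_add]
    congr 2
    ring
  have e2 : (τ ^ s) ((τ ^ (j - s)) 1) = (τ ^ j) 1 := by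
    rw [← Equiv.Perm.mul_apply, ← zpow_add]
    congr 2
    ring
  rw [Equiv.Perm.mul_apply, Equiv.Perm.mul_apply, e1, h, e2]

/-- The orbits `K(-n,0) τ 1`. -/
def orb (S : Set G) (τ : Equiv.Perm G) (n : ℕ) : Set G :=
  {z | ∃ f ∈ seg S τ (-(n : ℤ)) 0, f (τ 1) = z}

lemma orb_anti {S : Set G} {τ : Equiv.Perm G} {m n : ℕ} (h : m ≤ n) :
    orb S τ n ⊆ orb S τ m := by
  rintro z ⟨f, hf, hz⟩
  exact ⟨f, seg_mono (by simpa using h) le_rfl hf, hz⟩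

lemma orb_finite {S : Set G} (hfin : S.Finite) (hsymm : ∀ x ∈ S, x⁻¹ ∈ S)
    (hgen : Subgroup.closure S = ⊤) (τ : Equiv.Perm G) (n : ℕ) : (orb S τ n).Finite := by
  refine (orbit_finite hfin hsymm hgen (τ 1)).subset ?_
  rintro z ⟨f, ⟨hf, hf'⟩, hz⟩
  refine ⟨f, hf, ?_, hz⟩
  simpa using hf' 0 (by simp) le_rfl

lemma orb_stable {S : Set G} (hfin : S.Finite) (hsymm : ∀ x ∈ S, x⁻¹ ∈ S)
    (hgen : Subgroup.closure S = ⊤) (τ : Equiv.Perm G) :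
    ∃ n₀ : ℕ, ∀ n, n₀ ≤ n → orb S τ n = orb S τ n₀ := by
  classical
  obtain ⟨n₀, hn₀⟩ : ∃ n₀ : ℕ, ∀ n, (orb S τ n₀).ncard ≤ (orb S τ n).ncard :=
    ⟨Function.argmin (fun n => (orb S τ n).ncard),
      fun n => Function.argmin_le (fun n => (orb S τ n).ncard) n⟩
  refine ⟨n₀, fun n hn => ?_⟩
  exact Set.eq_of_subset_of_ncard_le (orb_anti hn) (hn₀ n) (orb_finite hfin hsymm hgen τ n₀)

lemma tidy_step {S : Set G} {τ : Equiv.Perm G} (hτ : τ ∈ cayAut S) {n₀ : ℕ}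
    (hst : ∀ n, n₀ ≤ n → orb S τ n = orb S τ n₀) (m n : ℕ) (hn : n₀ ≤ n)
    {v : Equiv.Perm G} (hv : v ∈ seg S τ 0 n) :
    ∃ a ∈ seg S τ (-(m : ℤ)) n, a⁻¹ * v ∈ seg S τ 0 ((n + 1 : ℕ) : ℤ) := by
  have hw : τ ^ (-(n : ℤ)) * v * (τ ^ (-(n : ℤ)))⁻¹ ∈ seg S τ (-(n : ℤ)) 0 := by
    have := seg_conj hτ (-(n : ℤ)) hv
    simpa using this
  have hmem : (τ ^ (-(n : ℤ)) * v * (τ ^ (-(n : ℤ)))⁻¹) (τ 1) ∈ orb S τ (m + n) := by
    rw [hst (m + n) (by omega), ← hst n hn]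
    exact ⟨_, hw, rfl⟩
  obtain ⟨w', hw', hw'eq⟩ := hmem
  have ha : τ ^ (n : ℤ) * w' * (τ ^ (n : ℤ))⁻¹ ∈ seg S τ (-(m : ℤ)) n := by
    have := seg_conj hτ (n : ℤ) hw'
    have e : (-((m + n : ℕ) : ℤ) + n) = -(m : ℤ) := by push_cast; ring
    rw [e, zero_add] at this
    exact this
  refine ⟨_, ha, ?_⟩
  set a := τ ^ (n : ℤ) * w' * (τ ^ (n : ℤ))⁻¹ with ha_def
  have ha0 : a ∈ seg S τ 0 n := seg_mono (by simp) le_rfl ha
  have hav : a⁻¹ * v ∈ seg S τ 0 n := mul_mem (inv_mem ha0) hv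
  refine ⟨hav.1, fun j h1 h2 => ?_⟩
  rcases lt_or_eq_of_le h2 with h3 | h3
  · exact hav.2 j h1 (by push_cast at h3; omega)
  · have key : a ((τ ^ j) 1) = v ((τ ^ j) 1) := by
      have hj : j = (n : ℤ) + 1 := by rw [h3]; push_cast; ring
      have e1 : (τ ^ j) 1 = (τ ^ (n : ℤ)) (τ 1) := by
        rw [hj, zpow_add_one, Equiv.Perm.mul_apply]
      rw [e1, ha_def]
      have e2 : ((τ ^ (n : ℤ))⁻¹) ((τ ^ (n : ℤ)) (τ 1)) = τ 1 := by
        rw [perm_inv_apply_self]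
      rw [Equiv.Perm.mul_apply, Equiv.Perm.mul_apply, e2, hw'eq, Equiv.Perm.mul_apply,
        Equiv.Perm.mul_apply, zpow_neg, inv_inv, perm_apply_inv_self]
    rw [Equiv.Perm.mul_apply, Equiv.Perm.inv_eq_iff_eq, key]

lemma tidy {S : Set G} {τ : Equiv.Perm G} (hτ : τ ∈ cayAut S) {n₀ : ℕ}
    (hst : ∀ n, n₀ ≤ n → orb S τ n = orb S τ n₀) (m m' : ℕ)
    {v : Equiv.Perm G} (hv : v ∈ seg S τ 0 n₀) :
    ∃ a ∈ seg S τ (-(m : ℤ)) n₀, a⁻¹ * v ∈ seg S τ 0 ((n₀ + m' : ℕ) : ℤ) := by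
  induction m' with
  | zero => exact ⟨1, one_mem _, by simpa using hv⟩
  | succ k ih =>
    obtain ⟨a, ha, hav⟩ := ih
    obtain ⟨b, hb, hbv⟩ := tidy_step hτ hst m (n₀ + k) (by omega) hav
    refine ⟨a * b, mul_mem ha (seg_mono le_rfl (by push_cast; omega) hb), ?_⟩
    rw [mul_inv_rev, mul_assoc]
    exact hbv

lemma tidy_mul {S : Set G} {τ : Equiv.Perm G} (hτ : τ ∈ cayAut S) {n₀ : ℕ}
    (hst : ∀ n, n₀ ≤ n → orb S τ n = orb S τ n₀) (s t : ℕ)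
    {v : Equiv.Perm G} (hv : v ∈ seg S τ 0 n₀) :
    ∃ v₁ ∈ seg S τ 0 n₀, ∃ v₂ ∈ seg S τ 0 n₀, τ ^ s * v * τ ^ t = v₁ * τ ^ (s + t) * v₂ := by
  obtain ⟨a, ha, hb⟩ := tidy hτ hst s t hv
  refine ⟨τ ^ (s : ℤ) * a * (τ ^ (s : ℤ))⁻¹, ?_,
    τ ^ (-(t : ℤ)) * (a⁻¹ * v) * (τ ^ (-(t : ℤ)))⁻¹, ?_, ?_⟩
  · refine seg_mono ?_ ?_ (seg_conj hτ (s : ℤ) ha)
    · simp
    · omega
  · refine seg_mono ?_ ?_ (seg_conj hτ (-(t : ℤ)) hb)
    · omega
    · push_cast; omega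
  · simp only [zpow_neg, zpow_natCast, pow_add]
    group

lemma tidy_pow {S : Set G} {τ : Equiv.Perm G} (hτ : τ ∈ cayAut S) {n₀ : ℕ}
    (hst : ∀ n, n₀ ≤ n → orb S τ n = orb S τ n₀) (N : ℕ)
    {v : Equiv.Perm G} (hv : v ∈ seg S τ 0 n₀) (k : ℕ) :
    ∃ v₁ ∈ seg S τ 0 n₀, ∃ v₂ ∈ seg S τ 0 n₀, (v * τ ^ N) ^ k = v₁ * τ ^ (N * k) * v₂ := by
  induction k with
  | zero => exact ⟨1, one_mem _, 1, one_mem _, by simp⟩
  | succ k ih =>
    obtain ⟨v₁, h1, v₂, h2, h⟩ := ih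
    obtain ⟨u₁, g1, u₂, g2, g⟩ := tidy_mul hτ hst (N * k) N (mul_mem h2 hv)
    refine ⟨v₁ * u₁, mul_mem h1 g1, u₂, g2, ?_⟩
    rw [pow_succ, h]
    have : v₁ * τ ^ (N * k) * v₂ * (v * τ ^ N) = v₁ * (τ ^ (N * k) * (v₂ * v) * τ ^ N) := by group
    rw [this, g, Nat.mul_succ]
    group

/-- Every automorphism of a locally finite Cayley graph of a periodic group has a positive power
fixing the identity vertex. -/
theorem exists_pow_fix {S : Set G} (hfin : S.Finite) (hsymm : ∀ x ∈ S, x⁻¹ ∈ S)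
    (hgen : Subgroup.closure S = ⊤) (htor : Monoid.IsTorsion G) {τ : Equiv.Perm G}
    (hτ : τ ∈ cayAut S) : ∃ k : ℕ, 0 < k ∧ (τ ^ k) 1 = 1 := by
  classical
  obtain ⟨n₀, hst⟩ := orb_stable hfin hsymm hgen τ
  -- the elements `g m` and `k m`
  let g : ℕ → G := fun m => ((τ ^ m)⁻¹ 1)⁻¹
  let κ : ℕ → Equiv.Perm G := fun m => τ ^ m * (Equiv.mulLeft (g m))⁻¹
  have hκ_mem : ∀ m, κ m ∈ cayAut S := fun m =>
    mul_mem (pow_mem hτ m) (inv_mem (mulLeft_mem S (g m)))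
  have hκ_one : ∀ m, κ m 1 = 1 := by
    intro m
    have : (Equiv.mulLeft (g m))⁻¹ 1 = (τ ^ m)⁻¹ 1 := by
      rw [Equiv.Perm.inv_eq_iff_eq]
      simp [g]
    change (τ ^ m) ((Equiv.mulLeft (g m))⁻¹ 1) = 1
    rw [this, perm_apply_inv_self]
  -- pigeonhole
  let F : ℕ → (Fin (n₀ + 1) → G) := fun m j => (κ m)⁻¹ ((τ ^ (j : ℕ)) 1)
  have hrange : (Set.range F).Finite := by
    refine (Set.Finite.pi' (fun j : Fin (n₀ + 1) =>
      orbit_finite hfin hsymm hgen ((τ ^ (j : ℕ)) 1))).subset ?_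
    rintro _ ⟨m, rfl⟩ j
    refine ⟨(κ m)⁻¹, inv_mem (hκ_mem m), ?_, rfl⟩
    rw [Equiv.Perm.inv_eq_iff_eq, hκ_one]
  have hnotinj : ¬ Function.Injective F := fun hinj =>
    Set.infinite_range_of_injective hinj hrange
  obtain ⟨m, m', hlt, hFeq⟩ : ∃ m m' : ℕ, m' < m ∧ F m = F m' := by
    rw [Function.Injective] at hnotinj
    push Not at hnotinj
    obtain ⟨p, q, hpq, hne⟩ := hnotinj
    rcases lt_or_gt_of_ne hne with h | h
    · exact ⟨q, p, h, hpq.symm⟩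
    · exact ⟨p, q, h, hpq⟩
  set v := κ m' * (κ m)⁻¹ with hv_def
  have hv : v ∈ seg S τ 0 n₀ := by
    refine ⟨mul_mem (hκ_mem m') (inv_mem (hκ_mem m)), fun j h1 h2 => ?_⟩
    obtain ⟨i, rfl⟩ := Int.eq_ofNat_of_zero_le h1
    have hi : i < n₀ + 1 := by omega
    have := congrFun hFeq ⟨i, hi⟩
    simp only [F] at this
    rw [hv_def, Equiv.Perm.mul_apply]
    change κ m' ((κ m)⁻¹ ((τ ^ (i : ℤ)) 1)) = (τ ^ (i : ℤ)) 1
    rw [zpow_natCast, this, perm_apply_inv_self]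
  obtain ⟨N, hN⟩ : ∃ N : ℕ, m = N + m' := ⟨m - m', by omega⟩
  have hNpos : 0 < N := by omega
  -- `v * τ ^ N` is conjugate to a left translation
  have hconj : v * τ ^ N = κ m' * Equiv.mulLeft (g m * (g m')⁻¹) * (κ m')⁻¹ := by
    have e1 : κ m * Equiv.mulLeft (g m) = τ ^ m := inv_mul_cancel_right _ _
    have e2 : κ m' * Equiv.mulLeft (g m') = τ ^ m' := inv_mul_cancel_right _ _
    have e3 : τ ^ N = τ ^ m * (τ ^ m')⁻¹ := by rw [hN, pow_add]; group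
    have e4 : Equiv.mulLeft (g m * (g m')⁻¹) = Equiv.mulLeft (g m) * (Equiv.mulLeft (g m'))⁻¹ := by
      rw [Equiv.inv_mulLeft, ← Equiv.mulLeft_mul]
    rw [e3, e4, ← e1, ← e2, hv_def]
    group
  obtain ⟨r, hr, hgr⟩ := (isOfFinOrder_iff_pow_eq_one).1 (htor (g m * (g m')⁻¹))
  have hxr : (v * τ ^ N) ^ r = 1 := by
    rw [hconj, conj_pow]
    have : (Equiv.mulLeft (g m * (g m')⁻¹)) ^ r = 1 := by
      rw [Equiv.pow_mulLeft, hgr, Equiv.mulLeft_one]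
    rw [this]
    group
  obtain ⟨v₁, h1, v₂, h2, h⟩ := tidy_pow hτ hst N hv r
  refine ⟨N * r, Nat.mul_pos hNpos hr, ?_⟩
  have : τ ^ (N * r) = v₁⁻¹ * v₂⁻¹ := by
    rw [hxr] at h
    have h' : v₁⁻¹ * 1 * v₂⁻¹ = v₁⁻¹ * (v₁ * τ ^ (N * r) * v₂) * v₂⁻¹ := by rw [← h]
    rw [mul_one] at h'
    rw [h']
    group
  rw [this]
  have hmem := (mul_mem (inv_mem h1) (inv_mem h2)).2 0 le_rfl (by simp)
  simpa using hmem

end Core

/-- The negation of the preceding statement: There exist groups G, H with finite symmetric generating sets S, T (neither containing 1) and a bijection G to H carrying the Cayley graph of (G,S) isomorphically onto that of (H,T), where G is periodic and H is not. -/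
theorem result :
    ¬ (∃ (G H : Type) (_ : Group G) (_ : Group H) (S : Finset G) (T : Finset H),
      Subgroup.closure (S : Set G) = ⊤ ∧ Subgroup.closure (T : Set H) = ⊤ ∧
      (1 : G) ∉ S ∧ (1 : H) ∉ T ∧
      (∀ x ∈ S, x⁻¹ ∈ S) ∧ (∀ y ∈ T, y⁻¹ ∈ T) ∧
      Monoid.IsTorsion G ∧ ¬ Monoid.IsTorsion H ∧
      ∃ e : G ≃ H, ∀ g h : G, g⁻¹ * h ∈ S ↔ (e g)⁻¹ * (e h) ∈ T) := by
  rintro ⟨G, H, _, _, S, T, hS, -, -, -, hSs, -, htor, hnt, e, he⟩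
  apply hnt
  intro t
  let τ : Equiv.Perm G := (e.trans (Equiv.mulLeft t)).trans e.symm
  have hτ_apply : ∀ x, τ x = e.symm (t * e x) := fun x => rfl
  have hτ : τ ∈ cayAut (S : Set G) := by
    intro x y
    have h1 := he x y
    have h2 := he (τ x) (τ y)
    rw [Finset.mem_coe, Finset.mem_coe, h1, h2, hτ_apply, hτ_apply, Equiv.apply_symm_apply,
      Equiv.apply_symm_apply]
    have : (t * e x)⁻¹ * (t * e y) = (e x)⁻¹ * e y := by group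
    rw [this]
  obtain ⟨k, hk, hfix⟩ := exists_pow_fix (S.finite_toSet) (by simpa using hSs) hS htor hτ
  have hpow : ∀ (n : ℕ) (x : G), (τ ^ n) x = e.symm (t ^ n * e x) := by
    intro n
    induction n with
    | zero => intro x; simp
    | succ n ih =>
      intro x
      rw [pow_succ, Equiv.Perm.mul_apply, ih, hτ_apply, Equiv.apply_symm_apply, pow_succ, mul_assoc]
  rw [hpow, Equiv.symm_apply_eq] at hfix
  rw [isOfFinOrder_iff_pow_eq_one]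
  exact ⟨k, hk, by simpa using hfix⟩

end Pool.Agent.S01406
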