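import Pool.Statements.S03208
import Pool.Agent.Helper3.NilAlg

set_option autoImplicit false
open Pool Pool.MP_d7a7a6_al

namespace Pool.Agent.S03208

/-- The negation of the preceding statement: There is one function f such that for every field F and every nilpotent associative F-algebra R, if the adjoint group of R is generated by d elements, then dim R is at most f(d). -/
theorem result :
    ¬ (∃ f : ℕ → ℕ, ∀ (F : Type) [Field F] (R : Type) [NonUnitalRing R] [Module F R]
      [IsScalarTower F R R] [SMulCommClass F R R],
      (∃ n : ℕ, ∀ x : Fin n → R,
        (List.ofFn (fun i => (Unitization.inr (x i) : Unitization F R))).prod = 0) →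
      ∀ d : ℕ, ∀ g : Fin d → (Unitization F R)ˣ,
        (∀ i, ∃ r : R, ((g i : (Unitization F R)ˣ) : Unitization F R) = 1 + Unitization.inr r) →
        (∀ r : R, ∃ u ∈ Subgroup.closure (Set.range g),
          (u : Unitization F R) = 1 + Unitization.inr r) →
        Module.rank F R ≤ (f d : Cardinal)) :=
  Pool.Agent.Helper3.NilAlg.final

end Pool.Agent.S03208
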