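import Pool.Statements.S03363
import Pool.Agent.Helper86.MT.Main

set_option autoImplicit false
open Pool Pool.MP_e4e71e_al

namespace Pool.Agent.S03363

/-- There is a Hausdorff ring topology on the integers with no strictly coarser Hausdorff ring topology, in which the only closed ideals are the zero ideal and the whole ring. -/
theorem result :
    ∃ t : RingTopology ℤ,
      @T2Space ℤ t.toTopologicalSpace ∧
      (∀ s : RingTopology ℤ, @T2Space ℤ s.toTopologicalSpace →
        t.toTopologicalSpace ≤ s.toTopologicalSpace → s = t) ∧
      (∀ I : Ideal ℤ, @IsClosed ℤ t.toTopologicalSpace (I : Set ℤ) → I = ⊥ ∨ I = ⊤) := by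
  exact Pool.Agent.Helper86.MT.main

end Pool.Agent.S03363
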