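import Pool.Statements.S03595
import Pool.Agent.Helper3.Conc2
import Pool.Agent.Helper3.Jord
-- import your own Pool.Agent.* helpers here

set_option autoImplicit false
open Pool Pool.MP_f8d790_al

namespace Pool.Agent.S03595

/-- An infinite compact Hausdorff group G has every choice of conjugates of its elements topologically generating G if and only if G has a closed, connected, abelian normal subgroup with totally disconnected (profinite) quotient. -/
theorem result :
    ∀ (G : Type) [Group G] [TopologicalSpace G] [IsTopologicalGroup G] [CompactSpace G]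
      [T2Space G] [Infinite G],
      (∀ f : G → G,
          (Subgroup.closure (Set.range (fun x : G => f x * x * (f x)⁻¹))).topologicalClosure = ⊤) ↔
        ∃ N : Subgroup G, N.Normal ∧ IsClosed (N : Set G) ∧ IsConnected (N : Set G) ∧
          (∀ a ∈ N, ∀ b ∈ N, a * b = b * a) ∧ TotallyDisconnectedSpace (G ⧸ N) := by
  intro G _ _ _ _ _ _
  constructor
  · intro hf
    have h : ∀ H : Subgroup G, IsClosed (H : Set G) → (∀ g, ∃ k, k * g * k⁻¹ ∈ H) → H = ⊤ := by
      intro H hH hm
      choose f hfH using hm
      rw [eq_top_iff, ← hf f]
      apply Subgroup.topologicalClosure_minimal _ _ hH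
      rw [Subgroup.closure_le]
      rintro _ ⟨x, rfl⟩
      exact hfH x
    have hN : ((Subgroup.connectedComponentOfOne G : Subgroup G) : Set G) =
        connectedComponent (1 : G) := rfl
    refine ⟨Subgroup.connectedComponentOfOne G, Pool.Agent.Helper3.Jord.normal_cc _ hN, ?_, ?_, ?_,
      Pool.Agent.Helper3.Jord.quotient_td _ hN⟩
    · rw [hN]; exact isClosed_connectedComponent
    · rw [hN]; exact isConnected_connectedComponent
    · intro a ha b hb
      exact Pool.Agent.Helper3.Conc.comm_of_TIG h a b ha hb
  · rintro ⟨N, hN, hNc, -, hab, htd⟩ f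
    apply Pool.Agent.Helper3.Jord.backward N hN hNc hab htd _
      (Subgroup.isClosed_topologicalClosure _)
    intro g
    exact ⟨f g, Subgroup.le_topologicalClosure _ (Subgroup.subset_closure ⟨g, rfl⟩)⟩

end Pool.Agent.S03595
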