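import Pool.Statements.S03999
import Pool.Agent.Helper30.WD.Main
import Pool.Agent.Helper30.WD.T3

set_option autoImplicit false
open MeasureTheory
open Pool Pool.MP_1deea1_an

namespace Pool.Agent.S03999

/-- For every measurable 1-periodic integer-valued D satisfying (D2), (D3), (D4) a.e., the set of L^2 orthonormal dyadic wavelets whose Plancherel Fourier transform gives dimension function equal to D a.e. is path connected in L^2(R). -/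
theorem result :
  ∀ D : ℝ → ℕ, Measurable D → Function.Periodic D 1 →
    (∀ᵐ ξ : ℝ, D ξ + D (ξ + 1 / 2) = D (2 * ξ) + 1) →
    (∀ᵐ ξ : ℝ, ((D ξ : ℕ∞) ≤ {k : ℤ | ∀ j : ℕ, 1 ≤ D ((ξ + k) / 2 ^ j)}.encard)) →
    (∀ᵐ ξ : ℝ, ∀ᶠ j : ℕ in Filter.atTop, 1 ≤ D (ξ / 2 ^ j)) →
    IsPathConnected {f : MeasureTheory.Lp ℂ 2 (MeasureTheory.volume : MeasureTheory.Measure ℝ) |
      (∀ j k j' k' : ℤ,
        ∫ x : ℝ, (((2:ℝ) ^ ((j:ℝ) / 2) : ℝ) : ℂ) * f ((2:ℝ) ^ j * x - k) *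
          starRingEnd ℂ ((((2:ℝ) ^ ((j':ℝ) / 2) : ℝ) : ℂ) * f ((2:ℝ) ^ j' * x - k'))
          = if j = j' ∧ k = k' then 1 else 0) ∧
      (∀ g : ℝ → ℂ, MeasureTheory.MemLp g 2 →
        (∀ j k : ℤ, ∫ x : ℝ, g x *
          starRingEnd ℂ ((((2:ℝ) ^ ((j:ℝ) / 2) : ℝ) : ℂ) * f ((2:ℝ) ^ j * x - k)) = 0) →
        g =ᵐ[MeasureTheory.volume] 0) ∧
      ∃ F : ℝ → ℂ, MeasureTheory.MemLp F 2 ∧
        Filter.Tendsto (fun n : ℕ => ∫⁻ ξ : ℝ,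
            ‖F ξ - ∫ x in (-(n:ℝ))..(n:ℝ),
              Complex.exp (-(2 * (Real.pi : ℂ) * Complex.I * (x : ℂ) * (ξ : ℂ))) * f x‖ₑ ^ 2)
          Filter.atTop (nhds 0) ∧
        ∀ᵐ ξ : ℝ, (∑' j : ℕ, ∑' k : ℤ, ‖F ((2:ℝ) ^ (j + 1) * (ξ + k))‖ₑ ^ 2)
          = ((D ξ : ℕ) : ENNReal)} := by
  intro D hDm hDp h2 h3 h4
  exact Pool.Agent.Helper30.WD.T3 D (Pool.Agent.Helper30.WD.WW_isPathConnected hDm hDp h2 h3 h4)

end Pool.Agent.S03999
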