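import Pool.Statements.S04023
import Pool.Agent.Helper44.LS.Class
import Pool.Agent.Helper46.FrG.BlockG
import Pool.Agent.Helper31.LS.BlockH

set_option autoImplicit false
open Pool Pool.MP_1fef1a_an

namespace Pool.Agent.S04023

/-- Let f be entire of order ρ and normal type, with simple zeros where ∣λ∣^(-ρ)log∣f'(λ)∣ minus the indicator at arg λ has liminf ≥ 0. Then every distributional limit of t^(-ρ)log∣f(tz)∣ as t→∞ equals h(arg z)∣z∣^ρ a.e., with h 2π-periodic and ρ-trig. convex. -/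
theorem result :
    ∀ ρ : ℝ, 0 < ρ → ∀ f : ℂ → ℂ, Differentiable ℂ f →
    (∃ C : ℝ, ∀ z : ℂ, ‖f z‖ ≤ Real.exp (C * (1 + ‖z‖ ^ ρ))) →
    (∃ ε : ℝ, 0 < ε ∧ ∀ R : ℝ, ∃ z : ℂ, R ≤ ‖z‖ ∧ Real.exp (ε * ‖z‖ ^ ρ) ≤ ‖f z‖) →
    (∀ z : ℂ, f z = 0 → deriv f z ≠ 0) →
    (∀ ε : ℝ, 0 < ε → ∃ R : ℝ, ∀ z : ℂ, f z = 0 → R ≤ ‖z‖ →
      -ε ≤ (‖z‖ ^ ρ)⁻¹ * Real.log ‖deriv f z‖
        - sInf {a : ℝ | ∀ᶠ r : ℝ in Filter.atTop,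
            ‖f ((r : ℂ) * Complex.exp ((Complex.arg z : ℂ) * Complex.I))‖
              ≤ Real.exp (a * r ^ ρ)}) →
    ∀ v : ℂ → ℝ, MeasureTheory.LocallyIntegrable v MeasureTheory.volume →
    ∀ t : ℕ → ℝ, Filter.Tendsto t Filter.atTop Filter.atTop →
    (∀ φ : ℂ → ℝ, ContDiff ℝ (⊤ : ℕ∞) φ → HasCompactSupport φ →
      Filter.Tendsto
        (fun j : ℕ => ∫ z : ℂ, (t j ^ ρ)⁻¹ * Real.log ‖f ((t j : ℂ) * z)‖ * φ z)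
        Filter.atTop (nhds (∫ z : ℂ, v z * φ z))) →
    ∃ h : ℝ → ℝ, Function.Periodic h (2 * Real.pi) ∧
      (∀ θ₁ θ₂ θ₃ : ℝ, θ₁ < θ₂ → θ₂ < θ₃ → θ₃ - θ₁ < Real.pi / ρ →
        h θ₂ * Real.sin (ρ * (θ₃ - θ₁))
          ≤ h θ₁ * Real.sin (ρ * (θ₃ - θ₂)) + h θ₃ * Real.sin (ρ * (θ₂ - θ₁))) ∧
      ∀ᵐ z : ℂ ∂MeasureTheory.volume, v z = h (Complex.arg z) * ‖z‖ ^ ρ := by
  intro ρ hρ f hf hup hlow hsim hc2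
  have hF : Pool.Agent.LS.HypF ρ f := ⟨hρ, hf, hup, hlow, hsim, hc2⟩
  obtain ⟨C, hh, hT⟩ := Pool.Agent.LS.blockF ρ f hF
  exact Pool.Agent.Helper31.LS.blockH ρ hρ f C _ hT
    (fun X v hX hv hc => Pool.Agent.Helper46.FrG.blockG hh hT hX hv hc)

end Pool.Agent.S04023
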