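import Pool.Statements.S04538
import Pool.Agent.Helper58.NE.Final

set_option autoImplicit false
open Pool Pool.MP_460089_an

namespace Pool.Agent.S04538

/-- The negation of the preceding statement: Every real Banach space admitting an equivalent uniformly convex norm (i.e. superreflexive) has a closed unit ball that embeds into some real Hilbert space by an injective map that is a uniform homeomorphism onto its image. -/
theorem result :
    ¬ (∀ (X : Type) [NormedAddCommGroup X] [NormedSpace ℝ X] [CompleteSpace X],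
      (∃ N : X → ℝ, ∃ c C : ℝ, 0 < c ∧ 0 < C ∧
        (∀ x : X, c * ‖x‖ ≤ N x ∧ N x ≤ C * ‖x‖) ∧
        (∀ x y : X, N (x + y) ≤ N x + N y) ∧
        (∀ (a : ℝ) (x : X), N (a • x) = |a| * N x) ∧
        (∀ ε : ℝ, 0 < ε → ∃ δ : ℝ, 0 < δ ∧ ∀ x y : X,
          N x ≤ 1 → N y ≤ 1 → ε ≤ N (x - y) → N (x + y) ≤ 2 - 2 * δ)) →
      ∃ (H : Type) (_ : NormedAddCommGroup H) (_ : InnerProductSpace ℝ H)
        (_ : CompleteSpace H) (f : Metric.closedBall (0 : X) 1 → H),
        IsUniformEmbedding f) := by
  exact Pool.Agent.Helper58.NE.final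

end Pool.Agent.S04538
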