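import Pool.Statements.S04873
-- import your own Pool.Agent.* helpers here
import Pool.Agent.Helper7.SV.B

set_option autoImplicit false
open Pool Pool.MP_6468e7_an

namespace Pool.Agent.S04873

/-- For every p>1 and every smooth compactly supported f from C to C, the integral over the plane of Burkholder's function Phi_p evaluated at (∂f, ∂̄f) is nonnegative. -/
theorem result :
    ∀ p : ℝ, 1 < p → ∀ f : ℂ → ℂ, ContDiff ℝ (⊤ : ℕ∞) f → HasCompactSupport f →
      0 ≤ ∫ z : ℂ,
        p * (1 - 1 / max p (p / (p - 1))) ^ (p - 1) *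
          ((max p (p / (p - 1)) - 1) *
              ‖(fderiv ℝ f z 1 - Complex.I * fderiv ℝ f z Complex.I) / 2‖ -
            ‖(fderiv ℝ f z 1 + Complex.I * fderiv ℝ f z Complex.I) / 2‖) *
          (‖(fderiv ℝ f z 1 - Complex.I * fderiv ℝ f z Complex.I) / 2‖ +
            ‖(fderiv ℝ f z 1 + Complex.I * fderiv ℝ f z Complex.I) / 2‖) ^ (p - 1) := by
  intro p hp f hf hs
  exact Pool.Agent.Helper7.SV.burk_all hp (hf.of_le (by exact_mod_cast le_top)) hs

end Pool.Agent.S04873
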