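import Pool.Statements.S05046
import Pool.Agent.Helper43.Mesh4
import Pool.Agent.Helper43.Mesh5

set_option autoImplicit false
open Pool Pool.MP_72afba_an

namespace Pool.Agent.S05046

open Pool.Agent.Helper43.Mesh in
/-- The negation of the preceding statement: Any set of integers satisfying the mesh condition (at most K·n·s points among sums Σk_i m_i with Σ∣m_i∣ ≤ 2^s) is subgaussian: Λ-polynomials satisfy ‖f‖_p ≤ C√p‖f‖_2 for all p ≥ 2. -/
theorem result :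
    ¬ (∀ Λ : Set ℤ,
    (∃ K : ℝ, 0 < K ∧ ∀ n s : ℕ, 0 < n → 0 < s → ∀ k : Fin n → ℤ,
      ((Λ ∩ {z : ℤ | ∃ m : Fin n → ℤ, (∑ i, |m i|) ≤ (2 : ℤ) ^ s ∧ z = ∑ i, k i * m i}).ncard : ℝ)
        ≤ K * (n : ℝ) * (s : ℝ)) →
    ∃ C : ℝ, 0 < C ∧ ∀ A : Finset ℤ, (↑A : Set ℤ) ⊆ Λ → ∀ a : ℤ → ℂ, ∀ p : ℝ, 2 ≤ p →
      (∫ x in (0:ℝ)..1,
          ‖∑ j ∈ A, a j * Complex.exp (2 * (Real.pi : ℂ) * Complex.I * (j : ℂ) * (x : ℂ))‖ ^ p) ^ (1 / p)
        ≤ C * Real.sqrt p * Real.sqrt (∑ j ∈ A, ‖a j‖ ^ 2)) := by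
  intro h
  obtain ⟨Λ, hmesh, hblocks⟩ := construction
  obtain ⟨C, hC, hsub⟩ := h Λ (by
    refine ⟨4, by norm_num, ?_⟩
    intro n s hn hs k
    by_cases hfin : (Λ ∩ {z : ℤ | ∃ m : Fin n → ℤ, (∑ i, |m i|) ≤ (2 : ℤ) ^ s ∧
        z = ∑ i, k i * m i}).Finite
    · rw [Set.ncard_eq_toFinset_card _ hfin]
      have := hmesh n s hn hs k hfin.toFinset (by
        intro a ha
        rw [Finset.mem_coe, Set.Finite.mem_toFinset] at ha
        exact ha.1) (by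
        intro a ha
        rw [Set.Finite.mem_toFinset] at ha
        exact ha.2)
      exact_mod_cast this
    · rw [Set.Infinite.ncard hfin]
      simp only [Nat.cast_zero]
      positivity)
  obtain ⟨j, hj⟩ := exists_nat_gt (32 * C ^ 2)
  obtain ⟨N, hN, A, hAΛ, hAcard, S, hScard, hS⟩ := hblocks j
  have h1 := lower_bound A N hN S hScard hS
  have h2 := hsub A hAΛ (fun _ => 1) ((2 * N : ℕ) : ℝ) (by
    have : (2 : ℕ) ≤ 2 * N := by omega
    exact_mod_cast this)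
  have h3 : ((A.card : ℝ) / 4) ≤ C * Real.sqrt ((2 * N : ℕ) : ℝ) * Real.sqrt (A.card : ℝ) := by
    refine h1.trans ?_
    refine le_trans (le_of_eq ?_) (h2.trans (le_of_eq ?_))
    · simp only [one_mul, ee]
    · simp
  have hNpos : (0 : ℝ) < N := by exact_mod_cast hN
  have hcard : (A.card : ℝ) = N * (j + 1) := by
    rw [hAcard]
    push_cast
    ring
  have h4 : ((A.card : ℝ) / 4) ^ 2 ≤ C ^ 2 * (2 * N) * A.card := by
    have h5 : 0 ≤ (A.card : ℝ) / 4 := by positivity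
    calc ((A.card : ℝ) / 4) ^ 2 ≤ (C * Real.sqrt ((2 * N : ℕ) : ℝ) * Real.sqrt (A.card : ℝ)) ^ 2 :=
          pow_le_pow_left₀ h5 h3 2
      _ = C ^ 2 * (Real.sqrt ((2 * N : ℕ) : ℝ)) ^ 2 * (Real.sqrt (A.card : ℝ)) ^ 2 := by ring
      _ = C ^ 2 * (2 * N) * A.card := by
        rw [Real.sq_sqrt (by positivity), Real.sq_sqrt (by positivity)]
        push_cast
        ring
  rw [hcard] at h4
  have hj0 : (0 : ℝ) ≤ j := Nat.cast_nonneg _
  have h6 : ((N : ℝ) ^ 2 * (j + 1)) * (j + 1) ≤ ((N : ℝ) ^ 2 * (j + 1)) * (32 * C ^ 2) := by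
    nlinarith
  have h7 : ((j : ℝ) + 1) ≤ 32 * C ^ 2 := le_of_mul_le_mul_left h6 (by positivity)
  linarith

end Pool.Agent.S05046
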