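import Pool.Statements.S05203
import Pool.Agent.Helper96.BI.Inv
import Pool.Agent.Helper7.BI.FinalOf
import Pool.Agent.Helper57.BI.CoreX

set_option autoImplicit false
open MeasureTheory
open Pool Pool.MP_7f73f7_an

namespace Pool.Agent.S05203

/-- For every ergodic measure-preserving map T of (0,1), the bounded operator on complex L²(0,1) sending f to x·f(Tx) has a closed invariant subspace other than 0 and the whole space. -/
theorem result :
    ∀ T : ℝ → ℝ, Ergodic T (volume.restrict (Set.Ioo (0:ℝ) 1)) →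
    ∀ A : Lp ℂ (2 : ENNReal) (volume.restrict (Set.Ioo (0:ℝ) 1)) →L[ℂ]
        Lp ℂ (2 : ENNReal) (volume.restrict (Set.Ioo (0:ℝ) 1)),
    (∀ f : Lp ℂ (2 : ENNReal) (volume.restrict (Set.Ioo (0:ℝ) 1)),
      (A f : ℝ → ℂ) =ᵐ[volume.restrict (Set.Ioo (0:ℝ) 1)]
        fun x => (x : ℂ) * (f : ℝ → ℂ) (T x)) →
    ∃ V : Submodule ℂ (Lp ℂ (2 : ENNReal) (volume.restrict (Set.Ioo (0:ℝ) 1))),
      IsClosed (V : Set (Lp ℂ (2 : ENNReal) (volume.restrict (Set.Ioo (0:ℝ) 1)))) ∧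
      V ≠ ⊥ ∧ V ≠ ⊤ ∧ ∀ v ∈ V, A v ∈ V := by
  exact Pool.Agent.Helper57.BI.final_of
    (fun T hT A hA hd => Pool.Agent.Helper57.BI.invertible T hT A hA hd)
    (fun μ _ T hE hT' hne φ a b c d => Pool.Agent.Helper57.BI.core μ T hE hT' hne φ a b c d)

end Pool.Agent.S05203
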