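import Pool.Statements.S06007
import Pool.Agent.Helper31.ErgSL2.Final

set_option autoImplicit false
open MeasureTheory Filter Topology
open Pool Pool.MP_c0d668_an

namespace Pool.Agent.S06007

/-- For every jointly measurable, measure-preserving PSL2(R)-action on a probability space with spectral gap on mean-zero L2 functions, and every integrable f, the Haar averages of f(g⁻¹x) over the Frobenius-norm balls converge to the mean of f for almost every x. -/
theorem result :
    ∀ [tG : TopologicalSpace (Matrix.SpecialLinearGroup (Fin 2) ℝ)]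
      [mG : MeasurableSpace (Matrix.SpecialLinearGroup (Fin 2) ℝ)],
      Topology.IsInducing
          (fun g : Matrix.SpecialLinearGroup (Fin 2) ℝ => (g : Matrix (Fin 2) (Fin 2) ℝ)) →
      BorelSpace (Matrix.SpecialLinearGroup (Fin 2) ℝ) →
      ∀ (m : Measure (Matrix.SpecialLinearGroup (Fin 2) ℝ)), m.IsHaarMeasure →
      ∀ (X : Type) [mX : MeasurableSpace X] (μ : Measure X), IsProbabilityMeasure μ →
      ∀ [act : MulAction (Matrix.SpecialLinearGroup (Fin 2) ℝ) X],
        Measurable (fun p : Matrix.SpecialLinearGroup (Fin 2) ℝ × X => p.1 • p.2) →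
        (∀ g : Matrix.SpecialLinearGroup (Fin 2) ℝ,
            MeasurePreserving (fun x : X => g • x) μ μ) →
        (∀ g : Matrix.SpecialLinearGroup (Fin 2) ℝ,
            (g : Matrix (Fin 2) (Fin 2) ℝ) = -1 → ∀ x : X, g • x = x) →
        (∃ Q : Set (Matrix.SpecialLinearGroup (Fin 2) ℝ), IsCompact Q ∧
          ∃ ε : ℝ, 0 < ε ∧
            ∀ f : X → ℝ, MemLp f 2 μ → ∫ y, f y ∂μ = 0 → eLpNorm f 2 μ = 1 →
              ∃ g ∈ Q, ENNReal.ofReal ε ≤ eLpNorm (fun y => f (g • y) - f y) 2 μ) →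
        ∀ f : X → ℝ, Integrable f μ →
          ∀ᵐ x ∂μ, Tendsto
            (fun R : ℝ =>
              (m {g : Matrix.SpecialLinearGroup (Fin 2) ℝ |
                  ∑ i, ∑ j, ((g : Matrix (Fin 2) (Fin 2) ℝ) i j) ^ 2 < R}).toReal⁻¹ *
                ∫ g in {g : Matrix.SpecialLinearGroup (Fin 2) ℝ |
                  ∑ i, ∑ j, ((g : Matrix (Fin 2) (Fin 2) ℝ) i j) ^ 2 < R},
                  f (g⁻¹ • x) ∂m)
            atTop (𝓝 (∫ y, f y ∂μ)) := by
  intro tG mG hind hborel m hm X mX μ hμ act hact hmp _ hgap f hf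
  have htop : tG = Matrix.SpecialLinearGroup.instTopologicalSpace := hind.eq_induced
  subst htop
  obtain ⟨Q, hQ, ε, hε, hgap'⟩ := hgap
  haveI : MeasurableSMul₂ (Matrix.SpecialLinearGroup (Fin 2) ℝ) X := ⟨hact⟩
  haveI : SMulInvariantMeasure (Matrix.SpecialLinearGroup (Fin 2) ℝ) X μ :=
    ⟨fun c s hs => (hmp c).measure_preimage hs.nullMeasurableSet⟩
  obtain ⟨R₀, hG⟩ := Pool.Agent.Helper31.ErgSL2.gap_of μ hQ hε hgap'
  have hmain := Pool.Agent.Helper31.ErgSL2.conv_final m μ hG hε hf
  filter_upwards [hmain] with x hx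
  simp only [Pool.Agent.Helper31.ErgSL2.sum_eq_NN]
  exact hx

end Pool.Agent.S06007
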