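import Pool.Statements.S06195
import Pool.Agent.Helper31.JE.Assemble

set_option autoImplicit false
open scoped MeasureTheory Filter Topology
open Pool Pool.MP_ce5406_an

namespace Pool.Agent.S06195

/-- For distinct positive non-integers c_i and any invertible totally ergodic system, the averages over n≤N of the products of f_i∘T^{⌊n^{c_i}⌋²} converge in L² to the product of the integrals of the bounded f_i. -/
theorem result :
    ∀ (k : ℕ) (c : Fin k → ℝ), Function.Injective c → (∀ i, 0 < c i) →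
      (∀ i, ∀ m : ℤ, c i ≠ (m : ℝ)) →
      ∀ (X : Type) [MeasurableSpace X] (μ : MeasureTheory.Measure X)
        [MeasureTheory.IsProbabilityMeasure μ] (T : X ≃ᵐ X),
        MeasureTheory.MeasurePreserving T μ μ →
        (∀ n : ℕ, 1 ≤ n → Ergodic ((⇑T)^[n]) μ) →
        ∀ f : Fin k → X → ℝ, (∀ i, MeasureTheory.MemLp (f i) ⊤ μ) →
          Filter.Tendsto
            (fun N : ℕ => ∫ x, ((1 / (N : ℝ)) * ∑ n ∈ Finset.Icc 1 N,
                ∏ i, f i ((⇑T)^[⌊(n : ℝ) ^ (c i)⌋₊ ^ 2] x)
                - ∏ i, ∫ y, f i y ∂μ) ^ 2 ∂μ)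
            Filter.atTop (𝓝 0) := by
  intro k c hc hpos hnint X _ μ _ T hT hte f hf
  exact Pool.Agent.JE.H31.joint_ergodicity k c hc hpos hnint T hT hte f hf

end Pool.Agent.S06195
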