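import Pool.Statements.S06219

set_option autoImplicit false
set_option linter.unusedSimpArgs false
set_option linter.deprecated false
open scoped InnerProductSpace
open Pool Pool.MP_cfa8a6_an

namespace Pool.Agent.S06219

/-- The Hilbert space. -/
abbrev H : Type := lp (fun _ : ℕ => ℂ) 2

lemma two_toReal_pos : 0 < (2 : ENNReal).toReal := by norm_num

lemma summable_sq (f : H) : Summable (fun n => ‖f n‖ ^ 2) := by
  have := (lp.hasSum_norm two_toReal_pos f).summable
  simpa using this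

lemma norm_sq_eq (f : H) : ‖f‖ ^ 2 = ∑' n, ‖f n‖ ^ 2 := by
  have := lp.norm_rpow_eq_tsum two_toReal_pos f
  simpa using this

lemma memlp_of_summable (f : ℕ → ℂ) (h : Summable (fun n => ‖f n‖ ^ 2)) :
    Memℓp f 2 := by
  apply memℓp_gen
  simpa using h

/-- join two vectors: even coordinates from `f`, odd ones from `g`. -/
noncomputable def join (f g : H) : H :=
  ⟨fun n => if n % 2 = 0 then f (n / 2) else g (n / 2), by
    apply memlp_of_summable
    apply HasSum.summable (a := (∑' n, ‖f n‖ ^ 2) + ∑' n, ‖g n‖ ^ 2)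
    apply HasSum.even_add_odd
    · have := (summable_sq f).hasSum
      convert this using 4
      simp
    · have := (summable_sq g).hasSum
      convert this using 4
      rename_i k
      have h1 : (2 * k + 1) % 2 = 1 := by omega
      have h2 : (2 * k + 1) / 2 = k := by omega
      simp [h1, h2]⟩

lemma join_even (f g : H) (n : ℕ) : join f g (2 * n) = f n := by
  show (if (2 * n) % 2 = 0 then f ((2 * n) / 2) else g ((2 * n) / 2)) = f n
  simp

lemma join_odd (f g : H) (n : ℕ) : join f g (2 * n + 1) = g n := by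
  show (if (2 * n + 1) % 2 = 0 then f ((2 * n + 1) / 2) else g ((2 * n + 1) / 2)) = g n
  have h1 : (2 * n + 1) % 2 = 1 := by omega
  have h2 : (2 * n + 1) / 2 = n := by omega
  simp [h1, h2]

/-- even part -/
noncomputable def ev (f : H) : H :=
  ⟨fun n => f (2 * n), by
    apply memlp_of_summable
    exact (summable_sq f).comp_injective (fun a b h => by simpa using h)⟩

/-- odd part -/
noncomputable def od (f : H) : H :=
  ⟨fun n => f (2 * n + 1), by
    apply memlp_of_summable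
    exact (summable_sq f).comp_injective (i := fun n => 2 * n + 1) (fun a b h => by simpa using h)⟩

@[simp] lemma ev_apply (f : H) (n : ℕ) : ev f n = f (2 * n) := rfl
@[simp] lemma od_apply (f : H) (n : ℕ) : od f n = f (2 * n + 1) := rfl

@[simp] lemma ev_join (f g : H) : ev (join f g) = f := by
  ext n; simp [join_even]

@[simp] lemma od_join (f g : H) : od (join f g) = g := by
  ext n; simp [join_odd]

lemma join_ev_od (f : H) : join (ev f) (od f) = f := by
  ext n
  obtain ⟨k, hk | hk⟩ := Nat.even_or_odd' n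
  · rw [hk, join_even, ev_apply]
  · rw [hk, join_odd, od_apply]

lemma norm_sq_ev_od (f : H) : ‖f‖ ^ 2 = ‖ev f‖ ^ 2 + ‖od f‖ ^ 2 := by
  rw [norm_sq_eq f, norm_sq_eq (ev f), norm_sq_eq (od f)]
  symm
  apply tsum_even_add_odd (f := fun n => ‖f n‖ ^ 2)
  · exact summable_sq (ev f)
  · exact summable_sq (od f)

lemma norm_sq_join (f g : H) : ‖join f g‖ ^ 2 = ‖f‖ ^ 2 + ‖g‖ ^ 2 := by
  rw [norm_sq_ev_od, ev_join, od_join]

lemma norm_ev_le (f : H) : ‖ev f‖ ≤ ‖f‖ := by
  apply le_of_sq_le_sq _ (norm_nonneg _)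
  rw [norm_sq_ev_od f]
  nlinarith [sq_nonneg ‖od f‖]

lemma norm_od_le (f : H) : ‖od f‖ ≤ ‖f‖ := by
  apply le_of_sq_le_sq _ (norm_nonneg _)
  rw [norm_sq_ev_od f]
  nlinarith [sq_nonneg ‖ev f‖]

/-- even part as a bounded operator -/
noncomputable def R0 : H →L[ℂ] H :=
  LinearMap.mkContinuous
    { toFun := ev
      map_add' := fun f g => by ext n; rfl
      map_smul' := fun c f => by ext n; rfl } 1
    (fun f => by simpa using norm_ev_le f)

/-- odd part as a bounded operator -/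
noncomputable def R1 : H →L[ℂ] H :=
  LinearMap.mkContinuous
    { toFun := od
      map_add' := fun f g => by ext n; rfl
      map_smul' := fun c f => by ext n; rfl } 1
    (fun f => by simpa using norm_od_le f)

@[simp] lemma R0_apply (f : H) : R0 f = ev f := rfl
@[simp] lemma R1_apply (f : H) : R1 f = od f := rfl

lemma ext_ev_od {f g : H} (h0 : ev f = ev g) (h1 : od f = od g) : f = g := by
  rw [← join_ev_od f, ← join_ev_od g, h0, h1]

/-- embedding on even coordinates -/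
noncomputable def S0 : H →L[ℂ] H :=
  LinearMap.mkContinuous
    { toFun := fun f => join f 0
      map_add' := fun f g => by
        apply ext_ev_od
        · rw [ev_join]
          show f + g = R0 (join f 0 + join g 0)
          rw [map_add]; simp
        · rw [od_join]
          show 0 = R1 (join f 0 + join g 0)
          rw [map_add]; simp
      map_smul' := fun c f => by
        apply ext_ev_od
        · rw [ev_join]
          show c • f = R0 (c • join f 0)
          rw [map_smul]; simp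
        · rw [od_join]
          show 0 = R1 (c • join f 0)
          rw [map_smul]; simp } 1
    (fun f => by
      show ‖join f 0‖ ≤ 1 * ‖f‖
      apply le_of_sq_le_sq _ (by positivity)
      rw [norm_sq_join]; simp)

/-- embedding on odd coordinates -/
noncomputable def S1 : H →L[ℂ] H :=
  LinearMap.mkContinuous
    { toFun := fun f => join 0 f
      map_add' := fun f g => by
        apply ext_ev_od
        · rw [ev_join]
          show 0 = R0 (join 0 f + join 0 g)
          rw [map_add]; simp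
        · rw [od_join]
          show f + g = R1 (join 0 f + join 0 g)
          rw [map_add]; simp
      map_smul' := fun c f => by
        apply ext_ev_od
        · rw [ev_join]
          show 0 = R0 (c • join 0 f)
          rw [map_smul]; simp
        · rw [od_join]
          show c • f = R1 (c • join 0 f)
          rw [map_smul]; simp } 1
    (fun f => by
      show ‖join 0 f‖ ≤ 1 * ‖f‖
      apply le_of_sq_le_sq _ (by positivity)
      rw [norm_sq_join]; simp)

@[simp] lemma ev_S0 (f : H) : ev (S0 f) = f := ev_join f 0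
@[simp] lemma od_S0 (f : H) : od (S0 f) = 0 := od_join f 0
@[simp] lemma ev_S1 (f : H) : ev (S1 f) = 0 := ev_join 0 f
@[simp] lemma od_S1 (f : H) : od (S1 f) = f := od_join 0 f

lemma norm_R0_le : ‖R0‖ ≤ 1 := LinearMap.mkContinuous_norm_le _ zero_le_one _
lemma norm_R1_le : ‖R1‖ ≤ 1 := LinearMap.mkContinuous_norm_le _ zero_le_one _
lemma norm_S0_le : ‖S0‖ ≤ 1 := LinearMap.mkContinuous_norm_le _ zero_le_one _
lemma norm_S1_le : ‖S1‖ ≤ 1 := LinearMap.mkContinuous_norm_le _ zero_le_one _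


lemma R0_S0 : R0 * S0 = 1 := by ext1 f; exact ev_S0 f
lemma R1_S0 : R1 * S0 = 0 := by ext1 f; exact od_S0 f
lemma R0_S1 : R0 * S1 = 0 := by ext1 f; exact ev_S1 f
lemma R1_S1 : R1 * S1 = 1 := by ext1 f; exact od_S1 f

/-- The building block `Q x`. -/
noncomputable def Q (x : ℂ) : H →L[ℂ] H :=
  x • (S0 * R0) - (x ^ 2 / 2) • (S0 * R1) + (2 : ℂ) • (S1 * R0) - x • (S1 * R1)

lemma norm_mul_le_one {A B : H →L[ℂ] H} (hA : ‖A‖ ≤ 1) (hB : ‖B‖ ≤ 1) : ‖A * B‖ ≤ 1 :=
  (norm_mul_le A B).trans (mul_le_one₀ hA (norm_nonneg _) hB)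

lemma norm_Q_le (x : ℂ) : ‖Q x‖ ≤ (‖x‖ + 2) ^ 2 := by
  have h1 : ‖x • (S0 * R0)‖ ≤ ‖x‖ := by
    rw [norm_smul]
    exact mul_le_of_le_one_right (norm_nonneg _) (norm_mul_le_one norm_S0_le norm_R0_le)
  have h2 : ‖(x ^ 2 / 2) • (S0 * R1)‖ ≤ ‖x‖ ^ 2 / 2 := by
    rw [norm_smul, norm_div, norm_pow]
    refine (mul_le_of_le_one_right (by positivity) (norm_mul_le_one norm_S0_le norm_R1_le)).trans ?_
    simp
  have h3 : ‖(2 : ℂ) • (S1 * R0)‖ ≤ 2 := by
    rw [norm_smul]
    refine (mul_le_of_le_one_right (by positivity) (norm_mul_le_one norm_S1_le norm_R0_le)).trans ?_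
    simp
  have h4 : ‖x • (S1 * R1)‖ ≤ ‖x‖ := by
    rw [norm_smul]
    exact mul_le_of_le_one_right (norm_nonneg _) (norm_mul_le_one norm_S1_le norm_R1_le)
  have : ‖Q x‖ ≤ ‖x‖ + ‖x‖ ^ 2 / 2 + 2 + ‖x‖ := by
    unfold Q
    refine (norm_sub_le _ _).trans (add_le_add ?_ h4)
    refine (norm_add_le _ _).trans (add_le_add ?_ h3)
    exact (norm_sub_le _ _).trans (add_le_add h1 h2)
  nlinarith [norm_nonneg x, sq_nonneg ‖x‖]

/-- The terms of the series defining the operator. -/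
noncomputable def term (x : ℕ → ℂ) (j : ℕ) : H →L[ℂ] H :=
  ((1 / 2 : ℂ) ^ j) • (S0 ^ j * Q (x j) * R1 ^ j)

lemma norm_pow_le_one {A : H →L[ℂ] H} (hA : ‖A‖ ≤ 1) (j : ℕ) : ‖A ^ j‖ ≤ 1 := by
  induction j with
  | zero => exact ContinuousLinearMap.norm_id_le
  | succ n ih => rw [pow_succ]; exact norm_mul_le_one ih hA

/-- bound for the terms -/
noncomputable def bnd (M : ℝ) (j : ℕ) : ℝ := (1 / 2 : ℝ) ^ j * (M + j + 2) ^ 2

lemma norm_term_le {x : ℕ → ℂ} {M : ℝ} (hx : ∀ j, ‖x j‖ ≤ M + j) (j : ℕ) :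
    ‖term x j‖ ≤ bnd M j := by
  unfold term bnd
  rw [norm_smul, norm_pow]
  have h1 : ‖(1 / 2 : ℂ)‖ = 1 / 2 := by norm_num
  rw [h1]
  apply mul_le_mul_of_nonneg_left _ (by positivity)
  have h2 : ‖S0 ^ j * Q (x j) * R1 ^ j‖ ≤ ‖Q (x j)‖ := by
    refine (norm_mul_le _ _).trans ?_
    refine (mul_le_of_le_one_right (norm_nonneg _) (norm_pow_le_one norm_R1_le j)).trans ?_
    refine (norm_mul_le _ _).trans ?_
    exact mul_le_of_le_one_left (norm_nonneg _) (norm_pow_le_one norm_S0_le j)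
  refine h2.trans ((norm_Q_le _).trans ?_)
  have := hx j
  have h0 := norm_nonneg (x j)
  gcongr

lemma summable_bnd (M : ℝ) : Summable (bnd M) := by
  unfold bnd
  have h0 : Summable (fun j : ℕ => ((j : ℝ) ^ 2 * (1 / 2 : ℝ) ^ j)) :=
    summable_pow_mul_geometric_of_norm_lt_one 2 (by norm_num)
  have h1 : Summable (fun j : ℕ => ((j : ℝ) ^ 1 * (1 / 2 : ℝ) ^ j)) :=
    summable_pow_mul_geometric_of_norm_lt_one 1 (by norm_num)
  have h2 : Summable (fun j : ℕ => ((1 / 2 : ℝ) ^ j)) :=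
    summable_geometric_of_norm_lt_one (by norm_num)
  convert (h0.add (h1.mul_left (2 * (M + 2)))).add (h2.mul_left ((M + 2) ^ 2)) using 1
  ext j
  ring

/-- The operator attached to a sequence. -/
noncomputable def T (x : ℕ → ℂ) : H →L[ℂ] H := ∑' j, term x j

lemma summable_term {x : ℕ → ℂ} {M : ℝ} (hx : ∀ j, ‖x j‖ ≤ M + j) : Summable (term x) :=
  Summable.of_norm_bounded (summable_bnd M) (norm_term_le hx)

lemma norm_T_le {x : ℕ → ℂ} {M : ℝ} (hx : ∀ j, ‖x j‖ ≤ M + j) : ‖T x‖ ≤ ∑' j, bnd M j :=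
  tsum_of_norm_bounded (summable_bnd M).hasSum (norm_term_le hx)

lemma T_rec {x : ℕ → ℂ} {M : ℝ} (hx : ∀ j, ‖x j‖ ≤ M + j) :
    T x = Q (x 0) + (1 / 2 : ℂ) • (S0 * T (fun j => x (j + 1)) * R1) := by
  unfold T
  rw [(summable_term hx).tsum_eq_zero_add]
  congr 1
  · simp [term]
  · have hx' : ∀ j, ‖(fun j => x (j + 1)) j‖ ≤ (M + 1) + j := by
      intro j
      have := hx (j + 1)
      push_cast at this
      simp only
      linarith
    have hs := summable_term hx'
    rw [← hs.tsum_mul_left, ← (hs.mul_left S0).tsum_mul_right, ← ((hs.mul_left S0).mul_right R1).tsum_const_smul]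
    congr 1
    ext1 j
    unfold term
    rw [pow_succ', pow_succ' S0, pow_succ R1]
    simp only [mul_smul_comm, smul_mul_assoc, smul_smul, mul_assoc]

/-- The ampliation `A ↦ A ⊕ A`. -/
noncomputable def Phi (A : H →L[ℂ] H) : H →L[ℂ] H := S0 * A * R0 + S1 * A * R1

lemma mulH_apply (A B : H →L[ℂ] H) (f : H) : (A * B) f = A (B f) := rfl

lemma ev_Phi (A : H →L[ℂ] H) (f : H) : ev (Phi A f) = A (ev f) := by
  show R0 ((S0 * A * R0 + S1 * A * R1) f) = _
  simp [ContinuousLinearMap.add_apply, map_add]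

lemma od_Phi (A : H →L[ℂ] H) (f : H) : od (Phi A f) = A (od f) := by
  show R1 ((S0 * A * R0 + S1 * A * R1) f) = _
  simp [ContinuousLinearMap.add_apply, map_add]

lemma Phi_mul (A B : H →L[ℂ] H) : Phi (A * B) = Phi A * Phi B := by
  ext1 f
  apply ext_ev_od
  · rw [ev_Phi]; show _ = ev (Phi A (Phi B f)); rw [ev_Phi, ev_Phi]; rfl
  · rw [od_Phi]; show _ = od (Phi A (Phi B f)); rw [od_Phi, od_Phi]; rfl

lemma norm_Phi_le (A : H →L[ℂ] H) : ‖Phi A‖ ≤ ‖A‖ := by
  apply ContinuousLinearMap.opNorm_le_bound _ (norm_nonneg _)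
  intro f
  apply le_of_sq_le_sq _ (by positivity)
  rw [norm_sq_ev_od, ev_Phi, od_Phi, mul_pow, norm_sq_ev_od f]
  have h1 := A.le_opNorm (ev f)
  have h2 := A.le_opNorm (od f)
  have h3 : ‖A (ev f)‖ ^ 2 ≤ (‖A‖ * ‖ev f‖) ^ 2 := by gcongr
  have h4 : ‖A (od f)‖ ^ 2 ≤ (‖A‖ * ‖od f‖) ^ 2 := by gcongr
  nlinarith

lemma norm_Phi_iter_le (a : ℕ) (A : H →L[ℂ] H) : ‖Phi^[a] A‖ ≤ ‖A‖ := by
  induction a with
  | zero => simp
  | succ n ih => rw [Function.iterate_succ_apply']; exact (norm_Phi_le _).trans ih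

lemma Phi_iter_mul (a : ℕ) (A B : H →L[ℂ] H) : Phi^[a] (A * B) = Phi^[a] A * Phi^[a] B := by
  induction a with
  | zero => simp
  | succ n ih => rw [Function.iterate_succ_apply', Function.iterate_succ_apply',
      Function.iterate_succ_apply', ih, Phi_mul]

lemma ev_T {x : ℕ → ℂ} {M : ℝ} (hx : ∀ j, ‖x j‖ ≤ M + j) (f : H) :
    ev (T x f) = x 0 • ev f + (1 / 2 : ℂ) • T (fun j => x (j + 1)) (od f) - (x 0 ^ 2 / 2) • od f := by
  rw [T_rec hx]
  show R0 _ = _
  unfold Q
  simp only [ContinuousLinearMap.add_apply, ContinuousLinearMap.sub_apply,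
    ContinuousLinearMap.smul_apply, mulH_apply, map_add, map_sub, map_smul,
    R0_apply, R1_apply, ev_S0, ev_S1, smul_zero, sub_zero, add_zero]
  module

lemma od_T {x : ℕ → ℂ} {M : ℝ} (hx : ∀ j, ‖x j‖ ≤ M + j) (f : H) :
    od (T x f) = (2 : ℂ) • ev f - x 0 • od f := by
  rw [T_rec hx]
  show R1 _ = _
  unfold Q
  simp only [ContinuousLinearMap.add_apply, ContinuousLinearMap.sub_apply,
    ContinuousLinearMap.smul_apply, mulH_apply, map_add, map_sub, map_smul,
    R0_apply, R1_apply, od_S0, od_S1, smul_zero, sub_zero, add_zero, zero_add, sub_self, zero_sub]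

lemma T_mul_self {x : ℕ → ℂ} {M : ℝ} (hx : ∀ j, ‖x j‖ ≤ M + j) :
    T x * T x = Phi (T (fun j => x (j + 1))) := by
  ext1 f
  show T x (T x f) = _
  apply ext_ev_od
  · rw [ev_T hx, ev_Phi, ev_T hx, od_T hx]
    simp only [map_sub, map_smul]
    module
  · rw [od_T hx, od_Phi, ev_T hx, od_T hx]
    module

lemma T_pow {x : ℕ → ℂ} {M : ℝ} (hx : ∀ j, ‖x j‖ ≤ M + j) (a : ℕ) :
    T x ^ (2 ^ a) = Phi^[a] (T (fun j => x (j + a))) := by
  induction a with
  | zero => simp
  | succ n ih =>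
    have hx' : ∀ j, ‖(fun j => x (j + n)) j‖ ≤ (M + n) + j := by
      intro j
      have := hx (j + n)
      push_cast at this
      simp only
      linarith
    rw [pow_succ, pow_mul, ih, sq, ← Phi_iter_mul, T_mul_self hx', ← Function.iterate_succ_apply]
    congr 3
    ext j
    congr 1
    ring


/-- The zeroth basis vector. -/
noncomputable def e0 : H := lp.single 2 0 (1 : ℂ)

lemma e0_zero : e0 0 = 1 := lp.single_apply_self (E := fun _ : ℕ => ℂ) 2 0 (1 : ℂ)
lemma e0_ne {n : ℕ} (h : n ≠ 0) : e0 n = 0 :=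
  lp.single_apply_ne (E := fun _ : ℕ => ℂ) 2 0 (1 : ℂ) h

lemma ev_e0 : ev e0 = e0 := by
  ext n
  rw [ev_apply]
  by_cases h : n = 0
  · subst h; simp
  · rw [e0_ne h, e0_ne (by omega)]

lemma od_e0 : od e0 = 0 := by
  ext n
  rw [od_apply, e0_ne (by omega)]
  rfl

lemma inner_e0 (f : H) : ⟪e0, f⟫_ℂ = f 0 := by
  unfold e0
  rw [lp.inner_single_left]
  simp

lemma inner_e0_T {x : ℕ → ℂ} {M : ℝ} (hx : ∀ j, ‖x j‖ ≤ M + j) : ⟪e0, T x e0⟫_ℂ = x 0 := by
  rw [inner_e0]
  have h : (T x e0) 0 = ev (T x e0) 0 := by simp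
  rw [h, ev_T hx, od_e0, ev_e0]
  simp [e0_zero]

lemma inner_ev_od (f g : H) : ⟪f, g⟫_ℂ = ⟪ev f, ev g⟫_ℂ + ⟪od f, od g⟫_ℂ := by
  rw [lp.inner_eq_tsum, lp.inner_eq_tsum, lp.inner_eq_tsum]
  symm
  apply tsum_even_add_odd (f := fun n => ⟪f n, g n⟫_ℂ)
  · exact (lp.hasSum_inner (ev f) (ev g)).summable
  · exact (lp.hasSum_inner (od f) (od g)).summable

lemma inner_Phi_iter (A : H →L[ℂ] H) (a : ℕ) : ∀ f : H, (∀ n, 2 ^ a ≤ n → f n = 0) →
    ⟪f, Phi^[a] A f⟫_ℂ = ⟪e0, A e0⟫_ℂ * (‖f‖ : ℂ) ^ 2 := by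
  induction a with
  | zero =>
    intro f hf
    have h : f = f 0 • e0 := by
      ext n
      by_cases h : n = 0
      · subst h
        show f 0 = f 0 * e0 0
        rw [e0_zero, mul_one]
      · show f n = f 0 * e0 n
        rw [e0_ne h, mul_zero, hf n (by omega)]
    have hn : ‖f‖ = ‖f 0‖ := by
      conv_lhs => rw [h]
      rw [norm_smul]
      unfold e0
      rw [lp.norm_single (by norm_num)]
      simp
    simp only [Function.iterate_zero, id_eq]
    rw [hn]
    conv_lhs => rw [h]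
    rw [map_smul, inner_smul_left, inner_smul_right, ← Complex.mul_conj']
    ring
  | succ n ih =>
    intro f hf
    rw [Function.iterate_succ_apply', inner_ev_od, ev_Phi, od_Phi, ih (ev f), ih (od f)]
    · rw [← mul_add]
      congr 1
      have := norm_sq_ev_od f
      exact_mod_cast this.symm
    · intro m hm
      rw [od_apply]
      apply hf
      rw [pow_succ]
      omega
    · intro m hm
      rw [ev_apply]
      apply hf
      rw [pow_succ]
      omega

/-- Truncation approximates. -/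
lemma exists_trunc (f : H) {η : ℝ} (hη : 0 < η) :
    ∃ (g : H) (N : ℕ), (∀ n, N ≤ n → g n = 0) ∧ ‖f - g‖ < η := by
  have h := (lp.hasSum_single (p := 2) (by norm_num) f).tendsto_sum_nat
  rw [Metric.tendsto_atTop] at h
  obtain ⟨N, hN⟩ := h η hη
  refine ⟨∑ i ∈ Finset.range N, lp.single 2 i (f i), N, ?_, ?_⟩
  · intro n hn
    rw [lp.coeFn_sum, Finset.sum_apply]
    apply Finset.sum_eq_zero
    intro i hi
    rw [Finset.mem_range] at hi
    have hne : n ≠ i := by omega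
    exact lp.single_apply_ne (E := fun _ : ℕ => ℂ) 2 i (f i) hne
  · have := hN N le_rfl
    rwa [dist_comm, dist_eq_norm] at this

/-- The sequence of prescribed compressions. -/
noncomputable def seqS (m : ℕ) : ℂ :=
  if ‖TopologicalSpace.denseSeq ℂ (Nat.unpair m).1‖ ≤ m then
    TopologicalSpace.denseSeq ℂ (Nat.unpair m).1 else 0

lemma norm_seqS_le (m : ℕ) : ‖seqS m‖ ≤ m := by
  unfold seqS
  split_ifs with h
  · exact h
  · simp

noncomputable def seqX (a : ℕ) : ℂ := if 2 ^ (Nat.log 2 a) = a then seqS (Nat.log 2 a) else 0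

lemma seqX_pow (m : ℕ) : seqX (2 ^ m) = seqS m := by
  unfold seqX
  rw [Nat.log_pow (by norm_num)]
  simp

lemma norm_seqX_le (a : ℕ) : ‖seqX a‖ ≤ a := by
  unfold seqX
  split_ifs with h
  · refine (norm_seqS_le _).trans ?_
    have : Nat.log 2 a ≤ a := Nat.log_le_self 2 a
    exact_mod_cast this
  · simp

lemma norm_seqX_add_le (m j : ℕ) : ‖seqX (j + 2 ^ m)‖ ≤ ‖seqX (2 ^ m)‖ + j := by
  rcases Nat.eq_zero_or_pos j with hj | hj
  · subst hj; simp
  · have h0 : 0 ≤ ‖seqX (2 ^ m)‖ := norm_nonneg _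
    have key : ‖seqX (j + 2 ^ m)‖ ≤ j := by
      by_cases h : 2 ^ (Nat.log 2 (j + 2 ^ m)) = j + 2 ^ m
      · generalize Nat.log 2 (j + 2 ^ m) = i at h
        rw [← h, seqX_pow]
        refine (norm_seqS_le _).trans ?_
        have hlt : 2 ^ m < 2 ^ i := by omega
        have hmi : m < i := (Nat.pow_lt_pow_iff_right (by norm_num)).mp hlt
        obtain ⟨k, rfl⟩ : ∃ k, i = k + 1 := ⟨i - 1, by omega⟩
        have h1 : 2 ^ m ≤ 2 ^ k := Nat.pow_le_pow_right (by norm_num) (by omega)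
        have h2 : k < 2 ^ k := Nat.lt_two_pow_self
        have h3 : k + 1 ≤ j := by
          rw [pow_succ] at h
          omega
        exact_mod_cast h3
      · unfold seqX
        rw [if_neg h]
        simp
    linarith

lemma exists_special (z : ℂ) {ε : ℝ} (hε : 0 < ε) (N : ℕ) :
    ∃ a, N ≤ a ∧ ‖seqX a - z‖ < ε ∧ ∀ j : ℕ, ‖seqX (j + a)‖ ≤ (‖z‖ + ε) + j := by
  obtain ⟨i, hi⟩ : ∃ i, ‖TopologicalSpace.denseSeq ℂ i - z‖ < ε := by
    have := (TopologicalSpace.denseRange_denseSeq ℂ).exists_dist_lt z hε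
    obtain ⟨i, hi⟩ := this
    refine ⟨i, ?_⟩
    rwa [dist_comm, dist_eq_norm] at hi
  obtain ⟨n, hn⟩ := exists_nat_ge (max (N : ℝ) ‖TopologicalSpace.denseSeq ℂ i‖)
  set m := Nat.pair i n with hm
  have hnm : n ≤ m := Nat.right_le_pair i n
  have hS : seqS m = TopologicalSpace.denseSeq ℂ i := by
    unfold seqS
    rw [hm, Nat.unpair_pair]
    simp only
    rw [if_pos]
    calc ‖TopologicalSpace.denseSeq ℂ i‖ ≤ (n : ℝ) := (le_max_right _ _).trans hn
      _ ≤ (m : ℝ) := by exact_mod_cast hnm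
  refine ⟨2 ^ m, ?_, ?_, ?_⟩
  · have h1 : N ≤ n := by exact_mod_cast (le_max_left _ _).trans hn
    have h2 : m < 2 ^ m := Nat.lt_two_pow_self
    omega
  · rw [seqX_pow, hS]; exact hi
  · intro j
    refine (norm_seqX_add_le m j).trans ?_
    rw [seqX_pow, hS]
    have : ‖TopologicalSpace.denseSeq ℂ i‖ ≤ ‖z‖ + ε := by
      have := norm_sub_norm_le (TopologicalSpace.denseSeq ℂ i) z
      linarith
    linarith

/-- There is a bounded linear operator T on complex ℓ²(ℕ) such that, for every unit vector x, the set of numbers ⟨Tⁿx, x⟩ over n in ℕ is dense in ℂ. -/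
theorem result :
    ∃ T : lp (fun _ : ℕ => ℂ) 2 →L[ℂ] lp (fun _ : ℕ => ℂ) 2,
      ∀ x : lp (fun _ : ℕ => ℂ) 2, ‖x‖ = 1 →
        Dense (Set.range (fun n : ℕ => ⟪x, (T ^ n) x⟫_ℂ)) := by
  refine ⟨T seqX, ?_⟩
  intro f hf
  rw [Metric.dense_iff]
  intro z ε hε
  have hX : ∀ j : ℕ, ‖seqX j‖ ≤ 0 + (j : ℝ) := by
    intro j; rw [zero_add]; exact norm_seqX_le j
  set M : ℝ := ‖z‖ + ε / 2 with hM
  have hM0 : 0 ≤ M := by positivity
  set C : ℝ := ∑' j, bnd M j with hC
  have hC0 : 0 ≤ C := tsum_nonneg (fun j => by unfold bnd; positivity)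
  set η : ℝ := min 1 (ε / (6 * (C + M + 1))) with hη
  have hη0 : 0 < η := by
    rw [hη]
    apply lt_min one_pos
    positivity
  have hη1 : η ≤ 1 := min_le_left _ _
  have hη2 : 3 * (C + M) * η < ε / 2 := by
    have h1 : η ≤ ε / (6 * (C + M + 1)) := min_le_right _ _
    have h2 : η * (6 * (C + M + 1)) ≤ ε := by
      rwa [le_div_iff₀ (by positivity)] at h1
    nlinarith
  obtain ⟨g, N, hgN, hfg⟩ := exists_trunc f hη0
  obtain ⟨a, haN, haz, haj⟩ := exists_special z (half_pos hε) N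
  set Y : H →L[ℂ] H := T seqX ^ (2 ^ a) with hY
  have hYeq : Y = Phi^[a] (T (fun j => seqX (j + a))) := T_pow hX a
  have hYn : ‖Y‖ ≤ C := by
    rw [hYeq]
    exact (norm_Phi_iter_le _ _).trans (norm_T_le haj)
  have hg : ⟪g, Y g⟫_ℂ = seqX a * (‖g‖ : ℂ) ^ 2 := by
    rw [hYeq, inner_Phi_iter, inner_e0_T haj]
    · simp
    · intro n hn
      apply hgN
      have h2 : a < 2 ^ a := Nat.lt_two_pow_self
      omega
  have hgn : ‖g‖ ≤ 2 := by
    have := norm_sub_norm_le g f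
    rw [norm_sub_rev] at this
    linarith
  have hgn' : |‖g‖ - 1| ≤ η := by
    have := abs_norm_sub_norm_le g f
    rw [norm_sub_rev, hf] at this
    linarith
  refine ⟨⟪f, Y f⟫_ℂ, ?_, ⟨2 ^ a, rfl⟩⟩
  rw [Metric.mem_ball, dist_eq_norm]
  have e1 : ⟪f, Y f⟫_ℂ - z = ⟪f - g, Y f⟫_ℂ + ⟪g, Y (f - g)⟫_ℂ + seqX a * ((‖g‖ : ℂ) ^ 2 - 1)
      + (seqX a - z) := by
    rw [inner_sub_left, map_sub, inner_sub_right, hg]
    ring
  have b1 : ‖⟪f - g, Y f⟫_ℂ‖ ≤ η * C := by
    refine (norm_inner_le_norm _ _).trans ?_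
    have : ‖Y f‖ ≤ C := by
      have := Y.le_of_opNorm_le hYn f
      rwa [hf, mul_one] at this
    gcongr
  have b2 : ‖⟪g, Y (f - g)⟫_ℂ‖ ≤ 2 * (C * η) := by
    refine (norm_inner_le_norm _ _).trans ?_
    have : ‖Y (f - g)‖ ≤ C * η := by
      refine (Y.le_of_opNorm_le hYn (f - g)).trans ?_
      gcongr
    gcongr
  have hxa : ‖seqX a‖ ≤ M := by
    have := haj 0
    simpa using this
  have b3 : ‖seqX a * ((‖g‖ : ℂ) ^ 2 - 1)‖ ≤ M * (3 * η) := by
    rw [norm_mul]
    have : ‖((‖g‖ : ℂ) ^ 2 - 1)‖ ≤ 3 * η := by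
      have h1 : ((‖g‖ : ℂ) ^ 2 - 1) = (((‖g‖ - 1) * (‖g‖ + 1) : ℝ) : ℂ) := by push_cast; ring
      rw [h1, Complex.norm_real, Real.norm_eq_abs, abs_mul, abs_of_nonneg (by positivity : 0 ≤ ‖g‖ + 1)]
      have h0 := norm_nonneg g
      have habs := abs_nonneg (‖g‖ - 1)
      nlinarith
    gcongr
  rw [e1]
  calc ‖⟪f - g, Y f⟫_ℂ + ⟪g, Y (f - g)⟫_ℂ + seqX a * ((‖g‖ : ℂ) ^ 2 - 1) + (seqX a - z)‖
      ≤ ‖⟪f - g, Y f⟫_ℂ‖ + ‖⟪g, Y (f - g)⟫_ℂ‖ + ‖seqX a * ((‖g‖ : ℂ) ^ 2 - 1)‖ + ‖seqX a - z‖ := by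
        refine (norm_add_le _ _).trans (add_le_add ?_ le_rfl)
        refine (norm_add_le _ _).trans (add_le_add ?_ le_rfl)
        exact norm_add_le _ _
    _ < ε := by nlinarith

end Pool.Agent.S06219
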