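import Pool.Statements.S06768
import Pool.Agent.Helper30.F9.Final

set_option autoImplicit false
open Pool Pool.MP_f96253_an

namespace Pool.Agent.S06768

/-- The negation of the preceding statement: For every nonconstant entire f and every ε>0, there are arbitrarily large r with sup over a of n(r,a) at most (1+ε) times the spherical average of n(r,a); that is, liminf n(r)/A(r) ≤ 1. -/
theorem result :
    ¬ (∀ f : ℂ → ℂ, Differentiable ℂ f → (¬ ∃ c : ℂ, ∀ z : ℂ, f z = c) →
    ∀ ε : ℝ, 0 < ε → ∀ R : ℝ, ∃ r : ℝ, R ≤ r ∧ ∀ a : ℂ,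
      ((∑ᶠ z ∈ Metric.closedBall (0 : ℂ) r, analyticOrderNatAt (fun w => f w - a) z : ℕ) : ENNReal) ≤
        ENNReal.ofReal ((1 + ε) / Real.pi) *
          ∫⁻ b : ℂ,
            ((∑ᶠ z ∈ Metric.closedBall (0 : ℂ) r, analyticOrderNatAt (fun w => f w - b) z : ℕ) : ENNReal) /
              ENNReal.ofReal ((1 + ‖b‖ ^ 2) ^ 2)) := by
  exact Pool.Agent.Helper30.F9.main

end Pool.Agent.S06768
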