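import Pool.Statements.S06782
import Pool.Agent.Helper32.Cotype.Final

set_option autoImplicit false
open Pool Pool.MP_f9ce33_an

namespace Pool.Agent.S06782

/-- The negation of the preceding statement: For 1<p<2 and 1<q≤2, the tensor product of L_p[0,1] and L_q[0,1] with the projective norm has finite cotype. That is, for some finite s≥2 and constant C, the ℓ_s-sum of norms of any finite family is at most C times its Rademacher average. -/
theorem result :
    ¬ (∀ (r : Fin 2 → ENNReal) [∀ i, Fact (1 ≤ r i)],
      1 < r 0 → r 0 < 2 → 1 < r 1 → r 1 ≤ 2 →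
      ∃ s : ℝ, 2 ≤ s ∧ ∃ C : ℝ,
        ∀ (n : ℕ)
          (x : Fin n → PiTensorProduct ℝ
            (fun i : Fin 2 => MeasureTheory.Lp ℝ (r i)
              (MeasureTheory.volume.restrict (Set.Icc (0:ℝ) 1)))),
          (∑ k, (PiTensorProduct.projectiveSeminorm (x k)) ^ s) ^ (1 / s)
            ≤ C * ((∑ ε : Fin n → Bool,
                    (PiTensorProduct.projectiveSeminorm
                      (∑ k, (if ε k then (1:ℝ) else -1) • x k)) ^ 2) / 2 ^ n) ^ ((1:ℝ) / 2)) := by
  intro h
  obtain ⟨s, hs, C, hC⟩ := h (fun _ => Pool.Agent.Cotype.p43)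
    (by
      show (1 : ENNReal) < 4 / 3
      rw [ENNReal.lt_div_iff_mul_lt (by norm_num) (by norm_num)]; norm_num)
    (by
      show (4 : ENNReal) / 3 < 2
      refine ENNReal.div_lt_of_lt_mul ?_; norm_num)
    (by
      show (1 : ENNReal) < 4 / 3
      rw [ENNReal.lt_div_iff_mul_lt (by norm_num) (by norm_num)]; norm_num)
    (by
      show (4 : ENNReal) / 3 ≤ 2
      refine ENNReal.div_le_of_le_mul ?_; norm_num)
  exact Pool.Agent.Cotype.main_neg s hs C hC

end Pool.Agent.S06782
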