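import Pool.Statements.S07191
import Pool.Agent.Helper61.ZMain

set_option autoImplicit false
open Pool Pool.MP_0ed58c_co

namespace Pool.Agent.S07191

/-- For every m, remove a matching of floor((m+1)/2) edges from the complete graph on m+1 vertices. If the edges are coloured by Z_m using at least 3 colours, some spanning tree of the remaining graph has edge colours summing to 0 in Z_m. -/
theorem result :
    ∀ (m : ℕ) (M : SimpleGraph (Fin (m + 1))),
      (∀ v, (M.neighborSet v).Subsingleton) →
      M.edgeSet.ncard = (m + 1) / 2 →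
      ∀ c : Sym2 (Fin (m + 1)) → ZMod m,
        3 ≤ (c '' Mᶜ.edgeSet).ncard →
        ∃ T : SimpleGraph (Fin (m + 1)), T ≤ Mᶜ ∧ T.IsTree ∧
          (∑ᶠ e ∈ T.edgeSet, c e) = 0 := by
  intro m M hM _ c hc
  exact Pool.Agent.Helper61.ZST.main m M hM c hc

end Pool.Agent.S07191
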