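import Pool.Statements.S08166
import Pool.Agent.PathPartitionEq.Main

set_option autoImplicit false
open Pool Pool.MP_398cfe_co

namespace Pool.Agent.S08166

/-- The path partition conjecture with equalities fails: there is a digraph on 48 vertices whose
longest directed path has 46 vertices and which has no partition into two parts whose longest
directed paths have exactly 1 and exactly 45 vertices. -/
theorem result :
    ¬ (∀ (V : Type) [Fintype V] [Nontrivial V] (D : Digraph V) (l1 l2 : ℕ),
      0 < l1 → 0 < l2 →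
      (∃ f : Fin (l1 + l2) → V, Function.Injective f ∧
          ∀ i j : Fin (l1 + l2), j.val = i.val + 1 → D.Adj (f i) (f j)) →
      (∀ (m : ℕ) (f : Fin m → V), Function.Injective f →
          (∀ i j : Fin m, j.val = i.val + 1 → D.Adj (f i) (f j)) → m ≤ l1 + l2) →
      ∃ V1 : Set V,
        ((∃ f : Fin l1 → V, Function.Injective f ∧ (∀ i, f i ∈ V1) ∧
            ∀ i j : Fin l1, j.val = i.val + 1 → D.Adj (f i) (f j)) ∧
         (∀ (m : ℕ) (f : Fin m → V), Function.Injective f → (∀ i, f i ∈ V1) →
            (∀ i j : Fin m, j.val = i.val + 1 → D.Adj (f i) (f j)) → m ≤ l1)) ∧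
        ((∃ f : Fin l2 → V, Function.Injective f ∧ (∀ i, f i ∈ V1ᶜ) ∧
            ∀ i j : Fin l2, j.val = i.val + 1 → D.Adj (f i) (f j)) ∧
         (∀ (m : ℕ) (f : Fin m → V), Function.Injective f → (∀ i, f i ∈ V1ᶜ) →
            (∀ i j : Fin m, j.val = i.val + 1 → D.Adj (f i) (f j)) → m ≤ l2))) := by
  intro h
  obtain ⟨V1, ⟨⟨f1, -, hf1, -⟩, hmax1⟩, ⟨f2, hinj2, hf2, hadj2⟩, hmax2⟩ :=
    h PathPartitionEq.W PathPartitionEq.D 1 45 (by norm_num) (by norm_num)
      (by
        obtain ⟨L, hL, hl⟩ := PathPartitionEq.exists_path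
        obtain ⟨f, hf, -, ha⟩ := PathPartitionEq.exists_fun (m := 1 + 45) L hL (by omega)
        exact ⟨f, hf, ha⟩)
      (by
        intro m f hf ha
        have h1 := PathPartitionEq.isPath_length_le _ (PathPartitionEq.isPath_ofFn f hf ha)
        rw [List.length_ofFn] at h1
        omega)
  have hstable := PathPartitionEq.stable_of_max V1 hmax1
  obtain ⟨L, hL, hl, hLT⟩ := PathPartitionEq.exists_46 V1 hstable (List.ofFn f2)
    (PathPartitionEq.isPath_ofFn f2 hinj2 hadj2) (by simp)
    (by
      intro x hx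
      rw [List.mem_ofFn] at hx
      obtain ⟨i, rfl⟩ := hx
      exact hf2 i)
  obtain ⟨f, hf, hmem, ha⟩ := PathPartitionEq.exists_fun (m := 46) L hL hl
  have h1 := hmax2 46 f hf (fun i => hLT _ (hmem i)) ha
  omega

end Pool.Agent.S08166
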