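import Pool.Statements.S08658
import Pool.Agent.Helper78.Makeev.Final

set_option autoImplicit false
open Pool Pool.MP_4d4f59_co

namespace Pool.Agent.S08658

/-- The negation of the preceding statement: For every continuous odd function f on the unit sphere of R^n and every regular unit-edge simplex v_1..v_{n+1}, some rotation A of determinant 1 makes all hyperplanes <x, A(v_j - v_i)> = f(A(v_j - v_i)), i<j, share a common point. -/
theorem result :
    ¬ (∀ (n : ℕ) (f : EuclideanSpace ℝ (Fin n) → ℝ),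
      ContinuousOn f (Metric.sphere (0 : EuclideanSpace ℝ (Fin n)) 1) →
      (∀ x ∈ Metric.sphere (0 : EuclideanSpace ℝ (Fin n)) 1, f (-x) = -f x) →
      ∀ v : Fin (n + 1) → EuclideanSpace ℝ (Fin n),
        (∀ i j : Fin (n + 1), i ≠ j → dist (v i) (v j) = 1) →
        ∃ A : EuclideanSpace ℝ (Fin n) ≃ₗᵢ[ℝ] EuclideanSpace ℝ (Fin n),
          LinearMap.det (A.toLinearEquiv :
              EuclideanSpace ℝ (Fin n) →ₗ[ℝ] EuclideanSpace ℝ (Fin n)) = 1 ∧
          ∃ x : EuclideanSpace ℝ (Fin n), ∀ i j : Fin (n + 1), i < j →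
            inner ℝ x (A (v j - v i)) = f (A (v j - v i))) := by
  intro hmain
  obtain ⟨ε, hε⟩ := Pool.Agent.Helper78.Makeev.no_concurrent
  obtain ⟨A, -, x, hx⟩ := hmain 4 (Pool.Agent.Helper78.Makeev.ff ε)
    (Pool.Agent.Helper78.Makeev.ff_cont ε).continuousOn
    (fun u _ => Pool.Agent.Helper78.Makeev.ff_neg ε u)
    Pool.Agent.Helper78.Makeev.vtx
    Pool.Agent.Helper78.Makeev.vtx_dist
  exact hε A x hx

end Pool.Agent.S08658
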