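import Pool.Statements.S08794
import Pool.Agent.Helper95.Wedge.Model

set_option autoImplicit false
open Pool Pool.MP_548113_co

namespace Pool.Agent.S08794

/-!
Outline of the counterexample (all details are in `Pool/Agent/Helper95/Wedge/`).

* `T` is the alternating group of degree five, `Om` is the set of functions from the ten facets of the
  six-vertex real projective plane to `ZMod 5`, `A` is the sixth power of `Perm Om`, `B₀` is the
  sixth power of the stabiliser of `0`, and `X = A / H_A`, where `H_A` is the group of those
  translations by `v` in `Om ^ 6` with `∑ v j F = 0` (sum over the vertices `j` outside `F`) for every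
  facet `F`.  A coordinate subgroup `B_σ` between `B₀` and `A` has at least five orbits on `X` when `σ`
  is a face and is transitive when `σ` is not a face.
* `P` is the permutational wreath product of `T` by `A` on `X`, `D` its diagonal copy of `T`, and the
  interval is between `P` and the twisted wreath product `Ind(T) ⋊ P` along `D × B₀ → Inn T`.
* The open interval is homotopy equivalent to the dual of the poset of pairs `(S, B)` where `B₀ ≤ B ≤ A`,
  `S` is a proper `B`-invariant subset of `X` and `(S, B) ≠ (∅, B₀)`.  Its second cohomology is nonzero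
  over the field with two elements and zero over the field with three elements, as for the
  suspension of the real projective plane; this never happens for a finite wedge of spheres.
* The cohomology used is elementary Alexander-Spanier cohomology in degrees 0, 1, 2, developed from
  scratch in `Basic.lean`, `Nerve.lean`, `Metric.lean`.
-/

/-- The negation of the preceding statement: For every finite group G and subgroups H,K, the geometric realization of the order complex of the open interval (H,K) in Sub(G) is empty or homotopy equivalent to a finite wedge of spheres S^{d_i} (d_i ≥ 0, n=0 giving a point). -/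
theorem result :
    ¬ (∀ (G : Type) [Group G] [Finite G] (H K : Subgroup G),
      IsEmpty {f : Subgroup G → ℝ | (∀ L, 0 ≤ f L) ∧ (∀ L, f L ≠ 0 → H < L ∧ L < K) ∧
          IsChain (· ≤ ·) {L : Subgroup G | f L ≠ 0} ∧ ∑ᶠ L, f L = 1} ∨
      ∃ (n : ℕ) (d : Fin n → ℕ),
        Nonempty (ContinuousMap.HomotopyEquiv
          {f : Subgroup G → ℝ | (∀ L, 0 ≤ f L) ∧ (∀ L, f L ≠ 0 → H < L ∧ L < K) ∧
            IsChain (· ≤ ·) {L : Subgroup G | f L ≠ 0} ∧ ∑ᶠ L, f L = 1}
          {x : (i : Fin n) → EuclideanSpace ℝ (Fin (d i + 1)) |
            (∀ i, ‖x i‖ = 1) ∧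
              ∀ i j, i ≠ j → x i = EuclideanSpace.single 0 1 ∨ x j = EuclideanSpace.single 0 1})) := by
  intro hall
  have hsimple : IsSimpleGroup (alternatingGroup (Fin 5)) := alternatingGroup.isSimpleGroup (by simp)
  have hT := Helper95.Wedge.A5_noncomm
  let T : Type := alternatingGroup (Fin 5)
  let G : Type := Helper95.Wedge.GG (alternatingGroup (Fin 5)) Helper95.Wedge.AA Helper95.Wedge.XX
  let H : Subgroup G := Helper95.Wedge.Hbig (alternatingGroup (Fin 5)) Helper95.Wedge.AA
    Helper95.Wedge.XX
  let K : Subgroup G := Helper95.Wedge.Kbig (alternatingGroup (Fin 5)) Helper95.Wedge.XX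
    (Helper95.Wedge.Bsub ∅)
  have hfin : Finite (Subgroup G) := inferInstance
  let _ : Fintype (Subgroup G) := Fintype.ofFinite _
  let R : Set (Subgroup G → ℝ) := Helper95.Wedge.Rz
    (Helper95.Wedge.II (alternatingGroup (Fin 5)) Helper95.Wedge.XX (Helper95.Wedge.Bsub ∅))
  have h3 : Helper95.Wedge.H2 (ZMod 3) (Helper95.Wedge.near R) :=
    (Helper95.Wedge.H2_Rz _).2 ((Helper95.Wedge.H2_II hT).2
      (Helper95.Wedge.QQ_three Helper95.Wedge.data))
  have h2 : ¬ Helper95.Wedge.H2 (ZMod 2) (Helper95.Wedge.near R) := fun h =>
    Helper95.Wedge.QQ_two Helper95.Wedge.data ((Helper95.Wedge.H2_II hT).1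
      ((Helper95.Wedge.H2_Rz _).1 h))
  rcases hall G H K with hemp | ⟨n, d, ⟨e⟩⟩
  · apply h2
    have : R = ∅ := Set.isEmpty_coe_sort.1 hemp
    rw [this, Helper95.Wedge.near_empty]
    exact Helper95.Wedge.H2_bot _
  · have e' : ContinuousMap.HomotopyEquiv R (Helper95.Wedge.Wd d) := e
    apply h2
    have w3 : Helper95.Wedge.H2 (ZMod 3) (Helper95.Wedge.near (Helper95.Wedge.Wd d)) :=
      Helper95.Wedge.H2_of_homotopyEquiv (Helper95.Wedge.isCompact_Rz _)
        (Helper95.Wedge.isCompact_Wd d) (Helper95.Wedge.isClosed_Rz _)
        (Helper95.Wedge.isClosed_Wd d) e' h3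
    have w2 : Helper95.Wedge.H2 (ZMod 2) (Helper95.Wedge.near (Helper95.Wedge.Wd d)) :=
      Helper95.Wedge.wedge_field d w3
    exact Helper95.Wedge.H2_of_homotopyEquiv (Helper95.Wedge.isCompact_Wd d)
        (Helper95.Wedge.isCompact_Rz _) (Helper95.Wedge.isClosed_Wd d)
        (Helper95.Wedge.isClosed_Rz _) e'.symm w2

end Pool.Agent.S08794
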