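import Pool.Statements.S09263
import Pool.Agent.Helper6.Kleitman.Transport

set_option autoImplicit false
open Pool Pool.MP_67d0bb_co

namespace Pool.Agent.S09263

/-- For n ≥ 1 and every maximal intersecting family F of subsets of [n], there are convex weights w on [n] and a nonnegative plan v(A,B), supported on B ⊆ A, with row sums the indicator of F and column sums B ↦ sum of w over B. -/
theorem result : ∀ n : ℕ, 0 < n →
    ∀ F : Finset (Finset (Fin n)),
      (∀ A ∈ F, ∀ B ∈ F, (A ∩ B).Nonempty) →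
      (∀ G : Finset (Finset (Fin n)), F ⊆ G →
          (∀ A ∈ G, ∀ B ∈ G, (A ∩ B).Nonempty) → G = F) →
      ∃ w : Fin n → ℝ, (∀ i, 0 ≤ w i) ∧ (∑ i, w i) = 1 ∧
        ∃ v : Finset (Fin n) → Finset (Fin n) → ℝ,
          (∀ A B, 0 ≤ v A B) ∧
          (∀ A, (∑ B, v A B) = if A ∈ F then (1 : ℝ) else 0) ∧
          (∀ B, (∑ A, v A B) = ∑ i, if i ∈ B then w i else 0) ∧
          (∀ A B, ¬ B ⊆ A → v A B = 0) := by
  intro n hn F hint hmax
  exact Pool.Agent.Helper6.Kleitman.kleitman hn F hint hmax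

end Pool.Agent.S09263
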