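import Pool.Statements.S09740
import Pool.Agent.Helper61.BHGraph

set_option autoImplicit false
open Pool Pool.MP_7feb78_co

namespace Pool.Agent.S09740

open Pool.Agent.Helper61.BH in
/-- With `d = 321`, `d / 2 = 160`, the ladder graphs with `k = 10` rungs of `202` vertices have
`2 + 2020 N` vertices and at most `1 + 2032 N` edges, and `2032 / 2020 < 161 / 160`. -/
lemma bound (N : ℕ) :
    ((sInf {m : ℕ | ∃ G : SimpleGraph (Fin (2 + N * (10 * (2 * 100 + 2)))), G.edgeSet.ncard = m ∧
              ∀ v : Fin (2 + N * (10 * (2 * 100 + 2))),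
                (G.induce ({v}ᶜ : Set (Fin (2 + N * (10 * (2 * 100 + 2)))))).ediam
                  ≤ ((321 : ℕ) : ℕ∞)} : ℕ) : ℝ)
            / ((2 + N * (10 * (2 * 100 + 2)) : ℕ) : ℝ) ≤ 1.006 := by
  have h := fhat_le N 10 100
  have h2 : fhat (2 + N * (10 * (2 * 100 + 2))) 321 ≤ 1 + 2032 * N := by
    refine le_trans h ?_
    omega
  have h3 : ((fhat (2 + N * (10 * (2 * 100 + 2))) 321 : ℕ) : ℝ) ≤ 1 + 2032 * (N : ℝ) := by
    exact_mod_cast h2
  have hpos : (0 : ℝ) < ((2 + N * (10 * (2 * 100 + 2)) : ℕ) : ℝ) := by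
    positivity
  rw [div_le_iff₀ hpos]
  refine le_trans h3 ?_
  push_cast
  have hN : (0 : ℝ) ≤ (N : ℝ) := Nat.cast_nonneg N
  nlinarith

/-- The negation of the preceding statement: For every d ≥ 5, the least number of edges of an n-vertex graph in which deleting any one vertex leaves a graph of diameter at most d, divided by n, tends to (a+1)/a, where a = floor(d/2). -/
theorem result :
    ¬ (∀ d : ℕ, 5 ≤ d →
      Filter.Tendsto
        (fun n : ℕ =>
          ((sInf {m : ℕ | ∃ G : SimpleGraph (Fin n), G.edgeSet.ncard = m ∧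
              ∀ v : Fin n, (G.induce ({v}ᶜ : Set (Fin n))).ediam ≤ (d : ℕ∞)} : ℕ) : ℝ)
            / (n : ℝ))
        Filter.atTop
        (nhds ((((d / 2 : ℕ) : ℝ) + 1) / ((d / 2 : ℕ) : ℝ)))) := by
  intro h
  have h1 := h 321 (by norm_num)
  have hseq : Filter.Tendsto (fun N : ℕ => 2 + N * (10 * (2 * 100 + 2))) Filter.atTop
      Filter.atTop := by
    refine Filter.tendsto_atTop_mono (f := fun N : ℕ => N) (fun N => ?_) Filter.tendsto_id
    omega
  have h2 := h1.comp hseq
  have h3 := le_of_tendsto' h2 (fun N => bound N)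
  norm_num at h3

end Pool.Agent.S09740
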