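import Pool.Statements.S11629
import Pool.Agent.Helper75.Ch.MainK

set_option autoImplicit false
open Pool Pool.MP_d275fd_co

namespace Pool.Agent.S11629

open Pool.Agent.Helper75.Ch

theorem cycle_length_le {V : Type*} [Fintype V] {G : SimpleGraph V} {v : V} {c : G.Walk v v}
    (hc : c.IsCycle) : c.length ≤ Fintype.card V := by
  have h1 := hc.support_nodup
  have h2 : c.support.tail.length = c.length := by
    rw [List.length_tail, SimpleGraph.Walk.length_support]
    simp
  rw [← h2]
  exact h1.length_le_card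

theorem chords_map {V : Type*} (G : SimpleGraph V) (X : Finset V)
    {v : {x // x ∈ X}} (c : (G.comap (Subtype.val : {x // x ∈ X} → V)).Walk v v)
    (hc : c.IsCycle) [Finite V] :
    ∃ (v' : V) (c' : G.Walk v' v'), c'.IsCycle ∧ c'.length = c.length ∧
      {e | e ∈ (G.comap (Subtype.val : {x // x ∈ X} → V)).edgeSet ∧
        (∀ x ∈ e, x ∈ c.support) ∧ e ∉ c.edges}.ncard ≤
      {e : Sym2 V | e ∈ G.edgeSet ∧ (∀ x ∈ e, x ∈ c'.support) ∧ e ∉ c'.edges}.ncard := by
  let f : (G.comap (Subtype.val : {x // x ∈ X} → V)) →g G :=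
    ⟨Subtype.val, fun {a b} h => h⟩
  have hf : Function.Injective f := Subtype.val_injective
  refine ⟨_, c.map f, (SimpleGraph.Walk.isCycle_map_iff_of_injective hf).mpr hc,
    SimpleGraph.Walk.length_map _ _, ?_⟩
  refine Set.ncard_le_ncard_of_injOn (Sym2.map f) ?_ ?_ (Set.toFinite _)
  · rintro e ⟨he, hs, hn⟩
    refine ⟨?_, ?_, ?_⟩
    · induction e using Sym2.ind with
      | h a b => exact he
    · intro x hx
      rw [Sym2.mem_map] at hx
      obtain ⟨y, hy, rfl⟩ := hx
      rw [SimpleGraph.Walk.support_map]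
      exact List.mem_map_of_mem (hs y hy)
    · rw [SimpleGraph.Walk.edges_map]
      intro h
      obtain ⟨e', he', heq⟩ := List.mem_map.mp h
      exact hn (Sym2.map.injective hf heq ▸ he')
  · intro a _ b _ h
    exact Sym2.map.injective hf h

/-- There is f from naturals to naturals tending to infinity such that every finite nonempty graph with all degrees at least 3 has a cycle of some length l with at least f(l) chords (graph edges joining cycle vertices but not on the cycle). -/
theorem result :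
    ∃ f : ℕ → ℕ, Filter.Tendsto f Filter.atTop Filter.atTop ∧
      ∀ (V : Type) [Fintype V] [DecidableEq V] [Nonempty V]
        (G : SimpleGraph V) [DecidableRel G.Adj],
        (∀ v : V, 3 ≤ G.degree v) →
        ∃ (v : V) (c : G.Walk v v), c.IsCycle ∧
          f c.length ≤
            {e : Sym2 V | e ∈ G.edgeSet ∧ (∀ x ∈ e, x ∈ c.support) ∧ e ∉ c.edges}.ncard := by
  classical
  obtain ⟨g0, hmain⟩ := main_K
  choose n0 hn0 using hmain
  let N : ℕ → ℕ := fun K => g0 + K + ∑ j ∈ Finset.range (K + 1), n0 j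
  have hN : ∀ K, n0 K ≤ N K ∧ g0 ≤ N K ∧ K ≤ N K := by
    intro K
    have : n0 K ≤ ∑ j ∈ Finset.range (K + 1), n0 j :=
      Finset.single_le_sum (f := n0) (fun _ _ => Nat.zero_le _) (by simp)
    simp only [N]
    omega
  let f : ℕ → ℕ := fun l => Nat.findGreatest (fun K => N K ≤ l) l
  have hfspec : ∀ l, f l ≠ 0 → N (f l) ≤ l := fun l h =>
    Nat.findGreatest_of_ne_zero (P := fun K => N K ≤ l) (n := l) (m := f l) rfl h
  have hfge : ∀ K l, N K ≤ l → K ≤ f l := fun K l h =>
    Nat.le_findGreatest ((hN K).2.2.trans h) h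
  have hfmono : Monotone f := by
    intro a b hab
    rcases Nat.eq_zero_or_pos (f a) with h | h
    · rw [h]; exact Nat.zero_le _
    · exact hfge _ _ ((hfspec a h.ne').trans hab)
  refine ⟨f, Filter.tendsto_atTop_atTop.mpr fun K => ⟨N K, fun l hl => hfge K l hl⟩, ?_⟩
  intro V _ _ _ G _ hdeg
  by_cases hshort : NoShort G g0
  · have hdeg' : ∀ v, 3 ≤ (nbv G v).card := by
      intro v
      have h := hdeg v
      rw [← SimpleGraph.card_neighborFinset_eq_degree] at h
      refine h.trans (le_of_eq ?_)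
      congr 1
      ext y
      rw [SimpleGraph.mem_neighborFinset, mem_nbv]
    obtain ⟨X, hX, hPM⟩ := Pool.Agent.Helper19.Ch.exists_PM G hdeg'
    have hNS : NoShort (G.comap (Subtype.val : {x // x ∈ X} → V)) g0 := by
      intro v c hc
      obtain ⟨v', c', hc', hl, _⟩ := chords_map G X c hc
      rw [← hl]
      exact hshort v' c' hc'
    have hne : Nonempty {x // x ∈ X} := ⟨⟨hX.choose, hX.choose_spec⟩⟩
    obtain ⟨v, c, hc, hK⟩ : ∃ (v : {x // x ∈ X})
        (c : (G.comap (Subtype.val : {x // x ∈ X} → V)).Walk v v), c.IsCycle ∧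
        f (Fintype.card {x // x ∈ X}) ≤
        {e | e ∈ (G.comap (Subtype.val : {x // x ∈ X} → V)).edgeSet ∧
          (∀ x ∈ e, x ∈ c.support) ∧ e ∉ c.edges}.ncard := by
      rcases Nat.eq_zero_or_pos (f (Fintype.card {x // x ∈ X})) with h | h
      · obtain ⟨v, c, hc⟩ := Pool.Agent.Helper19.Ch.pm_cycle _ hPM hne
        exact ⟨v, c, hc, by rw [h]; exact Nat.zero_le _⟩
      · exact hn0 _ _ hPM ((hN _).1.trans (hfspec _ h.ne')) hNS
    obtain ⟨v', c', hc', hl, hle⟩ := chords_map G X c hc
    refine ⟨v', c', hc', ?_⟩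
    rw [hl]
    exact ((hfmono (cycle_length_le hc)).trans hK).trans hle
  · simp only [NoShort, not_forall, not_le] at hshort
    obtain ⟨v, c, hc, hlt⟩ := hshort
    refine ⟨v, c, hc, ?_⟩
    have : f c.length = 0 := by
      by_contra h
      have h1 := hfspec _ h
      have h2 := (hN (f c.length)).2.1
      omega
    rw [this]
    exact Nat.zero_le _

end Pool.Agent.S11629
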