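import Pool.Statements.S12163
import Pool.Agent.Helper74.CrossFam

set_option autoImplicit false
open Pool Pool.MP_e859cd_co

namespace Pool.Agent.S12163

open Pool.Agent.Helper74.Cross Finset Function Filter

/-- For 0<t<r there are fixed a,b and sets X_n in [n] such that, for large n, r-sets meeting X_n in at least a points and r-sets meeting its complement in at least b points never meet in exactly t points, and their sizes' product is asymptotic to the max product p(n,r,t). -/
theorem result :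
  ∀ r t : ℕ, 0 < t → t < r →
    ∃ a b : ℕ, ∃ X : ℕ → Finset ℕ,
      (∀ n, X n ⊆ Finset.range n) ∧
      (∀ᶠ n in Filter.atTop,
        ∀ A ∈ ((Finset.range n).powersetCard r).filter (fun A => a ≤ (A ∩ X n).card),
        ∀ B ∈ ((Finset.range n).powersetCard r).filter
            (fun B => b ≤ (B ∩ (Finset.range n \ X n)).card),
          (A ∩ B).card ≠ t) ∧
      Filter.Tendsto
        (fun n : ℕ =>
          ((((((Finset.range n).powersetCard r).powerset ×ˢ
                ((Finset.range n).powersetCard r).powerset).filter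
              (fun P : Finset (Finset ℕ) × Finset (Finset ℕ) =>
                ∀ A ∈ P.1, ∀ B ∈ P.2, (A ∩ B).card ≠ t)).sup
              (fun P => P.1.card * P.2.card) : ℕ) : ℝ) /
          (((((Finset.range n).powersetCard r).filter
                (fun A => a ≤ (A ∩ X n).card)).card : ℝ) *
           ((((Finset.range n).powersetCard r).filter
                (fun B => b ≤ (B ∩ (Finset.range n \ X n)).card)).card : ℝ)))
        Filter.atTop (nhds 1) := by
  intro r t ht0 htr
  obtain ⟨p, j, k, hp0, hp1, hkj, hjr, hmax⟩ := cube_main (r := r) (D := r + 1 - t)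
    (by omega) (by omega)
  -- the two limits
  set S₁ : Set (Fin r → Bool) := {x | j ≤ wt x} with hS₁
  set S₂ : Set (Fin r → Bool) := {x | wt x ≤ k} with hS₂
  have hpc : ∀ i : Fin r, 0 < (fun _ : Fin r => p) i ∧ (fun _ : Fin r => p) i < 1 :=
    fun _ => ⟨hp0, hp1⟩
  have hμ₁ : 0 < mu (fun _ : Fin r => p) S₁ := by
    refine mu_pos hpc (x := fun _ => true) ?_
    simp only [hS₁, Set.mem_setOf_eq, wt, if_true, Finset.sum_const, Finset.card_univ,
      Fintype.card_fin, smul_eq_mul, mul_one]
    exact hjr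
  have hμ₂ : 0 < mu (fun _ : Fin r => p) S₂ := by
    refine mu_pos hpc (x := fun _ => false) ?_
    simp [hS₂, wt]
  -- the sets
  let X : ℕ → Finset ℕ := fun n => Finset.range (Nat.floor (p * n))
  have hfl : ∀ n : ℕ, Nat.floor (p * n) ≤ n := by
    intro n
    have h1 : p * n ≤ n := by
      have : (0 : ℝ) ≤ n := by positivity
      nlinarith
    exact Nat.floor_le_of_le h1
  have hX : ∀ n, X n ⊆ Finset.range n := fun n =>
    Finset.range_subset_range.2 (hfl n)
  have hXcard : ∀ n, ((X n).card : ℝ) / n = (Nat.floor (p * n) : ℝ) / n := by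
    intro n
    simp only [X, Finset.card_range]
  have hvalid : ∀ n, ∀ A ∈ ((Finset.range n).powersetCard r).filter
      (fun A => j ≤ (A ∩ X n).card),
      ∀ B ∈ ((Finset.range n).powersetCard r).filter
      (fun B => r - k ≤ (B ∩ (Finset.range n \ X n)).card), (A ∩ B).card ≠ t := by
    intro n A hA B hB
    rw [Finset.mem_filter, Finset.mem_powersetCard] at hA hB
    have h1 : (A ∩ X n).card + (A \ X n).card = r := by
      rw [Finset.card_inter_add_card_sdiff, hA.1.2]
    have h2 : (B ∩ X n).card + (B \ X n).card = r := by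
      rw [Finset.card_inter_add_card_sdiff, hB.1.2]
    have h3 : (B ∩ (Finset.range n \ X n)).card ≤ (B \ X n).card := by
      refine Finset.card_le_card (fun a ha => ?_)
      rw [Finset.mem_inter, Finset.mem_sdiff] at ha
      exact Finset.mem_sdiff.2 ⟨ha.1, ha.2.2⟩
    have h4 : (A ∩ B).card ≤ (A \ X n).card + (B ∩ X n).card := by
      refine (Finset.card_le_card (fun a ha => ?_)).trans (Finset.card_union_le _ _)
      rw [Finset.mem_inter] at ha
      rw [Finset.mem_union]
      by_cases hax : a ∈ X n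
      · exact Or.inr (Finset.mem_inter.2 ⟨ha.2, hax⟩)
      · exact Or.inl (Finset.mem_sdiff.2 ⟨ha.1, hax⟩)
    omega
  refine ⟨j, r - k, X, hX, Filter.Eventually.of_forall hvalid, ?_⟩
  -- notation for the families
  let F : ℕ → Finset (Finset ℕ) := fun n => ((Finset.range n).powersetCard r).filter
      (fun A => j ≤ (A ∩ X n).card)
  let G : ℕ → Finset (Finset ℕ) := fun n => ((Finset.range n).powersetCard r).filter
      (fun B => r - k ≤ (B ∩ (Finset.range n \ X n)).card)
  let P : ℕ → ℕ := fun n => ((((Finset.range n).powersetCard r).powerset ×ˢ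
      ((Finset.range n).powersetCard r).powerset).filter
        (fun P : Finset (Finset ℕ) × Finset (Finset ℕ) =>
          ∀ A ∈ P.1, ∀ B ∈ P.2, (A ∩ B).card ≠ t)).sup (fun P => P.1.card * P.2.card)
  change Filter.Tendsto (fun n : ℕ => (P n : ℝ) / ((F n).card * (G n).card)) Filter.atTop (nhds 1)
  set m₁ := mu (fun _ : Fin r => p) S₁ with hm₁
  set m₂ := mu (fun _ : Fin r => p) S₂ with hm₂
  have hM0 : 0 ≤ m₁ * m₂ := (mul_pos hμ₁ hμ₂).le
  -- convergence of the measures
  have hfloor : Filter.Tendsto (fun n : ℕ => (Nat.floor (p * n) : ℝ) / n) Filter.atTop (nhds p) :=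
    (tendsto_nat_floor_mul_div_atTop hp0.le).comp tendsto_natCast_atTop_atTop
  have hconst : Filter.Tendsto (fun n : ℕ => (fun _ : Fin r => ((X n).card : ℝ) / n))
      Filter.atTop (nhds (fun _ : Fin r => p)) := by
    rw [tendsto_pi_nhds]
    intro i
    simp only [hXcard]
    exact hfloor
  have hinv : ∀ C : ℝ, Filter.Tendsto (fun n : ℕ => C / (n : ℝ)) Filter.atTop (nhds 0) :=
    fun C => tendsto_const_div_atTop_nhds_zero_nat C
  have ht1 : Filter.Tendsto (fun n : ℕ => mu (fun _ : Fin r => ((X n).card : ℝ) / n) S₁ -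
      (r * r : ℝ) / n) Filter.atTop (nhds m₁) := by
    have := (((continuous_mu S₁).tendsto _).comp hconst).sub (hinv (r * r : ℝ))
    rw [sub_zero] at this
    exact this
  have ht2 : Filter.Tendsto (fun n : ℕ => mu (fun _ : Fin r => ((X n).card : ℝ) / n) S₂ -
      (r * r : ℝ) / n) Filter.atTop (nhds m₂) := by
    have := (((continuous_mu S₂).tendsto _).comp hconst).sub (hinv (r * r : ℝ))
    rw [sub_zero] at this
    exact this
  have hlow1 : ∀ n, 0 < n → (mu (fun _ : Fin r => ((X n).card : ℝ) / n) S₁ -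
      (r * r : ℝ) / n) * (n : ℝ) ^ r ≤ ((F n).card : ℝ) * r.factorial := by
    intro n hn
    refine lower hn (X n) (hX n) S₁ (Finset.filter_subset _ _) (fun x hinj hx => ?_)
    rw [Finset.mem_filter]
    refine ⟨im_mem_powersetCard hinj, ?_⟩
    rw [card_im_inter hinj]
    exact hx
  have hlow2 : ∀ n, 0 < n → (mu (fun _ : Fin r => ((X n).card : ℝ) / n) S₂ -
      (r * r : ℝ) / n) * (n : ℝ) ^ r ≤ ((G n).card : ℝ) * r.factorial := by
    intro n hn
    refine lower hn (X n) (hX n) S₂ (Finset.filter_subset _ _) (fun x hinj hx => ?_)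
    rw [Finset.mem_filter]
    have hps := im_mem_powersetCard hinj
    refine ⟨hps, ?_⟩
    rw [Finset.mem_powersetCard] at hps
    have h1 : (im x ∩ X n).card + (im x \ X n).card = r := by
      rw [Finset.card_inter_add_card_sdiff, hps.2]
    have h2 : im x ∩ (Finset.range n \ X n) = im x \ X n := by
      ext a
      simp only [Finset.mem_inter, Finset.mem_sdiff]
      constructor
      · rintro ⟨h3, -, h5⟩
        exact ⟨h3, h5⟩
      · rintro ⟨h3, h5⟩
        exact ⟨h3, hps.1 h3, h5⟩
    rw [h2]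
    have h3 : (im x ∩ X n).card ≤ k := by
      rw [card_im_inter hinj]
      exact hx
    omega
  have hr0 : (0 : ℝ) < r.factorial := by exact_mod_cast r.factorial_pos
  -- upper bound for `P`
  have hPup : ∀ n, 2 ≤ n → (P n : ℝ) * (r.factorial : ℝ) ^ 2 ≤
      (m₁ * m₂ + (2 ^ r * (r * r) : ℝ) / n) * ((n : ℝ) ^ r) ^ 2 := by
    intro n hn
    obtain ⟨Q, hQ, hQP⟩ := Finset.exists_mem_eq_sup
      ((((Finset.range n).powersetCard r).powerset ×ˢ
      ((Finset.range n).powersetCard r).powerset).filter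
        (fun P : Finset (Finset ℕ) × Finset (Finset ℕ) =>
          ∀ A ∈ P.1, ∀ B ∈ P.2, (A ∩ B).card ≠ t))
      ⟨(∅, ∅), by simp⟩ (fun P => P.1.card * P.2.card)
    rw [Finset.mem_filter, Finset.mem_product, Finset.mem_powerset, Finset.mem_powerset] at hQ
    have h1 := upper ht0 htr hn hM0 hmax hQ.1.1 hQ.1.2 hQ.2
    have h2 : (P n : ℝ) = (Q.1.card : ℝ) * Q.2.card := by
      simp only [P]
      rw [hQP]
      push_cast
      rfl
    rw [h2]
    refine le_trans (le_of_eq ?_) h1
    ring
  have hPlow : ∀ n, (F n).card * (G n).card ≤ P n := by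
    intro n
    have : (F n, G n) ∈ ((((Finset.range n).powersetCard r).powerset ×ˢ
      ((Finset.range n).powersetCard r).powerset).filter
        (fun P : Finset (Finset ℕ) × Finset (Finset ℕ) =>
          ∀ A ∈ P.1, ∀ B ∈ P.2, (A ∩ B).card ≠ t)) := by
      rw [Finset.mem_filter, Finset.mem_product, Finset.mem_powerset, Finset.mem_powerset]
      exact ⟨⟨Finset.filter_subset _ _, Finset.filter_subset _ _⟩, hvalid n⟩
    exact Finset.le_sup (f := fun P : Finset (Finset ℕ) × Finset (Finset ℕ) =>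
      P.1.card * P.2.card) this
  -- squeeze
  have hupper : Filter.Tendsto (fun n : ℕ => (m₁ * m₂ + (2 ^ r * (r * r) : ℝ) / n) /
      ((mu (fun _ : Fin r => ((X n).card : ℝ) / n) S₁ - (r * r : ℝ) / n) *
      (mu (fun _ : Fin r => ((X n).card : ℝ) / n) S₂ - (r * r : ℝ) / n)))
      Filter.atTop (nhds 1) := by
    have h1 : Filter.Tendsto (fun n : ℕ => m₁ * m₂ + (2 ^ r * (r * r) : ℝ) / n)
        Filter.atTop (nhds (m₁ * m₂)) := by
      have := (tendsto_const_nhds (x := m₁ * m₂)).add (hinv (2 ^ r * (r * r) : ℝ))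
      rw [add_zero] at this
      exact this
    have h2 := h1.div (ht1.mul ht2) (mul_pos hμ₁ hμ₂).ne'
    rw [div_self (mul_pos hμ₁ hμ₂).ne'] at h2
    exact h2
  have hev1 : ∀ᶠ n : ℕ in Filter.atTop, 0 < mu (fun _ : Fin r => ((X n).card : ℝ) / n) S₁ -
      (r * r : ℝ) / n := ht1.eventually (lt_mem_nhds hμ₁)
  have hev2 : ∀ᶠ n : ℕ in Filter.atTop, 0 < mu (fun _ : Fin r => ((X n).card : ℝ) / n) S₂ -
      (r * r : ℝ) / n := ht2.eventually (lt_mem_nhds hμ₂)
  have hpos : ∀ᶠ n : ℕ in Filter.atTop, 0 < ((F n).card : ℝ) ∧ 0 < ((G n).card : ℝ) := by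
    filter_upwards [hev1, hev2, Filter.eventually_gt_atTop 0] with n h1 h2 hn
    have hn0 : (0 : ℝ) < n := by exact_mod_cast hn
    have h3 : 0 < ((F n).card : ℝ) * r.factorial :=
      lt_of_lt_of_le (mul_pos h1 (by positivity)) (hlow1 n hn)
    have h4 : 0 < ((G n).card : ℝ) * r.factorial :=
      lt_of_lt_of_le (mul_pos h2 (by positivity)) (hlow2 n hn)
    exact ⟨(mul_pos_iff_of_pos_right hr0).1 h3, (mul_pos_iff_of_pos_right hr0).1 h4⟩
  refine tendsto_of_tendsto_of_tendsto_of_le_of_le' tendsto_const_nhds hupper ?_ ?_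
  · filter_upwards [hpos] with n hn
    rw [le_div_iff₀ (mul_pos hn.1 hn.2), one_mul]
    exact_mod_cast hPlow n
  · filter_upwards [hpos, hev1, hev2, Filter.eventually_ge_atTop 2] with n hn h1 h2 hn2
    have hn0 : (0 : ℝ) < n := by
      have : 0 < n := by omega
      exact_mod_cast this
    rw [div_le_div_iff₀ (mul_pos hn.1 hn.2) (mul_pos h1 h2)]
    have hP := hPup n hn2
    have hl1 := hlow1 n (by omega)
    have hl2 := hlow2 n (by omega)
    set u₁ := mu (fun _ : Fin r => ((X n).card : ℝ) / n) S₁ - (r * r : ℝ) / n with hu₁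
    set u₂ := mu (fun _ : Fin r => ((X n).card : ℝ) / n) S₂ - (r * r : ℝ) / n with hu₂
    have hC0 : 0 ≤ m₁ * m₂ + (2 ^ r * (r * r) : ℝ) / n := by positivity
    have hprod : (u₁ * (n : ℝ) ^ r) * (u₂ * (n : ℝ) ^ r) ≤
        (((F n).card : ℝ) * r.factorial) * (((G n).card : ℝ) * r.factorial) :=
      mul_le_mul hl1 hl2 (by positivity) (by positivity)
    have hN : 0 < ((n : ℝ) ^ r) ^ 2 * (r.factorial : ℝ) ^ 2 := by positivity
    refine le_of_mul_le_mul_right ?_ hN
    calc (P n : ℝ) * (u₁ * u₂) * (((n : ℝ) ^ r) ^ 2 * (r.factorial : ℝ) ^ 2)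
        = ((P n : ℝ) * (r.factorial : ℝ) ^ 2) * ((u₁ * (n : ℝ) ^ r) * (u₂ * (n : ℝ) ^ r)) := by
          ring
      _ ≤ ((m₁ * m₂ + (2 ^ r * (r * r) : ℝ) / n) * ((n : ℝ) ^ r) ^ 2) *
          ((((F n).card : ℝ) * r.factorial) * (((G n).card : ℝ) * r.factorial)) :=
          mul_le_mul hP hprod (by positivity) (by positivity)
      _ = (m₁ * m₂ + (2 ^ r * (r * r) : ℝ) / n) * ((F n).card * (G n).card) *
          (((n : ℝ) ^ r) ^ 2 * (r.factorial : ℝ) ^ 2) := by
          ring

end Pool.Agent.S12163
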