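import Pool.Statements.S12628
import Pool.Agent.Helper80.FE.Graph

set_option autoImplicit false
open Pool Pool.MP_fe5fab_co

namespace Pool.Agent.S12628

/-- The negation of the preceding statement: For every finite graph G in which every nonempty vertex set has a vertex with at most 2 neighbours inside it, some constant C bounds the size of every 3-uniform hypergraph on n vertices with no copy of the expansion of G by C·n². -/
theorem result :
    ¬ (∀ (V : Type) [Finite V] (G : SimpleGraph V),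
      (∀ S : Set V, S.Nonempty →
        ∃ v ∈ S, ({w : V | w ∈ S ∧ G.Adj v w} : Set V).ncard ≤ 2) →
      ∃ C : ℝ, ∀ n : ℕ, ∀ H : Finset (Finset (Fin n)),
        (∀ e ∈ H, e.card = 3) →
        (¬ ∃ f : V → Fin n, ∃ g : V → V → Fin n,
            Function.Injective f ∧
            (∀ u v : V, G.Adj u v → g u v = g v u) ∧
            (∀ u v u' v' : V, G.Adj u v → G.Adj u' v' → g u v = g u' v' →
              ((u = u' ∧ v = v') ∨ (u = v' ∧ v = u'))) ∧
            (∀ u v : V, G.Adj u v →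
              (∀ w : V, g u v ≠ f w) ∧
              ({f u, f v, g u v} : Finset (Fin n)) ∈ H)) →
        (H.card : ℝ) ≤ C * (n : ℝ) ^ 2) := by
  intro hmain
  obtain ⟨C, hC⟩ := hmain Helper80.FE.V3 Helper80.FE.G3 Helper80.FE.G3_twoDeg
  obtain ⟨p, hpC, hp⟩ := Nat.exists_infinite_primes (⌈9 * C⌉₊ + 1)
  haveI : Fact p.Prime := ⟨hp⟩
  have e : Helper80.FE.W (ZMod p) ≃ Fin (3 * p ^ 10) :=
    Fintype.equivFinOfCardEq (Helper80.FE.card_W p)
  have key := hC (3 * p ^ 10) (Helper80.FE.HH e) (by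
      intro s hs
      rw [Helper80.FE.HH, Finset.mem_image] at hs
      obtain ⟨t, -, rfl⟩ := hs
      exact Helper80.FE.trip_card e t) (by
      rintro ⟨f, g, hf, -, -, hh⟩
      exact Helper80.FE.HH_free e f g hf fun u v huv => (hh u v huv).2)
  rw [Helper80.FE.HH_card] at key
  have hp0 : (0 : ℝ) < (p : ℝ) ^ 20 := by
    have : (0 : ℝ) < p := by exact_mod_cast hp.pos
    positivity
  have h1 : (9 * C : ℝ) < p := by
    have h2 : 9 * C ≤ (⌈9 * C⌉₊ : ℝ) := Nat.le_ceil _
    have h3 : ((⌈9 * C⌉₊ + 1 : ℕ) : ℝ) ≤ p := by exact_mod_cast hpC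
    push_cast at h3
    linarith
  have h4 : ((p ^ 21 : ℕ) : ℝ) = p * (p : ℝ) ^ 20 := by push_cast; ring
  have h5 : C * (((3 * p ^ 10 : ℕ) : ℝ)) ^ 2 = (9 * C) * (p : ℝ) ^ 20 := by push_cast; ring
  rw [h4, h5] at key
  exact absurd (le_of_mul_le_mul_right key hp0) (not_le.2 h1)

end Pool.Agent.S12628
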