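import Pool.Statements.S12685
import Pool.Agent.Helper18.LK.Main

set_option autoImplicit false
open Pool Pool.MP_05c474_gt

namespace Pool.Agent.S12685

/-- For metric continua X, Y: if X admits, for every ε>0, a continuous map into [0,1] with all fibers of diameter <ε, and f maps X onto Y confluently, then Y admits such ε-maps too. -/
theorem result :
    ∀ (X Y : Type) [MetricSpace X] [CompactSpace X] [ConnectedSpace X]
      [MetricSpace Y] [CompactSpace Y] [ConnectedSpace Y] (f : X → Y),
      (∀ ε : ℝ, 0 < ε → ∃ g : X → ℝ, Continuous g ∧ Set.range g ⊆ Set.Icc 0 1 ∧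
          ∀ t : ℝ, Metric.diam (g ⁻¹' {t}) < ε) →
      Continuous f →
      Function.Surjective f →
      (∀ K : Set Y, IsCompact K → IsConnected K →
          ∀ x ∈ f ⁻¹' K, f '' connectedComponentIn (f ⁻¹' K) x = K) →
      (∀ ε : ℝ, 0 < ε → ∃ h : Y → ℝ, Continuous h ∧ Set.range h ⊆ Set.Icc 0 1 ∧
          ∀ t : ℝ, Metric.diam (h ⁻¹' {t}) < ε) := by
  intro X Y _ _ _ _ _ _ f hX hf hsurj hconf
  exact CArc.arclike_image hX hf hsurj hconf

end Pool.Agent.S12685
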