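import Pool.Statements.S13173
import Pool.Agent.FM.D3

set_option autoImplicit false
open Pool Pool.MP_533548_gt

namespace Pool.Agent.S13173

/-- Some finitely presented group π has no partial computable procedure that, on every pair of triangulated closed connected 4-manifolds with fundamental group isomorphic to π, halts and correctly says whether they are homeomorphic. -/
theorem result :
  ∃ (n : ℕ) (rels : Finset (FreeGroup (Fin n))),
    ¬ ∃ f : List (List ℕ) → List (List ℕ) →. Bool, Partrec₂ f ∧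
      ∀ (K₁ K₂ : List (List ℕ)) (S₁ S₂ : Set (ℕ → ℝ)),
        S₁ = {x : ℕ → ℝ | ∃ s ∈ K₁, (∀ i, 0 ≤ x i) ∧ (∀ i, i ∉ s → x i = 0) ∧
              ∑ i ∈ s.toFinset, x i = 1} →
        S₂ = {x : ℕ → ℝ | ∃ s ∈ K₂, (∀ i, 0 ≤ x i) ∧ (∀ i, i ∉ s → x i = 0) ∧
              ∑ i ∈ s.toFinset, x i = 1} →
        ConnectedSpace S₁ → ConnectedSpace S₂ →
        (∀ x : S₁, ∃ U : Set S₁, IsOpen U ∧ x ∈ U ∧
            Nonempty (U ≃ₜ EuclideanSpace ℝ (Fin 4))) →
        (∀ x : S₂, ∃ U : Set S₂, IsOpen U ∧ x ∈ U ∧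
            Nonempty (U ≃ₜ EuclideanSpace ℝ (Fin 4))) →
        (∃ x : S₁, Nonempty (FundamentalGroup S₁ x ≃*
            PresentedGroup (rels : Set (FreeGroup (Fin n))))) →
        (∃ x : S₂, Nonempty (FundamentalGroup S₂ x ≃*
            PresentedGroup (rels : Set (FreeGroup (Fin n))))) →
        ((true ∈ f K₁ K₂ ↔ Nonempty (S₁ ≃ₜ S₂)) ∧
         (false ∈ f K₁ K₂ ↔ IsEmpty (S₁ ≃ₜ S₂))) := by
  exact Helper50.FM.final_of_data Pool.Agent.FM.S13173_data

end Pool.Agent.S13173
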