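import Pool.Statements.S13369
import Pool.Agent.Helper18.BL.Main

set_option autoImplicit false
open Pool Pool.MP_70efd9_gt

namespace Pool.Agent.S13369

/-- For n ≥ 3, if K, K1 are convex bodies with K inside the interior of K1 and every section of K1 by a hyperplane supporting K is centrally symmetric, then K1 is an affine image of the closed unit ball (an ellipsoid). -/
theorem result :
    ∀ (n : ℕ), 3 ≤ n → ∀ (K K1 : Set (EuclideanSpace ℝ (Fin n))),
      Convex ℝ K → IsCompact K → (interior K).Nonempty →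
      Convex ℝ K1 → IsCompact K1 → (interior K1).Nonempty →
      K ⊆ interior K1 →
      (∀ (f : EuclideanSpace ℝ (Fin n) →L[ℝ] ℝ) (c : ℝ), f ≠ 0 →
        (∀ x ∈ K, f x ≤ c) → (∃ x ∈ K, f x = c) →
        ∃ p : EuclideanSpace ℝ (Fin n), ∀ x ∈ K1, f x = c →
          ((2 : ℝ) • p - x ∈ K1 ∧ f ((2 : ℝ) • p - x) = c)) →
      ∃ (T : EuclideanSpace ℝ (Fin n) ≃ₗ[ℝ] EuclideanSpace ℝ (Fin n))
        (a : EuclideanSpace ℝ (Fin n)),
        K1 = (fun x => a + T x) '' Metric.closedBall 0 1 := by
  exact fun n hn => Pool.Agent.Helper18.BL.mainN n hn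

end Pool.Agent.S13369
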