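import Pool.Statements.S13451
import Pool.Agent.Helper27.Corson9

set_option autoImplicit false
open Topology
open Pool Pool.MP_7e5847_gt

namespace Pool.Agent.S13451

/-- If a compact Hausdorff X has, for each subset A, a continuous map f to a Corson compactum with f⁻¹(f(A)) = A, then every Hausdorff continuous image of X has the same property. -/
theorem result :
    ∀ (X : Type) [TopologicalSpace X] [CompactSpace X] [T2Space X],
      (∀ A : Set X, ∃ (Y : Type) (_ : TopologicalSpace Y), CompactSpace Y ∧
        (∃ (κ : Type) (e : Y → (κ → ℝ)), IsEmbedding e ∧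
          ∀ y : Y, (Function.support (e y)).Countable) ∧
        ∃ f : X → Y, Continuous f ∧ f ⁻¹' (f '' A) = A) →
      ∀ (Z : Type) [TopologicalSpace Z] [T2Space Z] (g : X → Z),
        Continuous g → Function.Surjective g →
        ∀ B : Set Z, ∃ (Y : Type) (_ : TopologicalSpace Y), CompactSpace Y ∧
          (∃ (κ : Type) (e : Y → (κ → ℝ)), IsEmbedding e ∧
            ∀ y : Y, (Function.support (e y)).Countable) ∧
          ∃ f : Z → Y, Continuous f ∧ f ⁻¹' (f '' B) = B := by
  intro X _ _ _ hX Z _ _ g hg hsurj B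
  -- `X` is splittable by Sigma-maps
  have hs : Helper27.Corson.Splittable X := by
    intro A
    obtain ⟨Y, _, _, ⟨κ, e, he, hsupp⟩, f, hf, hfA⟩ := hX A
    refine ⟨κ, fun x => e (f x), ⟨he.continuous.comp hf, fun x => hsupp (f x)⟩, ?_⟩
    intro x y hxy
    have hxy' : f x = f y := he.injective hxy
    constructor
    · intro hx
      have h1 : y ∈ f ⁻¹' (f '' A) := ⟨x, hx, hxy'⟩
      rwa [hfA] at h1
    · intro hy
      have h1 : x ∈ f ⁻¹' (f '' A) := ⟨y, hy, hxy'.symm⟩
      rwa [hfA] at h1
  -- hence `X`, and then `Z`, is Corson compact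
  obtain ⟨κ, e, he, hinj⟩ := (hs.pc).image hg hsurj
  have hZc : CompactSpace Z := by
    rw [← isCompact_univ_iff, ← hsurj.range_eq]
    exact isCompact_range hg
  refine ⟨Z, inferInstance, hZc, ⟨κ, e, (he.1.isClosedEmbedding hinj).isEmbedding, he.2⟩,
    id, continuous_id, ?_⟩
  simp

end Pool.Agent.S13451
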