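import Pool.Statements.S13738
import Pool.Agent.Helper32.Kak.Area

set_option autoImplicit false
open Pool Pool.MP_ab6de5_gt

namespace Pool.Agent.S13738

open Pool.Agent.Helper32.Kak MeasureTheory

/-- The region in the plane. -/
def planeRegion (δ ε : ℝ) : Set (ℝ × ℝ) := {p | (p.1 : ℂ) + (p.2 : ℂ) * Complex.I ∈ region δ ε}

theorem volume_planeRegion (δ ε : ℝ) : volume (planeRegion δ ε) = volume (region δ ε) := by
  have h : region δ ε = Complex.measurableEquivRealProd ⁻¹' (planeRegion δ ε) := by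
    ext w
    simp only [planeRegion, Set.mem_preimage, Set.mem_ofPred_eq,
      Complex.measurableEquivRealProd_apply, Complex.re_add_im]
  rw [h, Complex.volume_preserving_equiv_real_prod.measure_preimage_equiv]

/-- The negation of the preceding statement: Over all star-shaped plane sets in which a unit needle can move continuously back to its starting position reversed, the infimum of the area equals (5 − 2√2)π/24. -/
theorem result :
    ¬ ((⨅ (R : Set (ℝ × ℝ))
        (_ : (∃ x : ℝ × ℝ, StarConvex ℝ x R) ∧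
          ∃ c : ℝ → ℝ × ℝ, ∃ θ : ℝ → ℝ,
            Continuous c ∧ Continuous θ ∧ c 1 = c 0 ∧
            (∃ k : ℤ, θ 1 = θ 0 + (2 * (k : ℝ) + 1) * Real.pi) ∧
            ∀ t ∈ Set.Icc (0 : ℝ) 1, ∀ s ∈ Set.Icc (-1/2 : ℝ) (1/2),
              c t + s • (Real.cos (θ t), Real.sin (θ t)) ∈ R),
        MeasureTheory.volume R)
      = ENNReal.ofReal ((5 - 2 * Real.sqrt 2) / 24 * Real.pi)) := by
  set n : ℕ := 6285 with hn
  set δ : ℝ := 2 * Real.pi / n with hδ
  set ε : ℝ := 1 / 1000000 with hε
  have hpi := Real.pi_pos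
  have hpi2 := Real.pi_lt_d2
  have hδn : (n : ℝ) * δ = 2 * Real.pi := by rw [hδ, hn]; norm_num; ring
  have hδ0 : 0 < δ := by rw [hδ, hn]; positivity
  have hδ1 : δ ≤ 1 / 1000 := by
    rw [hδ, hn, div_le_iff₀ (by norm_num)]
    norm_num
    have := Real.pi_lt_d6
    linarith
  have hδε : δ ^ 2 ≤ ε := by
    rw [hε]
    calc δ ^ 2 ≤ (1 / 1000) ^ 2 := pow_le_pow_left₀ hδ0.le hδ1 2
      _ = 1 / 1000000 := by norm_num
  have hodd : n = 2 * 3142 + 1 := rfl
  -- the motion
  let w : ℝ → ℂ := fun t => wn n δ (Real.pi * t) 0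
  have hw_cont : Continuous w := by
    have h1 := mo_continuous
    have h2 : Continuous (fun t : ℝ => Yf n (Real.pi * t)) := by
      unfold Yf
      exact continuous_const.mul (Real.continuous_arcsin.comp (by fun_prop))
    have h3 : Continuous (fun t : ℝ => Zf n (Real.pi * t)) := by
      unfold Zf
      exact continuous_const.mul (Real.continuous_arcsin.comp (by fun_prop))
    have h4 : Continuous (fun t : ℝ => mo (Yf n (Real.pi * t))) := h1.comp h2
    simp only [w, wn]
    fun_prop
  have hmem : planeRegion δ ε ∈ {R : Set (ℝ × ℝ) | (∃ x : ℝ × ℝ, StarConvex ℝ x R) ∧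
          ∃ c : ℝ → ℝ × ℝ, ∃ θ : ℝ → ℝ,
            Continuous c ∧ Continuous θ ∧ c 1 = c 0 ∧
            (∃ k : ℤ, θ 1 = θ 0 + (2 * (k : ℝ) + 1) * Real.pi) ∧
            ∀ t ∈ Set.Icc (0 : ℝ) 1, ∀ s ∈ Set.Icc (-1/2 : ℝ) (1/2),
              c t + s • (Real.cos (θ t), Real.sin (θ t)) ∈ R} := by
    refine ⟨⟨0, ?_⟩, fun t => ((w t).re, (w t).im), fun t => Real.pi * t, ?_, ?_, ?_, ?_, ?_⟩
    · rw [starConvex_zero_iff]
      intro p hp a ha0 ha1
      have h1 := region_star hδ0 (by positivity : (0 : ℝ) < ε) hp ha0 ha1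
      simp only [planeRegion, Set.mem_ofPred_eq]
      convert! h1 using 1
      simp only [Prod.smul_fst, Prod.smul_snd, smul_eq_mul]
      push_cast
      ring
    · exact (Complex.continuous_re.comp hw_cont).prodMk (Complex.continuous_im.comp hw_cont)
    · fun_prop
    · have h1 : w 1 = w 0 := by
        simp only [w, wn, Yf, Zf]
        have e1 : (n : ℝ) * (Real.pi * 1) = Real.pi + (3142 : ℤ) * (2 * Real.pi) := by
          rw [hodd]; push_cast; ring
        rw [e1, Real.sin_add_int_mul_two_pi, Real.cos_add_int_mul_two_pi]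
        simp only [Real.sin_pi, Real.arcsin_zero, Real.cos_pi, Real.arcsin_neg, Real.arcsin_one,
          mul_zero, Real.sin_zero, Real.cos_zero]
        have e2 : mo 0 = 0 := by
          unfold mo
          simp
        rw [e2]
        have e3 : 2 / Real.pi * -(Real.pi / 2) = -1 := by field_simp
        have e4 : 2 / Real.pi * (Real.pi / 2) = 1 := by field_simp
        rw [e3, e4]
        simp
      simp only [h1]
    · refine ⟨0, ?_⟩
      simp
    · intro t _ s hs
      have hs0 : -(1 / 2) ≤ s := by have := hs.1; linarith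
      have h1 := wn_mem (n := n) (l := 3142) hodd hδn hδ0 (by linarith) hδε (Real.pi * t) s hs0 hs.2
      simp only [planeRegion, Set.mem_ofPred_eq]
      convert! h1 using 1
      have e1 : wn n δ (Real.pi * t) s = w t + s * Complex.exp ((Real.pi * t : ℝ) * Complex.I) := by
        simp only [w, wn]
        push_cast
        ring
      rw [e1, Complex.exp_mul_I, ← Complex.ofReal_cos, ← Complex.ofReal_sin]
      simp only [Prod.fst_add, Prod.snd_add, Prod.smul_fst, Prod.smul_snd, smul_eq_mul]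
      conv_rhs => rw [← Complex.re_add_im (w t)]
      push_cast
      ring
  have hvol : volume (planeRegion δ ε) < ENNReal.ofReal ((5 - 2 * Real.sqrt 2) / 24 * Real.pi) := by
    rw [volume_planeRegion]
    refine lt_of_le_of_lt (volume_region (n := n) (by norm_num) hδn hδ0 hδε (by rw [hε]; norm_num)) ?_
    have hsqrt : Real.sqrt 2 < 1.41422 := by
      rw [Real.sqrt_lt' (by norm_num)]
      norm_num
    have hnum : (18 / 124 + ε) ^ 2 +
        4 * (2253081 / 129896448 + ε / 4 + ε * (88 / 124 + ε)) < (5 - 2 * Real.sqrt 2) / 24 := by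
      rw [hε]
      norm_num
      norm_num at hsqrt
      linarith
    rw [ENNReal.ofReal_lt_ofReal_iff_of_nonneg (by positivity)]
    calc Real.pi * ((18 / 124 + ε) ^ 2 + 4 * (2253081 / 129896448 + ε / 4 + ε * (88 / 124 + ε)))
        < Real.pi * ((5 - 2 * Real.sqrt 2) / 24) := mul_lt_mul_of_pos_left hnum hpi
      _ = _ := by ring
  intro heq
  have hle : (⨅ (R : Set (ℝ × ℝ))
        (_ : (∃ x : ℝ × ℝ, StarConvex ℝ x R) ∧
          ∃ c : ℝ → ℝ × ℝ, ∃ θ : ℝ → ℝ,
            Continuous c ∧ Continuous θ ∧ c 1 = c 0 ∧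
            (∃ k : ℤ, θ 1 = θ 0 + (2 * (k : ℝ) + 1) * Real.pi) ∧
            ∀ t ∈ Set.Icc (0 : ℝ) 1, ∀ s ∈ Set.Icc (-1/2 : ℝ) (1/2),
              c t + s • (Real.cos (θ t), Real.sin (θ t)) ∈ R),
        MeasureTheory.volume R) ≤ volume (planeRegion δ ε) := iInf₂_le _ hmem
  rw [heq] at hle
  exact absurd hvol (not_lt.mpr hle)

end Pool.Agent.S13738
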