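import Pool.Statements.S13832
import Pool.Agent.Helper19.Wh.Group

set_option autoImplicit false
open Pool Pool.MP_bafecb_gt

namespace Pool.Agent.S13832


open Pool.Agent.Helper19.Wh

/-- the cyclic group of order five -/
abbrev Z5 : Type := Multiplicative (ZMod 5)

/-- its generator -/
def tt : Z5 := Multiplicative.ofAdd 1

theorem tt_pow5 : tt ^ 5 = 1 := by decide

/-- the unit -1 + t + t^4 of the integral group ring -/
noncomputable def uu : MonoidAlgebra ℤ Z5 :=
  MonoidAlgebra.single 1 (-1) + (MonoidAlgebra.single tt 1 + MonoidAlgebra.single (tt ^ 4) 1)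

/-- its inverse -1 + t^2 + t^3 -/
noncomputable def vv : MonoidAlgebra ℤ Z5 :=
  MonoidAlgebra.single 1 (-1) + (MonoidAlgebra.single (tt ^ 2) 1 + MonoidAlgebra.single (tt ^ 3) 1)

theorem uu_mul_vv : uu * vv = 1 := by
  unfold uu vv
  simp only [mul_add, add_mul, MonoidAlgebra.single_mul_single]
  have h1 : tt * tt ^ 2 = tt ^ 3 := by decide
  have h2 : tt * tt ^ 3 = tt ^ 4 := by decide
  have h3 : tt ^ 4 * tt ^ 2 = tt := by decide
  have h4 : tt ^ 4 * tt ^ 3 = tt ^ 2 := by decide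
  have hneg : ∀ g : Z5, (MonoidAlgebra.single g (-1 : ℤ)) = - MonoidAlgebra.single g (1 : ℤ) := by
    intro g
    rw [eq_neg_iff_add_eq_zero, ← MonoidAlgebra.single_add]
    simp
  rw [h1, h2, h3, h4, MonoidAlgebra.one_def]
  simp only [one_mul, mul_one, mul_neg, neg_neg, hneg]
  abel

/-- being of the form ± g -/
def Triv (y : MonoidAlgebra ℤ Z5) : Prop :=
  ∃ (g : Z5) (c : ℤˣ), y = MonoidAlgebra.single g (c : ℤ)

theorem not_triv_uu : ¬ Triv uu := by
  rintro ⟨g, c, h⟩
  have e1 := congrArg (fun f : MonoidAlgebra ℤ Z5 => f.coeff 1) h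
  have e2 := congrArg (fun f : MonoidAlgebra ℤ Z5 => f.coeff tt) h
  have n1 : tt ≠ 1 := by decide
  have n2 : tt ^ 4 ≠ 1 := by decide
  have n3 : (1 : Z5) ≠ tt := by decide
  have n4 : tt ^ 4 ≠ tt := by decide
  simp only [uu, MonoidAlgebra.coeff_add, Finsupp.add_apply, MonoidAlgebra.coeff_single, Finsupp.single_apply, if_pos, n1, n2, n3, n4,
    if_false] at e1 e2
  by_cases hg : g = 1
  · subst hg
    rw [if_neg n3] at e2
    simp at e2
  · rw [if_neg hg] at e1
    simp at e1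

theorem triv_prod {ι : Type*} (s : Finset ι) (f : ι → MonoidAlgebra ℤ Z5)
    (hf : ∀ i ∈ s, Triv (f i)) : Triv (∏ i ∈ s, f i) := by
  classical
  induction s using Finset.induction_on with
  | empty => exact ⟨1, 1, by simp [MonoidAlgebra.one_def]⟩
  | insert a s ha ih =>
    rw [Finset.prod_insert ha]
    obtain ⟨g, c, h1⟩ := hf a (Finset.mem_insert_self a s)
    obtain ⟨g', c', h2⟩ := ih (fun i hi => hf i (Finset.mem_insert_of_mem hi))
    refine ⟨g * g', c * c', ?_⟩
    rw [h1, h2, MonoidAlgebra.single_mul_single]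
    simp

/-- the generator t in the free product -/
noncomputable def TT : Monoid.Coprod Z5 (FreeGroup (Fin 1)) := Monoid.Coprod.inl tt

/-- the generator x in the free product -/
noncomputable def xx : Monoid.Coprod Z5 (FreeGroup (Fin 1)) :=
  Monoid.Coprod.inr (FreeGroup.of 0)

theorem TT_pow5 : TT ^ 5 = 1 := by
  unfold TT
  rw [← map_pow, tt_pow5, map_one]

/-- x_3 = t^3 x t^{-3} -/
noncomputable def x3 : Monoid.Coprod Z5 (FreeGroup (Fin 1)) := TT ^ 3 * xx * (TT ^ 3)⁻¹

/-- the relator -/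
noncomputable def rel : Monoid.Coprod Z5 (FreeGroup (Fin 1)) :=
  xx⁻¹ * (TT * xx * TT⁻¹) * (x3⁻¹ * (TT ^ 4 * xx * (TT ^ 4)⁻¹) * x3)

/-- the factors of the relator -/
noncomputable def LL : List (Monoid.Coprod Z5 (FreeGroup (Fin 1)) × Fin 1 × ℤˣ) :=
  [(1, 0, -1), (TT, 0, 1), (x3⁻¹ * TT ^ 4, 0, 1)]

/-- the retraction -/
noncomputable def phi : Monoid.Coprod Z5 (FreeGroup (Fin 1)) →* Z5 :=
  Monoid.Coprod.lift (MonoidHom.id Z5) (1 : FreeGroup (Fin 1) →* Z5)

theorem phi_TT : phi TT = tt := by simp [phi, TT]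

theorem phi_xx : phi xx = 1 := by simp [phi, xx]

theorem phi_x3 : phi x3 = 1 := by simp [x3, phi_xx]

theorem rel_eq : rel = (LL.map (fun t =>
    t.1 * Monoid.Coprod.inr (FreeGroup.of t.2.1) ^ ((t.2.2 : ℤˣ) : ℤ) * t.1⁻¹)).prod := by
  simp only [LL, List.map_cons, List.map_nil, List.prod_cons, List.prod_nil, mul_one]
  change rel = 1 * xx ^ (((-1 : ℤˣ)) : ℤ) * 1⁻¹ * (TT * xx ^ (((1 : ℤˣ)) : ℤ) * TT⁻¹ *
    (x3⁻¹ * TT ^ 4 * xx ^ (((1 : ℤˣ)) : ℤ) * (x3⁻¹ * TT ^ 4)⁻¹))
  simp only [Units.val_neg, Units.val_one, zpow_neg, zpow_one, rel]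
  group

theorem phi_rel : phi rel = 1 := by
  simp [rel, phi_xx, phi_x3]

/-- the presentation is trivial -/
theorem ker_eq : phi.ker = Subgroup.normalClosure (Set.range (fun _ : Fin 1 => rel)) := by
  apply le_antisymm
  · intro y hy
    set N := Subgroup.normalClosure (Set.range (fun _ : Fin 1 => rel)) with hN
    let q : Monoid.Coprod Z5 (FreeGroup (Fin 1)) →* Monoid.Coprod Z5 (FreeGroup (Fin 1)) ⧸ N :=
      QuotientGroup.mk' N
    have hqrel : q rel = 1 := by
      change ((rel : Monoid.Coprod Z5 (FreeGroup (Fin 1))) :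
        Monoid.Coprod Z5 (FreeGroup (Fin 1)) ⧸ N) = 1
      rw [QuotientGroup.eq_one_iff]
      exact Subgroup.subset_normalClosure ⟨0, rfl⟩
    have hqx : q xx = 1 := by
      apply x_eq_one (q TT) (q xx)
      · rw [← map_pow, TT_pow5, map_one]
      · have : q rel = (q xx)⁻¹ * (q TT * q xx * (q TT)⁻¹) *
            ((q TT ^ 3 * q xx * (q TT ^ 3)⁻¹)⁻¹ * (q TT ^ 4 * q xx * (q TT ^ 4)⁻¹) *
              (q TT ^ 3 * q xx * (q TT ^ 3)⁻¹)) := by
          simp only [rel, x3, map_mul, map_inv, map_pow]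
        rw [← this, hqrel]
    have hcomp : q = (q.comp Monoid.Coprod.inl).comp phi := by
      apply Monoid.Coprod.hom_ext
      · ext g
        simp [phi]
      · apply FreeGroup.ext_hom
        intro a
        have ha : a = 0 := Subsingleton.elim _ _
        subst ha
        change q xx = q (Monoid.Coprod.inl (phi xx))
        rw [hqx, phi_xx, map_one, map_one]
    have hy1 : phi y = 1 := hy
    have hqy : q y = 1 := by
      rw [hcomp]
      simp [hy1]
    exact (QuotientGroup.eq_one_iff y).mp hqy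
  · apply Subgroup.normalClosure_le_normal
    rintro _ ⟨i, rfl⟩
    exact phi_rel

/-- The negation of the preceding statement: For every group π, if relators written as products of conjugates of the x_i give a presentation whose map to π is an isomorphism and whose matrix X is invertible over Zπ, then X stabilised is elementary times a diagonal of ±g, i.e. its Whitehead torsion is zero. -/
theorem result :
    ¬ (∀ (π : Type) [Group π] (n : ℕ) (r : Fin n → Monoid.Coprod π (FreeGroup (Fin n)))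
    (L : Fin n → List (Monoid.Coprod π (FreeGroup (Fin n)) × Fin n × ℤˣ))
    (φ : Monoid.Coprod π (FreeGroup (Fin n)) →* π)
    (X : Matrix (Fin n) (Fin n) (MonoidAlgebra ℤ π)),
    φ = Monoid.Coprod.lift (MonoidHom.id π) (1 : FreeGroup (Fin n) →* π) →
    (∀ i, r i = ((L i).map (fun t =>
        t.1 * Monoid.Coprod.inr (FreeGroup.of t.2.1) ^ ((t.2.2 : ℤˣ) : ℤ) * t.1⁻¹)).prod) →
    (∀ i j, X i j = ((L i).map (fun t =>
        if t.2.1 = j then MonoidAlgebra.single (φ t.1) ((t.2.2 : ℤˣ) : ℤ) else 0)).sum) →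
    φ.ker = Subgroup.normalClosure (Set.range r) →
    IsUnit X →
    ∃ (m : ℕ) (E : List ((Fin n ⊕ Fin m) × (Fin n ⊕ Fin m) × MonoidAlgebra ℤ π))
      (d : Fin n ⊕ Fin m → π) (s : Fin n ⊕ Fin m → ℤˣ),
      (∀ e ∈ E, e.1 ≠ e.2.1) ∧
      Matrix.fromBlocks X 0 0 (1 : Matrix (Fin m) (Fin m) (MonoidAlgebra ℤ π)) =
        (E.map (fun e => (1 : Matrix (Fin n ⊕ Fin m) (Fin n ⊕ Fin m) (MonoidAlgebra ℤ π)) +
            Matrix.of (fun a b => if a = e.1 ∧ b = e.2.1 then e.2.2 else 0))).prod *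
          Matrix.diagonal (fun k => MonoidAlgebra.single (d k) ((s k : ℤˣ) : ℤ))) := by
  intro H
  have hX : ∀ i j : Fin 1, (Matrix.of (fun _ _ : Fin 1 => uu)) i j = (LL.map (fun t =>
        if t.2.1 = j then MonoidAlgebra.single (phi t.1) ((t.2.2 : ℤˣ) : ℤ) else 0)).sum := by
    intro i j
    have hj : j = 0 := Subsingleton.elim _ _
    subst hj
    simp [LL, uu, phi_TT, phi_x3]
  have hunit : IsUnit (Matrix.of (fun _ _ : Fin 1 => uu)) := by
    rw [Matrix.isUnit_iff_isUnit_det]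
    rw [Matrix.det_fin_one]
    exact IsUnit.of_mul_eq_one vv uu_mul_vv
  obtain ⟨m, E, d, s, hE, hdec⟩ := H Z5 1 (fun _ => rel) (fun _ => LL) phi
    (Matrix.of (fun _ _ : Fin 1 => uu)) rfl (fun _ => rel_eq) hX ker_eq hunit
  have hdet := congrArg Matrix.det hdec
  rw [Matrix.det_fromBlocks_zero₂₁, Matrix.det_one, mul_one, Matrix.det_fin_one,
    Matrix.det_mul, Matrix.det_diagonal] at hdet
  have hEdet : (E.map (fun (e : (Fin 1 ⊕ Fin m) × (Fin 1 ⊕ Fin m) × MonoidAlgebra ℤ Z5) => (1 : Matrix (Fin 1 ⊕ Fin m) (Fin 1 ⊕ Fin m) (MonoidAlgebra ℤ Z5)) +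
            Matrix.of (fun a b => if a = e.1 ∧ b = e.2.1 then e.2.2 else 0))).prod.det =
            (1 : MonoidAlgebra ℤ Z5) := by
    clear hdec hdet
    induction E with
    | nil => simp
    | cons e E ih =>
      rw [List.map_cons, List.prod_cons, Matrix.det_mul, ih (fun e' he' => hE e' (List.mem_cons_of_mem _ he')),
        mul_one]
      have h1 : (1 : Matrix (Fin 1 ⊕ Fin m) (Fin 1 ⊕ Fin m) (MonoidAlgebra ℤ Z5)) +
            Matrix.of (fun a b => if a = e.1 ∧ b = e.2.1 then e.2.2 else 0) =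
          Matrix.transvection e.1 e.2.1 e.2.2 := by
        ext a b
        simp only [Matrix.transvection, Matrix.add_apply, Matrix.of_apply, Matrix.single_apply]
        congr 1
        simp only [eq_comm]
      rw [h1, Matrix.det_transvection_of_ne _ _ (hE e List.mem_cons_self)]
  rw [hEdet, one_mul] at hdet
  have htriv : Triv (∏ i : Fin 1 ⊕ Fin m, MonoidAlgebra.single (d i) ((s i : ℤˣ) : ℤ)) :=
    triv_prod _ _ (fun i _ => ⟨d i, s i, rfl⟩)
  rw [← hdet] at htriv
  exact not_triv_uu htriv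

end Pool.Agent.S13832
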