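import Pool.Statements.S14091
import Pool.Agent.Helper21.LM.Asm

set_option autoImplicit false
open Pool Pool.MP_de131a_gt

namespace Pool.Agent.S14091

/-- For every Hausdorff abelian topological group that is locally minimal (some identity neighbourhood forbids strictly coarser Hausdorff group topologies in which it stays a neighbourhood), its tightness equals its character. -/
theorem result :
    ∀ (G : Type) [CommGroup G] [τ : TopologicalSpace G] [IsTopologicalGroup G] [T2Space G],
      (∃ U ∈ nhds (1 : G), ∀ σ : TopologicalSpace G,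
          @IsTopologicalGroup G σ _ → @T2Space G σ → τ ≤ σ → U ∈ @nhds G σ 1 → σ = τ) →
      sInf {κ : Cardinal | ∀ A : Set G, ∀ x ∈ closure A,
              ∃ B ⊆ A, Cardinal.mk B ≤ κ ∧ x ∈ closure B}
        = sInf {κ : Cardinal | ∃ 𝓑 : Set (Set G),
              (nhds (1 : G)).HasBasis (fun s => s ∈ 𝓑) id ∧ Cardinal.mk 𝓑 = κ} := by
  intro G _ τ _ _ h
  obtain ⟨U, hU, hmin⟩ := h
  have hT2 : T2Space (Additive G) := (inferInstance : T2Space G)
  have hadd : IsTopologicalAddGroup (Additive G) := inferInstance
  have hmin' : Pool.Agent.Helper21.LM.MinOn (Additive G) (U : Set (Additive G)) := by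
    intro σ h1 h2 h3 h4
    apply hmin σ _ h2 h3 h4
    exact @IsTopologicalGroup.mk G σ _ (@ContinuousMul.mk G σ _ h1.toContinuousAdd.continuous_add)
      (@ContinuousInv.mk G σ _ h1.toContinuousNeg.continuous_neg)
  exact Pool.Agent.Helper21.LM.tight_eq_char (G := Additive G) (U := U) hU hmin'

end Pool.Agent.S14091
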