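import Pool.Statements.S14275
-- import your own Pool.Agent.* helpers here
import Pool.Agent.Helper26.Slender

set_option autoImplicit false
open Pool Pool.MP_faf39c_gt

namespace Pool.Agent.S14275

/-- The initial topology on `G` with respect to all homomorphisms to the discrete group `ℤ`. -/
@[instance_reducible] def dualTop (G : Type) [AddCommGroup G] : TopologicalSpace G :=
  ⨅ f : G →+ ℤ, TopologicalSpace.induced f ⊥

/-- The set of functions on the Cantor set depending on finitely many coordinates only. -/
def locSet : Set ((ℕ → Bool) → ℤ) :=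
  ⋃ n : ℕ, Set.range (fun (g : (Fin n → Bool) → ℤ) (x : ℕ → Bool) => g (fun i => x i))

lemma locSet_countable : locSet.Countable := by
  apply Set.countable_iUnion
  intro n
  exact Set.countable_range _

/-- Finite prescriptions can be met in `locSet`. -/
lemma locSet_interp (F : Finset (ℕ → Bool)) (x : (ℕ → Bool) → ℤ) :
    ∃ d ∈ locSet, ∀ i ∈ F, d i = x i := by
  classical
  -- a level separating the points of `F`
  have hsep : ∃ n : ℕ, ∀ i ∈ F, ∀ j ∈ F, (∀ k < n, i k = j k) → i = j := by
    have h : ∀ p : (ℕ → Bool) × (ℕ → Bool), ∃ n : ℕ, (∀ k < n, p.1 k = p.2 k) → p.1 = p.2 := by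
      intro p
      by_cases hp : p.1 = p.2
      · exact ⟨0, fun _ => hp⟩
      · obtain ⟨k, hk⟩ := Function.ne_iff.mp hp
        exact ⟨k + 1, fun h => absurd (h k (Nat.lt_succ_self k)) hk⟩
    choose N hN using h
    refine ⟨(F ×ˢ F).sup N, ?_⟩
    intro i hi j hj hij
    apply hN (i, j)
    intro k hk
    apply hij k
    refine lt_of_lt_of_le hk ?_
    exact Finset.le_sup (f := N) (Finset.mem_product.mpr ⟨hi, hj⟩)
  obtain ⟨n, hn⟩ := hsep
  let g : (Fin n → Bool) → ℤ := fun s =>
    if h : ∃ i ∈ F, (fun k : Fin n => i k) = s then x h.choose else 0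
  refine ⟨fun y => g (fun k => y k), Set.mem_iUnion.mpr ⟨n, g, rfl⟩, ?_⟩
  intro i hi
  have hex : ∃ j ∈ F, (fun k : Fin n => j k) = (fun k : Fin n => i k) := ⟨i, hi, rfl⟩
  have h1 : g (fun k : Fin n => i k) = x hex.choose := by
    simp only [g]
    rw [dif_pos hex]
  show g (fun k : Fin n => i k) = x i
  rw [h1]
  congr 1
  apply hn _ hex.choose_spec.1 _ hi
  intro k hk
  exact congrFun hex.choose_spec.2 ⟨k, hk⟩

/-- There is a rule giving every abelian group a group topology, with all homomorphisms continuous, and an infinite abelian group that is Hausdorff in it and has a dense subset D with 2^∣D∣ < ∣G∣. -/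
theorem result :
    ∃ T : (G : Type) → [AddCommGroup G] → TopologicalSpace G,
      (∀ (G : Type) [AddCommGroup G], @IsTopologicalAddGroup G (T G) _) ∧
      (∀ (G H : Type) [AddCommGroup G] [AddCommGroup H] (f : G →+ H),
          @Continuous G H (T G) (T H) f) ∧
      ∃ (G : Type) (_ : AddCommGroup G), Infinite G ∧ @T2Space G (T G) ∧
        ∃ D : Set G, @Dense G (T G) D ∧
          (2 : Cardinal) ^ Cardinal.mk ↥D < Cardinal.mk G := by
  refine ⟨fun G _ => dualTop G, ?_, ?_, ?_⟩
  · intro G _
    apply topologicalAddGroup_iInf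
    intro f
    let : TopologicalSpace ℤ := ⊥
    have : DiscreteTopology ℤ := ⟨rfl⟩
    exact topologicalAddGroup_induced f
  · intro G H _ _ f
    apply continuous_iInf_rng.mpr
    intro g
    apply continuous_induced_rng.mpr
    have : @Continuous G ℤ (dualTop G) ⊥ ((g.comp f : G →+ ℤ) : G → ℤ) := by
      apply continuous_iInf_dom (i := g.comp f)
      exact continuous_induced_dom
    exact this
  · refine ⟨(ℕ → Bool) → ℤ, inferInstance, inferInstance, ?_, locSet, ?_, ?_⟩
    · refine @T2Space.mk _ (dualTop _) ?_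
      intro x y hxy
      obtain ⟨i, hi⟩ := Function.ne_iff.mp hxy
      let ev : ((ℕ → Bool) → ℤ) →+ ℤ := Pi.evalAddMonoidHom (fun _ : ℕ → Bool => ℤ) i
      have hc : @Continuous ((ℕ → Bool) → ℤ) ℤ (dualTop ((ℕ → Bool) → ℤ)) ⊥
          (ev : ((ℕ → Bool) → ℤ) → ℤ) := by
        apply continuous_iInf_dom (i := ev)
        exact continuous_induced_dom
      let := dualTop ((ℕ → Bool) → ℤ)
      let : TopologicalSpace ℤ := ⊥
      have : DiscreteTopology ℤ := ⟨rfl⟩
      refine ⟨ev ⁻¹' {x i}, ev ⁻¹' {y i}, ?_, ?_, rfl, rfl, ?_⟩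
      · exact (isOpen_discrete _).preimage hc
      · exact (isOpen_discrete _).preimage hc
      · rw [Set.disjoint_left]
        intro z hz hz'
        apply hi
        have h1 : ev z = x i := hz
        have h2 : ev z = y i := hz'
        rw [← h1, ← h2]
    · -- density
      -- basic open sets
      classical
      intro x
      let := dualTop ((ℕ → Bool) → ℤ)
      rw [mem_closure_iff_nhds]
      intro U hU
      have hnhds : nhds x = ⨅ f : ((ℕ → Bool) → ℤ) →+ ℤ,
          @nhds _ (TopologicalSpace.induced f ⊥) x := nhds_iInf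
      rw [hnhds, Filter.mem_iInf] at hU
      obtain ⟨s, hsfin, V, hV, rfl⟩ := hU
      choose F hF using Helper26.los_cantor
      obtain ⟨d, hd, hdF⟩ := locSet_interp (hsfin.toFinset.biUnion F) x
      refine ⟨d, ?_, hd⟩
      rw [Set.mem_iInter]
      intro f
      have hVf := hV f
      rw [nhds_induced] at hVf
      obtain ⟨W, hW, hWV⟩ := Filter.mem_comap.mp hVf
      apply hWV
      have hfd : (f : ((ℕ → Bool) → ℤ) →+ ℤ) (d - x) = 0 := by
        apply hF
        intro i hi
        rw [Pi.sub_apply, sub_eq_zero]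
        apply hdF
        rw [Finset.mem_biUnion]
        exact ⟨f, hsfin.mem_toFinset.mpr f.2, hi⟩
      have hfd' : (f : ((ℕ → Bool) → ℤ) →+ ℤ) d = (f : ((ℕ → Bool) → ℤ) →+ ℤ) x := by
        rw [map_sub] at hfd
        exact sub_eq_zero.mp hfd
      show (f : ((ℕ → Bool) → ℤ) →+ ℤ) d ∈ W
      rw [hfd']
      exact mem_of_mem_nhds hW
    · have h1 : Cardinal.mk locSet ≤ Cardinal.aleph0 :=
        Cardinal.mk_le_aleph0_iff.mpr locSet_countable
      have h2 : (2 : Cardinal) ^ Cardinal.mk locSet ≤ Cardinal.continuum := by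
        rw [← Cardinal.two_power_aleph0]
        exact Cardinal.power_le_power_left two_ne_zero h1
      refine lt_of_le_of_lt h2 ?_
      refine lt_of_lt_of_le (Cardinal.cantor _) ?_
      have h3 : Cardinal.mk (((ℕ → Bool) → Bool)) ≤ Cardinal.mk (((ℕ → Bool) → ℤ)) := by
        apply Cardinal.mk_le_of_injective (f := fun g i => if g i then (1 : ℤ) else 0)
        intro g g' h
        funext i
        have := congrFun h i
        simp only at this
        cases h1 : g i <;> cases h2 : g' i <;> simp [h1, h2] at this ⊢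
      refine le_trans (le_of_eq ?_) h3
      simp

end Pool.Agent.S14275
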