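import Pool.Statements.S14667
import Pool.Agent.Helper92.Gen.Third

set_option autoImplicit false
open Filter
open Pool Pool.MP_4b528e_lc

namespace Pool.Agent.S14667

/-- For every non-generically-computable A ⊆ ℕ there is B of density 1, not generically computable, and one c.e. enumeration operator mapping every density-1 partial description of A to a density-1 partial description of B. -/
theorem result :
    ∀ A : Set ℕ,
      (¬ ∃ φ : ℕ →. Bool, Partrec φ ∧
          (∀ n : ℕ, ∀ b ∈ φ n, (b = true ↔ n ∈ A)) ∧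
          Tendsto (fun m : ℕ => ((({n : ℕ | (φ n).Dom} ∩ Set.Iio m).ncard : ℝ) / (m : ℝ)))
            atTop (nhds 1)) →
      ∃ B : Set ℕ,
        (∃ W : ℕ × List ℕ → Prop, REPred W ∧
          ∀ X : Set ℕ,
            ((∀ x ∈ X, ∃ n j : ℕ, x = Nat.pair n j ∧ ((j = 1 ∧ n ∈ A) ∨ (j = 0 ∧ n ∉ A))) ∧
              Tendsto (fun m : ℕ =>
                ((({n : ℕ | ∃ j : ℕ, Nat.pair n j ∈ X} ∩ Set.Iio m).ncard : ℝ) / (m : ℝ)))
                atTop (nhds 1)) →
            ((∀ x ∈ {y : ℕ | ∃ l : List ℕ, (∀ z ∈ l, z ∈ X) ∧ W (y, l)},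
                ∃ n j : ℕ, x = Nat.pair n j ∧ ((j = 1 ∧ n ∈ B) ∨ (j = 0 ∧ n ∉ B))) ∧
              Tendsto (fun m : ℕ =>
                ((({n : ℕ | ∃ j : ℕ, Nat.pair n j ∈
                    {y : ℕ | ∃ l : List ℕ, (∀ z ∈ l, z ∈ X) ∧ W (y, l)}} ∩ Set.Iio m).ncard : ℝ)
                  / (m : ℝ)))
                atTop (nhds 1))) ∧
        (¬ ∃ φ : ℕ →. Bool, Partrec φ ∧
          (∀ n : ℕ, ∀ b ∈ φ n, (b = true ↔ n ∈ B)) ∧
          Tendsto (fun m : ℕ => ((({n : ℕ | (φ n).Dom} ∩ Set.Iio m).ncard : ℝ) / (m : ℝ)))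
            atTop (nhds 1)) ∧
        Tendsto (fun m : ℕ => (((B ∩ Set.Iio m).ncard : ℝ) / (m : ℝ))) atTop (nhds 1) := by
  intro A hA
  exact Pool.Agent.Helper92.Gen.main A hA

end Pool.Agent.S14667
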