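import Pool.Statements.S17141
import Pool.Agent.Helper25.EC.Assembly
import Pool.Agent.Helper37.ETC.Step

set_option autoImplicit false
open Pool Pool.MP_600e55_nt

namespace Pool.Agent.S17141

/-- If F has a primitive p-th root of unity and its maximal pro-p Galois group is topologically finitely generated, that group is a free pro-p product of closed subgroups, each ≅ Z_p, a decomposition group of a valuation with nontrivial inertia, or (p=2) of order 2. -/
theorem result :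
  ∀ (p : ℕ) [Fact p.Prime] (F : Type) [Field F],
    (∃ ζ : F, IsPrimitiveRoot ζ p) →
    ∀ K : IntermediateField F (AlgebraicClosure F),
      K = sSup {L : IntermediateField F (AlgebraicClosure F) |
        FiniteDimensional F L ∧ IsGalois F L ∧ ∃ k : ℕ, Module.finrank F L = p ^ k} →
      (∃ S : Finset (↥K ≃ₐ[F] ↥K),
        Dense ((Subgroup.closure (S : Set (↥K ≃ₐ[F] ↥K)) : Set (↥K ≃ₐ[F] ↥K)))) →
      ∃ (n : ℕ) (H : Fin n → Subgroup (↥K ≃ₐ[F] ↥K)),
        (∀ i, IsClosed (H i : Set (↥K ≃ₐ[F] ↥K))) ∧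
        (∀ (P : Type) [Group P] [Finite P], (∃ k : ℕ, Nat.card P = p ^ k) →
          ∀ φ : (i : Fin n) → (H i →* P), (∀ i, IsOpen ((φ i).ker : Set (H i))) →
            ∃! ψ : (↥K ≃ₐ[F] ↥K) →* P,
              IsOpen (ψ.ker : Set (↥K ≃ₐ[F] ↥K)) ∧
              ∀ i, ∀ x : H i, ψ (x : ↥K ≃ₐ[F] ↥K) = φ i x) ∧
        (∀ i,
          Nonempty (H i ≃ₜ* Multiplicative (PadicInt p)) ∨
          (∃ (Γ : Type) (_ : LinearOrderedCommGroupWithZero Γ) (w : Valuation (↥K) Γ),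
            (∀ σ : ↥K ≃ₐ[F] ↥K, σ ∈ H i ↔ ∀ x : ↥K, (w (σ x) ≤ 1 ↔ w x ≤ 1)) ∧
            ∃ σ ∈ H i, σ ≠ 1 ∧ ∀ x : ↥K, w x ≤ 1 → w (σ x - x) < 1) ∨
          (p = 2 ∧ Nat.card (H i) = 2)) :=
  Pool.Agent.Helper25.EC.main_of_step
    (fun _ _ _ _ _ _ _ _ _ _ h => Pool.Helper37.ETC.step_of_frame h)

end Pool.Agent.S17141
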