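-- Proof of frozen statement S17153 (finiteness of the solutions of V_1(n) = 1).
import Pool.Statements.S17153
import Pool.Agent.Helper57.Final

set_option autoImplicit false
open Pool Pool.MP_6090df_nt

namespace Pool.Agent.S17153

lemma H_of_mem (n : ℕ) (hn : ∀ k : ℕ, 1 ≤ k →
        {p : ℕ | p.Prime ∧ p ∣ n + k ∧
          ∀ i : ℕ, i < k → ¬ p ^ ((n + k).factorization p) ∣ n + i}.ncard ≤ 1) :
    Pool.Agent.Helper57.V1.H n := by
  intro k hk p q hp hq hpk hqk hcp hcq
  have hne : n + k ≠ 0 := by omega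
  have hfin : {p : ℕ | p.Prime ∧ p ∣ n + k ∧
          ∀ i : ℕ, i < k → ¬ p ^ ((n + k).factorization p) ∣ n + i}.Finite := by
    apply Set.Finite.subset (n + k).primeFactors.finite_toSet
    intro r hr
    rw [Finset.mem_coe, Nat.mem_primeFactors]
    exact ⟨hr.1, hr.2.1, hne⟩
  have hmem : ∀ r : ℕ, r.Prime → r ∣ n + k → k < r ^ ((n + k).factorization r) →
      r ∈ {p : ℕ | p.Prime ∧ p ∣ n + k ∧
          ∀ i : ℕ, i < k → ¬ p ^ ((n + k).factorization p) ∣ n + i} := by
    intro r hr hrk hc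
    refine ⟨hr, hrk, fun i hi hdvd => ?_⟩
    have h1 : r ^ ((n + k).factorization r) ∣ n + k := Nat.ordProj_dvd _ _
    have h2 : r ^ ((n + k).factorization r) ∣ (n + k) - (n + i) := Nat.dvd_sub h1 hdvd
    have h3 : (n + k) - (n + i) = k - i := by omega
    rw [h3] at h2
    have h4 := Nat.le_of_dvd (by omega) h2
    omega
  exact (Set.ncard_le_one hfin).1 (hn k hk) p (hmem p hp hpk hcp) q (hmem q hq hqk hcq)

/-- Only finitely many n have the maximum over k≥1 of V(n;k) equal to 1, where V(n;k) counts primes p whose exact power dividing n+k divides none of n, …, n+k−1. -/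
theorem result :
    {n : ℕ | (∀ k : ℕ, 1 ≤ k →
        {p : ℕ | p.Prime ∧ p ∣ n + k ∧
          ∀ i : ℕ, i < k → ¬ p ^ ((n + k).factorization p) ∣ n + i}.ncard ≤ 1) ∧
      ∃ k : ℕ, 1 ≤ k ∧
        {p : ℕ | p.Prime ∧ p ∣ n + k ∧
          ∀ i : ℕ, i < k → ¬ p ^ ((n + k).factorization p) ∣ n + i}.ncard = 1}.Finite := by
  obtain ⟨N0, hN0⟩ := Pool.Agent.Helper57.V1.exists_bound
  apply Set.Finite.subset (Set.finite_lt_nat N0)
  intro n hn
  by_contra hcon
  have hge : N0 ≤ n := by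
    have h' : ¬ (n < N0) := hcon
    omega
  exact hN0 n hge (H_of_mem n hn.1)

end Pool.Agent.S17153
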