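import Pool.Statements.S17390
import Pool.Agent.Helper44.BZ.PartB

set_option autoImplicit false
open Pool Pool.MP_717513_nt

namespace Pool.Agent.S17390

/-- The negation of the preceding statement: For N ≥ 1 and prime p∤N there is c such that every normalized Hecke eigen cusp form on Γ1(N) with character, any weight k≥1, has Q_p(a_ℓ : ℓ∤Np) of degree ≤ c over Q_p, under every embedding into an algebraic closure of Q_p. -/
theorem result :
    ¬ (∀ (N p : ℕ) [Fact p.Prime], 0 < N → ¬ p ∣ N →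
      ∃ c : ℕ, ∀ k : ℕ, 1 ≤ k →
        ∀ (f : CuspForm (CongruenceSubgroup.Gamma1 N) (k : ℤ))
          (χ : DirichletCharacter ℂ N) (a : ℕ → ℂ),
          (∀ τ : UpperHalfPlane,
              HasSum (fun n : ℕ => a n * Complex.exp (2 * Real.pi * Complex.I * (n : ℂ) * (τ : ℂ)))
                (f τ)) →
          (∀ γ ∈ CongruenceSubgroup.Gamma0 N, ∀ τ : UpperHalfPlane,
              f (γ • τ) =
                χ ((((γ : Matrix (Fin 2) (Fin 2) ℤ) 1 1 : ℤ)) : ZMod N) *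
                  ((((γ : Matrix (Fin 2) (Fin 2) ℤ) 1 0 : ℤ) : ℂ) * (τ : ℂ) +
                    (((γ : Matrix (Fin 2) (Fin 2) ℤ) 1 1 : ℤ) : ℂ)) ^ k * f τ) →
          a 1 = 1 →
          (∀ ℓ : ℕ, ℓ.Prime → ¬ ℓ ∣ N → ∀ n : ℕ, 1 ≤ n →
              a (n * ℓ) + (if ℓ ∣ n then χ (ℓ : ZMod N) * (ℓ : ℂ) ^ (k - 1) * a (n / ℓ) else 0)
                = a ℓ * a n) →
          ∀ ι : (IntermediateField.adjoin ℚ
                  {z : ℂ | ∃ ℓ : ℕ, ℓ.Prime ∧ ¬ ℓ ∣ N * p ∧ z = a ℓ}) →+* AlgebraicClosure ℚ_[p],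
            FiniteDimensional ℚ_[p] (IntermediateField.adjoin ℚ_[p] (Set.range ι)) ∧
              Module.finrank ℚ_[p] (IntermediateField.adjoin ℚ_[p] (Set.range ι)) ≤ c) := by
  exact Pool.Agent.Helper59.BZ.main_neg Pool.Agent.Helper44.BZ.partB

end Pool.Agent.S17390
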