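import Pool.Statements.S17675
import Pool.Agent.Helper53.Cover.Final

set_option autoImplicit false
open Pool Pool.MP_88d7a5_nt

namespace Pool.Agent.S17675

/-- Every finite covering of the integers by residue classes with distinct moduli at least 2, none even and none divisible by 9, must use some modulus divisible by 15. -/
theorem result :
    ∀ (S : Finset ℕ) (r : ℕ → ℤ),
      (∀ m ∈ S, 2 ≤ m) →
      (∀ m ∈ S, ¬ (2 ∣ m)) →
      (∀ m ∈ S, ¬ (9 ∣ m)) →
      (∀ x : ℤ, ∃ m ∈ S, x ≡ r m [ZMOD (m : ℤ)]) →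
      ∃ m ∈ S, 15 ∣ m := by
  intro S r h2 hodd h9 hcov
  exact Pool.Agent.Helper53.Cover.covering S r h2 hodd h9 hcov

end Pool.Agent.S17675
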