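import Pool.Statements.S19764
import Pool.Agent.Helper49.StarFinal
import Pool.Agent.Helper49.StarLink
import Pool.Agent.Helper49.UnifSide

set_option autoImplicit false
open Classical
open Filter Topology
open Pool Pool.MP_fb9f4e_pr

namespace Pool.Agent.S19764

/-- The negation of the preceding statement: For fixed d ≥ 1 and n → ∞ with dn even, every sequence of graph events has probability → 0 under the uniform d-regular graph iff it does under the star d-process final graph conditioned on being d-regular. -/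
theorem result :
    ¬ (∀ d : ℕ, 1 ≤ d →
    ∀ M : (n : ℕ) → Matrix (SimpleGraph (Fin n)) (SimpleGraph (Fin n)) ℝ,
      (∀ (n : ℕ) (G H : SimpleGraph (Fin n)),
        M n G H =
          if (∀ v, G.degree v = d) then (if H = G then 1 else 0) else
            ∑ v ∈ Finset.univ.filter (fun w => ∀ u, G.degree w ≤ G.degree u),
              ∑ S ∈ (Finset.univ.filter
                  (fun u => u ≠ v ∧ G.degree u < d ∧ ¬ G.Adj v u)).powersetCard (d - G.degree v),
                (if H = G ⊔ SimpleGraph.fromRel (fun x y => x = v ∧ y ∈ S) then (1 : ℝ) else 0) /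
                  (((Finset.univ.filter (fun w => ∀ u, G.degree w ≤ G.degree u)).card : ℝ) *
                    (((Finset.univ.filter
                      (fun u => u ≠ v ∧ G.degree u < d ∧ ¬ G.Adj v u)).card.choose
                        (d - G.degree v) : ℕ) : ℝ))) →
    ∀ A : (n : ℕ) → Finset (SimpleGraph (Fin n)),
      (Tendsto
        (fun n => (((A n).filter (fun H => ∀ v, H.degree v = d)).card : ℝ) /
          ((Finset.univ.filter (fun H : SimpleGraph (Fin n) => ∀ v, H.degree v = d)).card : ℝ))
        (atTop ⊓ 𝓟 {n | Even (d * n)}) (𝓝 0) ↔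
       Tendsto
        (fun n => (∑ H ∈ (A n).filter (fun H => ∀ v, H.degree v = d), (M n ^ n) ⊥ H) /
          (∑ H ∈ Finset.univ.filter (fun H : SimpleGraph (Fin n) => ∀ v, H.degree v = d),
            (M n ^ n) ⊥ H))
        (atTop ⊓ 𝓟 {n | Even (d * n)}) (𝓝 0))) := by
  intro hall
  obtain ⟨d, hd⟩ : ∃ d : ℕ, d = 2 ^ 3600 := ⟨_, rfl⟩
  obtain ⟨Y, hY⟩ : ∃ Y : ℕ, Y = 2 ^ 3480 := ⟨_, rfl⟩
  have hdpos : 0 < d := by rw [hd]; positivity
  have hYpos : 0 < Y := by rw [hY]; positivity
  have hdeven : Even d := by rw [hd]; exact even_two.pow_of_ne_zero (by norm_num)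
  -- the filter is `atTop`
  have hfil : (atTop ⊓ 𝓟 {n : ℕ | Even (d * n)}) = atTop := by
    have : {n : ℕ | Even (d * n)} = Set.univ := by
      ext n; simp [hdeven.mul_right n]
    rw [this, principal_univ, inf_top_eq]
  -- the events
  obtain ⟨A, hA⟩ : ∃ A : (n : ℕ) → Finset (SimpleGraph (Fin n)), A = fun n =>
      Finset.univ.filter (fun H : SimpleGraph (Fin n) =>
        ∃ I : Finset (Fin n), (∀ x ∈ I, ∀ y ∈ I, ¬ H.Adj x y) ∧ n ≤ Y * I.card) := ⟨_, rfl⟩
  obtain ⟨M, hM⟩ : ∃ M : (n : ℕ) → Matrix (SimpleGraph (Fin n)) (SimpleGraph (Fin n)) ℝ,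
      ∀ (n : ℕ) (G H : SimpleGraph (Fin n)),
        M n G H =
          if (∀ v, G.degree v = d) then (if H = G then 1 else 0) else
            ∑ v ∈ Finset.univ.filter (fun w => ∀ u, G.degree w ≤ G.degree u),
              ∑ S ∈ (Finset.univ.filter
                  (fun u => u ≠ v ∧ G.degree u < d ∧ ¬ G.Adj v u)).powersetCard (d - G.degree v),
                (if H = G ⊔ SimpleGraph.fromRel (fun x y => x = v ∧ y ∈ S) then (1 : ℝ) else 0) /
                  (((Finset.univ.filter (fun w => ∀ u, G.degree w ≤ G.degree u)).card : ℝ) *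
                    (((Finset.univ.filter
                      (fun u => u ≠ v ∧ G.degree u < d ∧ ¬ G.Adj v u)).card.choose
                        (d - G.degree v) : ℕ) : ℝ)) :=
    ⟨fun n G H => _, fun n G H => rfl⟩
  have hiff := hall d hdpos M hM A
  rw [hfil] at hiff
  -- uniform side
  have hT1 : Tendsto
        (fun n => (((A n).filter (fun H => ∀ v, H.degree v = d)).card : ℝ) /
          ((Finset.univ.filter (fun H : SimpleGraph (Fin n) => ∀ v, H.degree v = d)).card : ℝ))
        atTop (𝓝 0) := by
    obtain ⟨W, hW⟩ : ∃ W : ℕ, W = 2 ^ 114 := ⟨_, rfl⟩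
    have hW' : 4 + 3480 ≤ W := by rw [hW]; norm_num
    have h1 := Helper49.Switch.uniform_side (d := d) (Y := Y) (W := W) hdpos hYpos
      (by
        rw [hd, hY, hW, show 64 = 2 ^ 6 by norm_num, ← pow_add, ← pow_add])
      (by
        rw [hY]
        calc 12 * 2 ^ 3480 ≤ 2 ^ 4 * 2 ^ 3480 := Nat.mul_le_mul_right _ (by norm_num)
          _ = 2 ^ (4 + 3480) := by rw [← pow_add]
          _ ≤ 2 ^ W := Nat.pow_le_pow_right (by norm_num) hW')
    refine h1.congr fun n => ?_
    congr 2
    rw [hA]
    congr 1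
    ext H
    simp only [Finset.mem_filter, Finset.mem_univ, true_and]
    tauto
  have hT2 := hiff.1 hT1
  -- star side
  obtain ⟨c, hc, hstar⟩ := Helper49.Star.star_concrete
  rw [← hd, ← hY] at hstar
  have hstep : ∀ n, ∀ f : SimpleGraph (Fin n) → ℝ,
      (M n).mulVec f = Helper49.Star.step d f := fun n =>
    Helper49.Star.mulVec_eq_step (fun G H => hM n G H)
  have hYj : Tendsto (fun j : ℕ => Y * j) atTop atTop :=
    tendsto_id.const_mul_atTop' hYpos
  have hT3 := hT2.comp hYj
  have hbound : ∀ᶠ j : ℕ in atTop, c ≤ (fun n => (∑ H ∈ (A n).filter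
        (fun H => ∀ v, H.degree v = d), (M n ^ n) ⊥ H) /
          (∑ H ∈ Finset.univ.filter (fun H : SimpleGraph (Fin n) => ∀ v, H.degree v = d),
            (M n ^ n) ⊥ H)) (Y * j) := by
    filter_upwards [hstar] with j hj
    obtain ⟨n, hn⟩ : ∃ n, n = Y * j := ⟨_, rfl⟩
    rw [← hn] at hj ⊢
    change c ≤ (∑ H ∈ (A n).filter (fun H => ∀ v, H.degree v = d), (M n ^ n) ⊥ H) /
          (∑ H ∈ Finset.univ.filter (fun H : SimpleGraph (Fin n) => ∀ v, H.degree v = d),
            (M n ^ n) ⊥ H)
    rw [Helper49.Star.sum_pow_eq (hstep n), Helper49.Star.sum_pow_eq (hstep n)]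
    obtain ⟨f, hf⟩ : ∃ f : SimpleGraph (Fin n) → ℝ, f = (fun H => if H ∈ (A n).filter
        (fun H => ∀ v, H.degree v = d) then 1 else 0) := ⟨_, rfl⟩
    rw [← hf]
    have hf0 : ∀ G, 0 ≤ f G := by
      intro G; rw [hf]; simp only; split_ifs <;> norm_num
    have hfr : ∀ G, (¬ ∀ v, G.degree v = d) → f G = 0 := by
      intro G hG; rw [hf]; simp only
      rw [if_neg]
      intro h; exact hG (Finset.mem_filter.1 h).2
    have hnum : c ≤ (Helper49.Star.step d)^[n] f ⊥ := by
      have h1 := Helper49.Star.iter_mono_steps (d := d) hf0 hfr (Nat.sub_le n j)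
        (⊥ : SimpleGraph (Fin n))
      refine le_trans ?_ h1
      refine le_trans hj ?_
      unfold Helper49.Star.succp
      apply Helper49.Star.iter_le_of_VC (n - j) _ (n - j) 0 (by omega) _ Helper49.Star.VC_bot
      intro G hG
      unfold Helper49.Star.reg1
      by_cases hreg : ∀ v, G.degree v = d
      · rw [if_pos hreg, hf]
        simp only
        rw [if_pos]
        rw [Finset.mem_filter, hA]
        simp only [Finset.mem_filter, Finset.mem_univ, true_and]
        refine ⟨?_, hreg⟩
        obtain ⟨I, hI, hIc⟩ := Helper49.Star.indep_of_VC hG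
        refine ⟨I, hI, ?_⟩
        have hjI : j ≤ I.card := by
          have hjn : j ≤ n := by rw [hn]; exact Nat.le_mul_of_pos_left j hYpos
          omega
        calc n = Y * j := hn
          _ ≤ Y * I.card := Nat.mul_le_mul_left _ hjI
      · rw [if_neg hreg]; exact hf0 G
    have hden1 : (Helper49.Star.step d)^[n] (fun H : SimpleGraph (Fin n) =>
        if H ∈ Finset.univ.filter (fun H : SimpleGraph (Fin n) => ∀ v, H.degree v = d)
          then 1 else 0) ⊥ ≤ 1 := by
      apply Helper49.Star.iter_le_one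
      intro G; split_ifs <;> norm_num
    have hden0 : c ≤ (Helper49.Star.step d)^[n] (fun H : SimpleGraph (Fin n) =>
        if H ∈ Finset.univ.filter (fun H : SimpleGraph (Fin n) => ∀ v, H.degree v = d)
          then 1 else 0) ⊥ := by
      refine hnum.trans ?_
      apply Helper49.Star.iter_le_of_VC n _ n 0 (by omega) _ Helper49.Star.VC_bot
      intro G _
      rw [hf]
      by_cases hreg : ∀ v, G.degree v = d
      · simp only [Finset.mem_filter, Finset.mem_univ, true_and]
        rw [if_pos hreg]
        split_ifs <;> norm_num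
      · simp only [Finset.mem_filter, Finset.mem_univ, true_and]
        rw [if_neg hreg, if_neg]
        intro h; exact hreg h.2
    rw [le_div_iff₀ (by linarith)]
    nlinarith
  have hle := ge_of_tendsto hT3 hbound
  linarith

end Pool.Agent.S19764
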